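import Mathlib

open MeasureTheory Filter Topology Set
open scoped ENNReal NNReal BigOperators

namespace CarpetM

/-- `HasCover r E K`: `E` can be covered by at most `K` sets of diameter at most `r`. -/
def HasCover {X : Type*} [PseudoMetricSpace X] (r : ℝ) (E : Set X) (K : ℝ) : Prop :=
  ∃ 𝒰 : Finset (Set X), (𝒰.card : ℝ) ≤ K ∧ (∀ U ∈ 𝒰, ∀ x ∈ U, ∀ y ∈ U, dist x y ≤ r) ∧
    E ⊆ ⋃ U ∈ 𝒰, U

section basic

variable {X Y : Type*} [PseudoMetricSpace X] [PseudoMetricSpace Y]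

theorem HasCover.mono_set {r K : ℝ} {E E' : Set X} (h : HasCover r E K) (hE : E' ⊆ E) :
    HasCover r E' K := by
  obtain ⟨𝒰, h1, h2, h3⟩ := h
  exact ⟨𝒰, h1, h2, hE.trans h3⟩

theorem HasCover.mono_K {r K K' : ℝ} {E : Set X} (h : HasCover r E K) (hK : K ≤ K') :
    HasCover r E K' := by
  obtain ⟨𝒰, h1, h2, h3⟩ := h
  exact ⟨𝒰, h1.trans hK, h2, h3⟩

theorem HasCover.mono_r {r r' K : ℝ} {E : Set X} (h : HasCover r E K) (hr : r ≤ r') :
    HasCover r' E K := by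
  obtain ⟨𝒰, h1, h2, h3⟩ := h
  exact ⟨𝒰, h1, fun U hU x hx y hy => (h2 U hU x hx y hy).trans hr, h3⟩

theorem HasCover.nonneg {r K : ℝ} {E : Set X} (h : HasCover r E K) : 0 ≤ K := by
  obtain ⟨𝒰, h1, h2, h3⟩ := h
  exact le_trans (Nat.cast_nonneg _) h1

theorem hasCover_single {r : ℝ} {E : Set X} (h : ∀ x ∈ E, ∀ y ∈ E, dist x y ≤ r) :
    HasCover r E 1 :=
  ⟨{E}, by simp, by simpa using h, by simp⟩

theorem hasCover_biUnion {ι : Type*} (s : Finset ι) {r : ℝ} {E : ι → Set X} {K : ι → ℝ}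
    (h : ∀ i ∈ s, HasCover r (E i) (K i)) : HasCover r (⋃ i ∈ s, E i) (∑ i ∈ s, K i) := by
  classical
  induction s using Finset.induction_on with
  | empty => exact ⟨∅, by simp, by simp, by simp⟩
  | insert a s ha ih =>
    obtain ⟨𝒰, h1, h2, h3⟩ := h a (Finset.mem_insert_self a s)
    obtain ⟨𝒱, g1, g2, g3⟩ := ih (fun i hi => h i (Finset.mem_insert_of_mem hi))
    refine ⟨𝒰 ∪ 𝒱, ?_, ?_, ?_⟩
    · rw [Finset.sum_insert ha]
      have := Finset.card_union_le 𝒰 𝒱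
      have h' : ((𝒰 ∪ 𝒱).card : ℝ) ≤ 𝒰.card + 𝒱.card := by exact_mod_cast this
      linarith
    · intro U hU
      rcases Finset.mem_union.1 hU with hU | hU
      · exact h2 U hU
      · exact g2 U hU
    · intro x hx
      simp only [Finset.mem_insert, mem_iUnion, exists_prop] at hx
      obtain ⟨i, hi, hx⟩ := hx
      simp only [Finset.mem_union, mem_iUnion, exists_prop]
      rcases hi with rfl | hi
      · obtain ⟨U, hU, hxU⟩ := by simpa only [mem_iUnion, exists_prop] using h3 hx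
        exact ⟨U, Or.inl hU, hxU⟩
      · have : x ∈ ⋃ i ∈ s, E i := by
          simp only [mem_iUnion, exists_prop]; exact ⟨i, hi, hx⟩
        obtain ⟨U, hU, hxU⟩ := by simpa only [mem_iUnion, exists_prop] using g3 this
        exact ⟨U, Or.inr hU, hxU⟩

/-- Covers are transported by maps that are `L`-Lipschitz. -/
theorem HasCover.image {r K L : ℝ} {E : Set X} (h : HasCover r E K) (f : X → Y)
    (hL : 0 ≤ L) (hf : ∀ x y, dist (f x) (f y) ≤ L * dist x y) :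
    HasCover (L * r) (f '' E) K := by
  classical
  obtain ⟨𝒰, h1, h2, h3⟩ := h
  refine ⟨𝒰.image (fun U => f '' U), ?_, ?_, ?_⟩
  · refine le_trans ?_ h1
    exact_mod_cast Finset.card_image_le
  · intro U hU
    obtain ⟨V, hV, rfl⟩ := Finset.mem_image.1 hU
    rintro _ ⟨x, hx, rfl⟩ _ ⟨y, hy, rfl⟩
    exact (hf x y).trans (mul_le_mul_of_nonneg_left (h2 V hV x hx y hy) hL)
  · rintro _ ⟨x, hx, rfl⟩
    obtain ⟨U, hU, hxU⟩ := by simpa only [mem_iUnion, exists_prop] using h3 hx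
    simp only [Finset.mem_image, mem_iUnion, exists_prop]
    exact ⟨f '' U, ⟨U, hU, rfl⟩, ⟨x, hxU, rfl⟩⟩

/-- The same, restricting to a set on which the map is Lipschitz. -/
theorem HasCover.image_on {r K L : ℝ} {E : Set X} (h : HasCover r E K) (f : X → Y)
    (hL : 0 ≤ L) (hf : ∀ x ∈ E, ∀ y ∈ E, dist (f x) (f y) ≤ L * dist x y) :
    HasCover (L * r) (f '' E) K := by
  classical
  obtain ⟨𝒰, h1, h2, h3⟩ := h
  refine ⟨𝒰.image (fun U => f '' (U ∩ E)), ?_, ?_, ?_⟩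
  · refine le_trans ?_ h1
    exact_mod_cast Finset.card_image_le
  · intro U hU
    obtain ⟨V, hV, rfl⟩ := Finset.mem_image.1 hU
    rintro _ ⟨x, hx, rfl⟩ _ ⟨y, hy, rfl⟩
    exact (hf x hx.2 y hy.2).trans (mul_le_mul_of_nonneg_left (h2 V hV x hx.1 y hy.1) hL)
  · rintro _ ⟨x, hx, rfl⟩
    obtain ⟨U, hU, hxU⟩ := by simpa only [mem_iUnion, exists_prop] using h3 hx
    simp only [Finset.mem_image, mem_iUnion, exists_prop]
    exact ⟨f '' (U ∩ E), ⟨U, hU, rfl⟩, ⟨x, ⟨hxU, hx⟩, rfl⟩⟩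

/-- If `E'` is in the `t`-neighbourhood of `E` then covers of `E` give covers of `E'`. -/
theorem HasCover.nbhd {r K t : ℝ} {E E' : Set X} (h : HasCover r E K)
    (hE : ∀ x ∈ E', ∃ y ∈ E, dist x y ≤ t) : HasCover (r + 2 * t) E' K := by
  classical
  obtain ⟨𝒰, h1, h2, h3⟩ := h
  refine ⟨𝒰.image (fun U => {x | ∃ y ∈ U, dist x y ≤ t}), ?_, ?_, ?_⟩
  · refine le_trans ?_ h1
    exact_mod_cast Finset.card_image_le
  · intro U hU
    obtain ⟨V, hV, rfl⟩ := Finset.mem_image.1 hU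
    rintro x ⟨x', hx', hxx'⟩ y ⟨y', hy', hyy'⟩
    have h4 := h2 V hV x' hx' y' hy'
    have h5 := dist_triangle4 x x' y' y
    rw [dist_comm y' y] at h5
    linarith
  · intro x hx
    obtain ⟨y, hy, hxy⟩ := hE x hx
    obtain ⟨U, hU, hyU⟩ := by simpa only [mem_iUnion, exists_prop] using h3 hy
    simp only [Finset.mem_image, mem_iUnion, exists_prop]
    exact ⟨_, ⟨U, hU, rfl⟩, ⟨y, hyU, hxy⟩⟩

end basic

end CarpetM
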