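import Mathlib
import Pool.Agent.CarpetM.Cover

open MeasureTheory Filter Topology Set
open scoped ENNReal NNReal BigOperators

namespace CarpetM

/-- Covering numbers bound the Hausdorff dimension. -/
theorem dimH_le_of_hasCover {X : Type*} [MetricSpace X] {K : Set X}
    {C s : ℝ} (hs : 0 ≤ s) (h : ∀ ρ : ℝ, 0 < ρ → ρ < 1 → HasCover ρ K (C * ρ ^ (-s))) :
    dimH K ≤ ENNReal.ofReal s := by
  classical
  borelize X
  have hρ0 : ∀ n : ℕ, 0 < 1 / ((n : ℝ) + 2) := fun n => by positivity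
  have hρ1 : ∀ n : ℕ, 1 / ((n : ℝ) + 2) < 1 := fun n => by
    rw [div_lt_one (by positivity)]; have : (0 : ℝ) ≤ n := Nat.cast_nonneg n; linarith
  choose 𝒰 h1 h2 h3 using fun n : ℕ => h (1 / ((n : ℝ) + 2)) (hρ0 n) (hρ1 n)
  have key := Measure.hausdorffMeasure_le_liminf_sum (X := X) (ι := fun n => {U // U ∈ 𝒰 n})
    s K (l := atTop) (fun n : ℕ => ENNReal.ofReal (1 / ((n : ℝ) + 2))) (by
      have : Tendsto (fun n : ℕ => 1 / ((n : ℝ) + 2)) atTop (𝓝 0) := by
        have h4 : Tendsto (fun n : ℕ => (n : ℝ) + 2) atTop atTop :=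
          tendsto_atTop_add_const_right _ _ tendsto_natCast_atTop_atTop
        simp only [one_div]
        exact tendsto_inv_atTop_zero.comp h4
      have h5 := ENNReal.tendsto_ofReal this
      rwa [ENNReal.ofReal_zero] at h5) (fun n U => U.1)
    (Eventually.of_forall fun n U => by
      apply Metric.ediam_le
      intro x hx y hy
      rw [edist_dist]
      exact ENNReal.ofReal_le_ofReal (h2 n U.1 U.2 x hx y hy))
    (Eventually.of_forall fun n => by
      refine (h3 n).trans ?_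
      intro x hx
      simp only [mem_iUnion, exists_prop] at hx ⊢
      obtain ⟨U, hU, hx⟩ := hx
      exact ⟨⟨U, hU⟩, hx⟩)
  have hbound : ∀ n : ℕ, ∑ U : {U // U ∈ 𝒰 n}, Metric.ediam U.1 ^ s ≤ ENNReal.ofReal C := by
    intro n
    have h4 : ∀ U : {U // U ∈ 𝒰 n}, Metric.ediam U.1 ^ s ≤
        ENNReal.ofReal ((1 / ((n : ℝ) + 2)) ^ s) := by
      intro U
      rw [← ENNReal.ofReal_rpow_of_pos (hρ0 n)]
      apply ENNReal.rpow_le_rpow _ hs
      apply Metric.ediam_le
      intro x hx y hy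
      rw [edist_dist]
      exact ENNReal.ofReal_le_ofReal (h2 n U.1 U.2 x hx y hy)
    refine (Finset.sum_le_sum fun U _ => h4 U).trans ?_
    rw [Finset.sum_const, nsmul_eq_mul, Finset.card_univ, Fintype.card_coe,
      ← ENNReal.ofReal_natCast, ← ENNReal.ofReal_mul (Nat.cast_nonneg _)]
    apply ENNReal.ofReal_le_ofReal
    have h5 : (1 / ((n : ℝ) + 2)) ^ (-s) * (1 / ((n : ℝ) + 2)) ^ s = 1 := by
      rw [← Real.rpow_add (hρ0 n)]; simp
    calc ((𝒰 n).card : ℝ) * (1 / ((n : ℝ) + 2)) ^ s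
        ≤ (C * (1 / ((n : ℝ) + 2)) ^ (-s)) * (1 / ((n : ℝ) + 2)) ^ s := by
          gcongr
          exact h1 n
      _ = C * ((1 / ((n : ℝ) + 2)) ^ (-s) * (1 / ((n : ℝ) + 2)) ^ s) := by ring
      _ = C := by rw [h5, mul_one]
  have hfin : μH[s] K ≤ ENNReal.ofReal C := by
    refine key.trans ?_
    refine (liminf_le_liminf (Eventually.of_forall hbound)).trans ?_
    simp
  have : μH[((s.toNNReal : ℝ≥0) : ℝ)] K ≠ ∞ := by
    rw [Real.coe_toNNReal s hs]
    exact (hfin.trans_lt ENNReal.ofReal_lt_top).ne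
  exact dimH_le_of_hausdorffMeasure_ne_top this

end CarpetM
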