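import Mathlib

open MeasureTheory Filter Topology Set
open scoped ENNReal NNReal BigOperators

namespace CarpetM

section Prefix

variable {W : Type*} (X : W → ℝ) (C : ℝ)

/-- Partial sums of the address map. -/
def pre (l : ℕ) (ω : ℕ → W) : ℝ := ∑ j ∈ Finset.range l, C ^ j * X (ω j)

lemma pre_succ (l : ℕ) (ω : ℕ → W) : pre X C (l + 1) ω = pre X C l ω + C ^ l * X (ω l) := by
  simp [pre, Finset.sum_range_succ]

lemma pre_succ' (l : ℕ) (ω : ℕ → W) :
    pre X C (l + 1) ω = X (ω 0) + C * pre X C l (fun j => ω (j + 1)) := by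
  simp only [pre, Finset.sum_range_succ', Finset.mul_sum]
  rw [add_comm]
  congr 1
  · simp
  · refine Finset.sum_congr rfl fun j _ => ?_
    ring

variable {X C}

lemma pre_nonneg (hC0 : 0 < C) (hX0 : ∀ w, 0 ≤ X w) (l : ℕ) (ω : ℕ → W) :
    0 ≤ pre X C l ω :=
  Finset.sum_nonneg fun _ _ => mul_nonneg (pow_nonneg hC0.le _) (hX0 _)

lemma pre_mono (hC0 : 0 < C) (hX0 : ∀ w, 0 ≤ X w) (ω : ℕ → W) :
    Monotone (fun l => pre X C l ω) := by
  refine monotone_nat_of_le_succ fun l => ?_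
  rw [pre_succ]
  have : 0 ≤ C ^ l * X (ω l) := mul_nonneg (pow_nonneg hC0.le _) (hX0 _)
  linarith

lemma pre_anti (hC0 : 0 < C) (hX1 : ∀ w, X w + C ≤ 1) (ω : ℕ → W) :
    Antitone (fun l => pre X C l ω + C ^ l) := by
  refine antitone_nat_of_succ_le fun l => ?_
  rw [pre_succ, pow_succ]
  have h1 : 0 < C ^ l := pow_pos hC0 _
  have h2 := hX1 (ω l)
  nlinarith

lemma pre_add_le (hC0 : 0 < C) (hX1 : ∀ w, X w + C ≤ 1) (l : ℕ) (ω : ℕ → W) :
    pre X C l ω + C ^ l ≤ 1 := by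
  have := pre_anti hC0 hX1 ω (Nat.zero_le l)
  simpa [pre] using this

lemma pre_sep (hC0 : 0 < C) (hX0 : ∀ w, 0 ≤ X w) (hX1 : ∀ w, X w + C ≤ 1)
    (hXsep : ∀ w w', X w ≠ X w' → C ≤ |X w - X w'|) (l : ℕ) :
    ∀ ω ω' : ℕ → W, (∃ j, j < l ∧ X (ω j) ≠ X (ω' j)) →
      C ^ l ≤ |pre X C l ω - pre X C l ω'| := by
  induction l with
  | zero => rintro ω ω' ⟨j, hj, _⟩; omega
  | succ l ih =>
    rintro ω ω' ⟨j, hj, hne⟩
    rw [pre_succ', pre_succ']
    by_cases h0 : X (ω 0) = X (ω' 0)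
    · obtain ⟨i, rfl⟩ : ∃ i, j = i + 1 := by
        cases j with
        | zero => exact absurd h0 hne
        | succ i => exact ⟨i, rfl⟩
      have h1 := ih (fun j => ω (j + 1)) (fun j => ω' (j + 1)) ⟨i, by omega, hne⟩
      rw [h0]
      have h2 : X (ω' 0) + C * pre X C l (fun j => ω (j + 1)) -
          (X (ω' 0) + C * pre X C l (fun j => ω' (j + 1))) =
          C * (pre X C l (fun j => ω (j + 1)) - pre X C l (fun j => ω' (j + 1))) := by ring
      rw [h2, abs_mul, abs_of_pos hC0, pow_succ']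
      exact mul_le_mul_of_nonneg_left h1 hC0.le
    · have h1 := hXsep _ _ h0
      have h2 := pre_nonneg hC0 hX0 l (fun j => ω (j + 1))
      have h3 := pre_nonneg hC0 hX0 l (fun j => ω' (j + 1))
      have h4 := pre_add_le hC0 hX1 l (fun j => ω (j + 1))
      have h5 := pre_add_le hC0 hX1 l (fun j => ω' (j + 1))
      set a := pre X C l (fun j => ω (j + 1))
      set b := pre X C l (fun j => ω' (j + 1))
      have h6 : |C * (a - b)| ≤ C * (1 - C ^ l) := by
        rw [abs_mul, abs_of_pos hC0]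
        refine mul_le_mul_of_nonneg_left ?_ hC0.le
        rw [abs_le]
        constructor <;> linarith
      have h7 : X (ω 0) + C * a - (X (ω' 0) + C * b) = (X (ω 0) - X (ω' 0)) + C * (a - b) := by
        ring
      rw [h7]
      have h8 : |X (ω 0) - X (ω' 0)| - |C * (a - b)| ≤
          |(X (ω 0) - X (ω' 0)) + C * (a - b)| := by
        have := abs_sub_abs_le_abs_sub (X (ω 0) - X (ω' 0)) (-(C * (a - b)))
        rw [abs_neg, sub_neg_eq_add] at this
        exact this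
      have h9 : C ^ (l + 1) = C - C * (1 - C ^ l) := by ring
      rw [h9]
      linarith

variable (X C)

/-- The address map. -/
noncomputable def adr (ω : ℕ → W) : ℝ := ⨆ l, pre X C l ω

variable {X C}

lemma pre_bdd (hC0 : 0 < C) (hX1 : ∀ w, X w + C ≤ 1) (ω : ℕ → W) :
    BddAbove (range fun l => pre X C l ω) := by
  refine ⟨1, ?_⟩
  rintro _ ⟨l, rfl⟩
  have h1 := pre_add_le hC0 hX1 l ω
  have h2 : 0 < C ^ l := pow_pos hC0 _
  simp only
  linarith

lemma tendsto_pre (hC0 : 0 < C) (hX0 : ∀ w, 0 ≤ X w) (hX1 : ∀ w, X w + C ≤ 1) (ω : ℕ → W) :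
    Tendsto (fun l => pre X C l ω) atTop (𝓝 (adr X C ω)) :=
  tendsto_atTop_ciSup (pre_mono hC0 hX0 ω) (pre_bdd hC0 hX1 ω)

lemma pre_le_adr (hC0 : 0 < C) (hX1 : ∀ w, X w + C ≤ 1) (l : ℕ) (ω : ℕ → W) :
    pre X C l ω ≤ adr X C ω := le_ciSup (pre_bdd hC0 hX1 ω) l

lemma adr_le (hC0 : 0 < C) (hX0 : ∀ w, 0 ≤ X w) (hX1 : ∀ w, X w + C ≤ 1) (l : ℕ)
    (ω : ℕ → W) : adr X C ω ≤ pre X C l ω + C ^ l := by
  refine ciSup_le fun m => ?_
  rcases le_total l m with h | h
  · have h1 := pre_anti hC0 hX1 ω h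
    have h2 : 0 < C ^ m := pow_pos hC0 _
    simp only at h1
    linarith
  · have h1 := pre_mono hC0 hX0 ω h
    have h2 : 0 < C ^ l := pow_pos hC0 _
    simp only at h1
    linarith

/-- Code of a sequence near `p`. -/
noncomputable def code (X : W → ℝ) (C : ℝ) (l : ℕ) (p : ℝ) (ω : ℕ → W) : ℕ :=
  ⌊(pre X C l ω - (p - 2 * C ^ l)) / C ^ l⌋₊

lemma code_arg (hC0 : 0 < C) (hX0 : ∀ w, 0 ≤ X w) (hX1 : ∀ w, X w + C ≤ 1) (l : ℕ) {p ρ : ℝ}
    (hρ : ρ ≤ C ^ l) {ω : ℕ → W} (h : |adr X C ω - p| ≤ ρ) :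
    0 ≤ (pre X C l ω - (p - 2 * C ^ l)) / C ^ l ∧
      (pre X C l ω - (p - 2 * C ^ l)) / C ^ l ≤ 3 := by
  have h1 := pre_le_adr hC0 hX1 l ω
  have h2 := adr_le hC0 hX0 hX1 l ω
  have h3 : 0 < C ^ l := pow_pos hC0 _
  rw [abs_le] at h
  constructor
  · apply div_nonneg _ h3.le
    linarith
  · rw [div_le_iff₀ h3]
    linarith

lemma code_lt (hC0 : 0 < C) (hX0 : ∀ w, 0 ≤ X w) (hX1 : ∀ w, X w + C ≤ 1) (l : ℕ) {p ρ : ℝ}
    (hρ : ρ ≤ C ^ l) {ω : ℕ → W} (h : |adr X C ω - p| ≤ ρ) : code X C l p ω < 4 := by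
  obtain ⟨h1, h2⟩ := code_arg hC0 hX0 hX1 l hρ h
  unfold code
  rw [Nat.floor_lt h1]
  push_cast
  linarith

lemma code_inj (hC0 : 0 < C) (hX0 : ∀ w, 0 ≤ X w) (hX1 : ∀ w, X w + C ≤ 1)
    (hXsep : ∀ w w', X w ≠ X w' → C ≤ |X w - X w'|) (l : ℕ) {p ρ : ℝ}
    (hρ : ρ ≤ C ^ l) {ω ω' : ℕ → W} (h : |adr X C ω - p| ≤ ρ) (h' : |adr X C ω' - p| ≤ ρ)
    (hc : code X C l p ω = code X C l p ω') (j : ℕ) (hj : j < l) : X (ω j) = X (ω' j) := by
  by_contra hne
  have h1 := pre_sep hC0 hX0 hX1 hXsep l ω ω' ⟨j, hj, hne⟩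
  have h3 : 0 < C ^ l := pow_pos hC0 _
  obtain ⟨ha1, _⟩ := code_arg hC0 hX0 hX1 l hρ h
  obtain ⟨hb1, _⟩ := code_arg hC0 hX0 hX1 l hρ h'
  set a := (pre X C l ω - (p - 2 * C ^ l)) / C ^ l with ha
  set b := (pre X C l ω' - (p - 2 * C ^ l)) / C ^ l with hb
  have hab : pre X C l ω - pre X C l ω' = (a - b) * C ^ l := by
    rw [ha, hb, ← sub_div, div_mul_cancel₀ _ h3.ne']
    ring
  have hfl : ⌊a⌋₊ = ⌊b⌋₊ := hc
  have e1 := Nat.floor_le ha1
  have e2 := Nat.lt_floor_add_one a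
  have e3 := Nat.floor_le hb1
  have e4 := Nat.lt_floor_add_one b
  rw [hfl] at e1 e2
  have h4 : |a - b| < 1 := by
    rw [abs_lt]
    constructor <;> linarith
  rw [hab, abs_mul, abs_of_pos h3] at h1
  nlinarith

end Prefix

lemma pow_inv_le {B C ρ : ℝ} (hB : 1 ≤ B) (hC0 : 0 < C) (hC1 : C < 1) {l : ℕ}
    (hl : C ^ (l + 1) < ρ) :
    (B⁻¹) ^ l ≤ B * ρ ^ (Real.log B / (-Real.log C)) := by
  have hB0 : 0 < B := by linarith
  have hlogB : 0 ≤ Real.log B := Real.log_nonneg hB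
  have hlogC : 0 < -Real.log C := by
    have := Real.log_neg hC0 hC1
    linarith
  have hpos : 0 < C ^ (l + 1) := pow_pos hC0 _
  have h1 : (C ^ (l + 1)) ^ (Real.log B / (-Real.log C)) ≤
      ρ ^ (Real.log B / (-Real.log C)) :=
    Real.rpow_le_rpow hpos.le hl.le (div_nonneg hlogB hlogC.le)
  have h2 : (C ^ (l + 1)) ^ (Real.log B / (-Real.log C)) = (B⁻¹) ^ (l + 1) := by
    rw [Real.rpow_def_of_pos hpos, Real.log_pow]
    have e : ((l + 1 : ℕ) : ℝ) * Real.log C * (Real.log B / (-Real.log C)) =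
        ((l + 1 : ℕ) : ℝ) * Real.log B⁻¹ := by
      have hne : Real.log C ≠ 0 := by linarith
      rw [Real.log_inv]
      field_simp
    rw [e, ← Real.log_pow, Real.exp_log (by positivity)]
  rw [h2] at h1
  calc (B⁻¹) ^ l = B * (B⁻¹) ^ (l + 1) := by
        rw [pow_succ]
        field_simp
    _ ≤ _ := mul_le_mul_of_nonneg_left h1 hB0.le

/-- Task H. -/
theorem homog_dimH {W : Type*} [Fintype W] [Nonempty W]
    (X Y : W → ℝ) {C D : ℝ} (hC0 : 0 < C) (hC1 : C < 1) (hD0 : 0 < D) (hD1 : D < 1)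
    (hX0 : ∀ w, 0 ≤ X w) (hX1 : ∀ w, X w + C ≤ 1)
    (hY0 : ∀ w, 0 ≤ Y w) (hY1 : ∀ w, Y w + D ≤ 1)
    (hXsep : ∀ w w', X w ≠ X w' → C ≤ |X w - X w'|)
    (hYsep : ∀ w w', Y w ≠ Y w' → D ≤ |Y w - Y w'|)
    (hinj : ∀ w w', X w = X w' → Y w = Y w' → w = w')
    {M : ℝ} (hM : 1 ≤ M)
    (hfib : ∀ w, (Nat.card {w' // X w' = X w} : ℝ) * M ≤ Fintype.card W)
    (K : Set (ℝ × ℝ)) (hK : IsCompact K) (hKne : K.Nonempty)
    (hKinv : ∀ w, ∀ p ∈ K, (C * p.1 + X w, D * p.2 + Y w) ∈ K) :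
    ENNReal.ofReal (Real.log M / (-Real.log C) +
      (Real.log (Fintype.card W) - Real.log M) / (-Real.log (min C D))) ≤ dimH K := by
  classical
  set N : ℝ := (Fintype.card W : ℝ) with hN
  have hNpos : 0 < N := by rw [hN]; exact_mod_cast Fintype.card_pos
  have hM0 : 0 < M := by linarith
  set D' := min C D with hD'
  have hD'0 : 0 < D' := lt_min hC0 hD0
  have hD'1 : D' < 1 := lt_of_le_of_lt (min_le_left _ _) hC1
  have hMN : M ≤ N := by
    obtain ⟨w⟩ := ‹Nonempty W›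
    have h1 := hfib w
    have h2 : (1 : ℝ) ≤ Nat.card {w' // X w' = X w} := by
      have : 0 < Nat.card {w' // X w' = X w} := by
        have : Nonempty {w' // X w' = X w} := ⟨⟨w, rfl⟩⟩
        exact Nat.card_pos
      exact_mod_cast this
    nlinarith
  set s := Real.log M / (-Real.log C) + (Real.log N - Real.log M) / (-Real.log D') with hs
  rcases le_or_gt s 0 with hs0 | hs0
  · rw [ENNReal.ofReal_of_nonpos hs0]
    exact bot_le
  -- the measure on sequences
  let _ : MeasurableSpace W := ⊤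
  have : MeasurableSingletonClass W := ⟨fun _ => trivial⟩
  let ν : Measure W := (Fintype.card W : ℝ≥0∞)⁻¹ • Measure.count
  have hcard0 : (Fintype.card W : ℝ≥0∞) ≠ 0 := by
    simp
  have hcardtop : (Fintype.card W : ℝ≥0∞) ≠ ⊤ := ENNReal.natCast_ne_top _
  have hν : ∀ A : Set W, ν A = ENNReal.ofReal ((Nat.card A : ℝ) / N) := by
    intro A
    have h1 : Measure.count A = (Nat.card A : ℝ≥0∞) := by
      rw [Measure.count_apply_finite' (Set.toFinite A) MeasurableSpace.measurableSet_top,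
        Nat.card_coe_set_eq, Set.ncard_eq_toFinset_card A (Set.toFinite A)]
    change (Fintype.card W : ℝ≥0∞)⁻¹ * Measure.count A = _
    rw [h1, ENNReal.ofReal_div_of_pos hNpos, hN, ENNReal.ofReal_natCast, ENNReal.ofReal_natCast,
      ENNReal.div_eq_inv_mul]
  have : IsProbabilityMeasure ν := by
    refine ⟨?_⟩
    rw [hν]
    have : (Nat.card (univ : Set W) : ℝ) = N := by
      rw [Nat.card_coe_set_eq, Set.ncard_univ, Nat.card_eq_fintype_card]
    rw [this, div_self hNpos.ne', ENNReal.ofReal_one]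
  let μ : Measure (ℕ → W) := Measure.infinitePi (fun _ : ℕ => ν)
  have : IsProbabilityMeasure μ := by
    change IsProbabilityMeasure (Measure.infinitePi (fun _ : ℕ => ν))
    infer_instance
  let π : (ℕ → W) → ℝ × ℝ := fun ω => (adr X C ω, adr Y D ω)
  have hmeas1 : ∀ (Z : W → ℝ) (B : ℝ) (_ : 0 < B) (_ : ∀ w, 0 ≤ Z w) (_ : ∀ w, Z w + B ≤ 1),
      Measurable (adr Z B) := by
    intro Z B hB0 hZ0 hZ1
    refine measurable_of_tendsto_metrizable (f := fun l ω => pre Z B l ω) (fun l => ?_) ?_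
    · unfold pre
      refine Finset.measurable_sum _ fun j _ => ?_
      refine Measurable.const_mul ?_ _
      exact (measurable_from_top).comp (measurable_pi_apply j)
    · rw [tendsto_pi_nhds]
      exact fun ω => tendsto_pre hB0 hZ0 hZ1 ω
  have hπm : Measurable π := (hmeas1 X C hC0 hX0 hX1).prodMk (hmeas1 Y D hD0 hY0 hY1)
  -- the image lies in K
  have hπK : ∀ ω, π ω ∈ K := by
    intro ω
    obtain ⟨p, hp⟩ := hKne
    have h1 : ∀ n : ℕ, ∀ p ∈ K, (C ^ n * p.1 + pre X C n ω, D ^ n * p.2 + pre Y D n ω) ∈ K := by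
      intro n
      induction n with
      | zero => intro p hp; simpa [pre] using hp
      | succ n ih =>
        intro p hp
        have h2 := ih _ (hKinv (ω n) p hp)
        have e1 : C ^ (n + 1) * p.1 + pre X C (n + 1) ω =
            C ^ n * (C * p.1 + X (ω n)) + pre X C n ω := by
          rw [pre_succ]; ring
        have e2 : D ^ (n + 1) * p.2 + pre Y D (n + 1) ω =
            D ^ n * (D * p.2 + Y (ω n)) + pre Y D n ω := by
          rw [pre_succ]; ring
        rw [e1, e2]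
        exact h2
    refine hK.isClosed.mem_of_tendsto (b := atTop)
      (f := fun n : ℕ => (C ^ n * p.1 + pre X C n ω, D ^ n * p.2 + pre Y D n ω)) ?_
      (Eventually.of_forall fun n => h1 n p hp)
    have t1 : Tendsto (fun n : ℕ => C ^ n * p.1 + pre X C n ω) atTop (𝓝 (adr X C ω)) := by
      have := ((tendsto_pow_atTop_nhds_zero_of_lt_one hC0.le hC1).mul_const p.1).add
        (tendsto_pre hC0 hX0 hX1 ω)
      simpa using this
    have t2 : Tendsto (fun n : ℕ => D ^ n * p.2 + pre Y D n ω) atTop (𝓝 (adr Y D ω)) := by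
      have := ((tendsto_pow_atTop_nhds_zero_of_lt_one hD0.le hD1).mul_const p.2).add
        (tendsto_pre hD0 hY0 hY1 ω)
      simpa using this
    exact t1.prodMk_nhds t2
  -- cylinders
  have hcyl : ∀ (k l : ℕ) (_ : k ≤ l) (ω' : ℕ → W),
      μ {ω | (∀ j, j < l → X (ω j) = X (ω' j)) ∧ ∀ j, j < k → Y (ω j) = Y (ω' j)} ≤
        ENNReal.ofReal ((N⁻¹) ^ k * (M⁻¹) ^ (l - k)) := by
    intro k l hkl ω'
    let t : ℕ → Set W := fun j => {w | X w = X (ω' j) ∧ (j < k → Y w = Y (ω' j))}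
    have h1 : {ω : ℕ → W | (∀ j, j < l → X (ω j) = X (ω' j)) ∧
        ∀ j, j < k → Y (ω j) = Y (ω' j)} = Set.pi (Finset.range l : Finset ℕ) t := by
      ext ω
      simp only [Set.mem_ofPred_eq, Set.mem_pi, Finset.coe_range, Set.mem_Iio, t]
      constructor
      · rintro ⟨h1, h2⟩ j hj
        exact ⟨h1 j hj, h2 j⟩
      · intro h
        exact ⟨fun j hj => (h j hj).1, fun j hj => (h j (by omega)).2 hj⟩
    rw [h1]
    change (Measure.infinitePi (fun _ : ℕ => ν)) _ ≤ _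
    rw [Measure.infinitePi_pi _ (fun j _ => MeasurableSpace.measurableSet_top)]
    have h2 : ∀ j ∈ Finset.range l, ν (t j) ≤
        ENNReal.ofReal (if j < k then N⁻¹ else M⁻¹) := by
      intro j _
      rw [hν]
      apply ENNReal.ofReal_le_ofReal
      by_cases hj : j < k
      · rw [if_pos hj]
        have h3 : Nat.card (t j) ≤ 1 := by
          rw [Finite.card_le_one_iff_subsingleton]
          refine ⟨?_⟩
          rintro ⟨a, ha1, ha2⟩ ⟨b, hb1, hb2⟩
          exact Subtype.ext (hinj a b (ha1.trans hb1.symm) ((ha2 hj).trans (hb2 hj).symm))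
        have h4 : (Nat.card (t j) : ℝ) ≤ 1 := by exact_mod_cast h3
        rw [div_eq_mul_inv]
        have : 0 < N⁻¹ := inv_pos.2 hNpos
        nlinarith
      · rw [if_neg hj]
        have h3 : (Nat.card (t j) : ℝ) * M ≤ N := by
          refine le_trans ?_ (hfib (ω' j))
          refine mul_le_mul_of_nonneg_right ?_ hM0.le
          have : Nat.card (t j) ≤ Nat.card {w' // X w' = X (ω' j)} := by
            refine Nat.card_mono (Set.toFinite _) ?_
            intro a ha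
            exact ha.1
          exact_mod_cast this
        rw [div_le_iff₀ hNpos, inv_mul_eq_div, le_div_iff₀ hM0]
        exact h3
    refine le_trans (Finset.prod_le_prod' h2) ?_
    rw [← ENNReal.ofReal_prod_of_nonneg]
    · apply ENNReal.ofReal_le_ofReal
      have h3 : ∏ j ∈ Finset.range l, (if j < k then N⁻¹ else M⁻¹) =
          (N⁻¹) ^ k * (M⁻¹) ^ (l - k) := by
        obtain ⟨r, rfl⟩ := Nat.exists_eq_add_of_le hkl
        rw [Finset.prod_range_add]
        congr 1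
        · rw [Finset.prod_congr rfl (g := fun _ => N⁻¹)]
          · simp
          · intro j hj
            rw [Finset.mem_range] at hj
            rw [if_pos hj]
        · rw [Finset.prod_congr rfl (g := fun _ => M⁻¹)]
          · simp
          · intro j _
            rw [if_neg (by omega)]
      rw [h3]
    · intro j _
      split_ifs
      · exact (inv_pos.2 hNpos).le
      · exact (inv_pos.2 hM0).le
  -- small sets
  have hsmall : ∀ (E : Set (ℝ × ℝ)) (ρ : ℝ), 0 < ρ → ρ ≤ 1 →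
      (∀ p ∈ E, ∀ q ∈ E, |p.1 - q.1| ≤ ρ ∧ |p.2 - q.2| ≤ ρ) →
      μ (π ⁻¹' E) ≤ ENNReal.ofReal (16 * N * ρ ^ s) := by
    intro E ρ hρ0 hρ1 hE
    rcases Set.eq_empty_or_nonempty (π ⁻¹' E) with he | ⟨ω0, hω0⟩
    · rw [he]; simp
    obtain ⟨l, hl1, hl2⟩ := exists_nat_pow_near_of_lt_one hρ0 hρ1 hC0 hC1
    obtain ⟨k, hk1, hk2⟩ := exists_nat_pow_near_of_lt_one hρ0 hρ1 hD'0 hD'1
    have hkl : k ≤ l := by
      by_contra hcon
      push Not at hcon
      have h1 : D' ^ k ≤ D' ^ (l + 1) := pow_le_pow_of_le_one hD'0.le hD'1.le hcon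
      have h2 : D' ^ (l + 1) ≤ C ^ (l + 1) := pow_le_pow_left₀ hD'0.le (min_le_left _ _) _
      linarith
    have hk3 : ρ ≤ D ^ k := le_trans hk2 (pow_le_pow_left₀ hD'0.le (min_le_right _ _) _)
    set p0 := π ω0 with hp0
    have hx : ∀ ω ∈ π ⁻¹' E, |adr X C ω - p0.1| ≤ ρ := fun ω hω => (hE _ hω _ hω0).1
    have hy : ∀ ω ∈ π ⁻¹' E, |adr Y D ω - p0.2| ≤ ρ := fun ω hω => (hE _ hω _ hω0).2
    let T : ℕ × ℕ → Set (ℕ → W) := fun i =>
      {ω | ω ∈ π ⁻¹' E ∧ code X C l p0.1 ω = i.1 ∧ code Y D k p0.2 ω = i.2}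
    have hcov : π ⁻¹' E ⊆ ⋃ i ∈ (Finset.range 4 ×ˢ Finset.range 4), T i := by
      intro ω hω
      simp only [Set.mem_iUnion]
      refine ⟨(code X C l p0.1 ω, code Y D k p0.2 ω), ?_, hω, rfl, rfl⟩
      rw [Finset.mem_product, Finset.mem_range, Finset.mem_range]
      exact ⟨code_lt hC0 hX0 hX1 l hl2 (hx ω hω), code_lt hD0 hY0 hY1 k hk3 (hy ω hω)⟩
    have hT : ∀ i ∈ (Finset.range 4 ×ˢ Finset.range 4),
        μ (T i) ≤ ENNReal.ofReal ((N⁻¹) ^ k * (M⁻¹) ^ (l - k)) := by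
      intro i _
      rcases Set.eq_empty_or_nonempty (T i) with he | ⟨ω', hω'⟩
      · rw [he]; simp
      · refine le_trans (measure_mono ?_) (hcyl k l hkl ω')
        intro ω hω
        refine ⟨fun j hj => ?_, fun j hj => ?_⟩
        · exact code_inj hC0 hX0 hX1 hXsep l hl2 (hx ω hω.1) (hx ω' hω'.1)
            (hω.2.1.trans hω'.2.1.symm) j hj
        · exact code_inj hD0 hY0 hY1 hYsep k hk3 (hy ω hω.1) (hy ω' hω'.1)
            (hω.2.2.trans hω'.2.2.symm) j hj
    have h1 : μ (π ⁻¹' E) ≤ ∑ i ∈ (Finset.range 4 ×ˢ Finset.range 4), μ (T i) :=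
      le_trans (measure_mono hcov) (measure_biUnion_finset_le _ _)
    refine le_trans h1 (le_trans (Finset.sum_le_sum hT) ?_)
    rw [Finset.sum_const, Finset.card_product, Finset.card_range, nsmul_eq_mul]
    have h2 : (((4 * 4 : ℕ) : ℝ≥0∞)) * ENNReal.ofReal ((N⁻¹) ^ k * (M⁻¹) ^ (l - k)) =
        ENNReal.ofReal (16 * ((N⁻¹) ^ k * (M⁻¹) ^ (l - k))) := by
      rw [ENNReal.ofReal_mul (show (0 : ℝ) ≤ 16 by norm_num)]
      have h16 : (((4 * 4 : ℕ) : ℝ≥0∞)) = ENNReal.ofReal 16 := by norm_num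
      rw [h16]
    rw [h2]
    apply ENNReal.ofReal_le_ofReal
    have hNM : 1 ≤ N / M := by rw [le_div_iff₀ hM0]; linarith
    have h3 := pow_inv_le hM hC0 hC1 hl1
    have h4 := pow_inv_le hNM hD'0 hD'1 hk1
    have h5 : Real.log (N / M) = Real.log N - Real.log M :=
      Real.log_div hNpos.ne' hM0.ne'
    rw [h5] at h4
    have h6 : (N⁻¹) ^ k * (M⁻¹) ^ (l - k) = ((N / M)⁻¹) ^ k * (M⁻¹) ^ l := by
      obtain ⟨r, rfl⟩ := Nat.exists_eq_add_of_le hkl
      rw [Nat.add_sub_cancel_left, pow_add, inv_div, div_pow, ← mul_assoc]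
      congr 1
      rw [inv_pow, inv_pow]
      field_simp
    have h7 : ρ ^ s = ρ ^ (Real.log M / (-Real.log C)) *
        ρ ^ ((Real.log N - Real.log M) / (-Real.log D')) := by
      rw [hs, Real.rpow_add hρ0]
    rw [h6, h7]
    have h8 : ((N / M)⁻¹) ^ k * (M⁻¹) ^ l ≤
        ((N / M) * ρ ^ ((Real.log N - Real.log M) / (-Real.log D'))) *
          (M * ρ ^ (Real.log M / (-Real.log C))) :=
      mul_le_mul h4 h3 (by positivity) (by positivity)
    have h9 : ((N / M) * ρ ^ ((Real.log N - Real.log M) / (-Real.log D'))) *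
          (M * ρ ^ (Real.log M / (-Real.log C))) =
        N * (ρ ^ (Real.log M / (-Real.log C)) *
        ρ ^ ((Real.log N - Real.log M) / (-Real.log D'))) := by
      field_simp
    rw [h9] at h8
    linarith
  -- mass distribution
  have hmass : (ENNReal.ofReal (16 * N)⁻¹) • (μ.map π) ≤ μH[s] := by
    refine Measure.le_hausdorffMeasure s _ (ENNReal.ofReal 1) (by simp) ?_
    intro E hEd
    have h1 : (μ.map π) E ≤ μ (π ⁻¹' (closure E)) := by
      rw [← Measure.map_apply hπm isClosed_closure.measurableSet]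
      exact measure_mono subset_closure
    set δ := Metric.ediam E with hδ
    have hδtop : δ ≠ ⊤ := ne_top_of_le_ne_top ENNReal.ofReal_ne_top hEd
    have hdist : ∀ p ∈ closure E, ∀ q ∈ closure E,
        |p.1 - q.1| ≤ δ.toReal ∧ |p.2 - q.2| ≤ δ.toReal := by
      intro p hp q hq
      have h2 : edist p q ≤ δ := by
        rw [hδ, ← Metric.ediam_closure]
        exact Metric.edist_le_ediam_of_mem hp hq
      have h3 : dist p q ≤ δ.toReal := by
        rw [← ENNReal.ofReal_le_iff_le_toReal hδtop, ← edist_dist]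
        exact h2
      rw [Prod.dist_eq, Real.dist_eq, Real.dist_eq] at h3
      exact ⟨le_trans (le_max_left _ _) h3, le_trans (le_max_right _ _) h3⟩
    have hδ1 : δ.toReal ≤ 1 := by
      have := ENNReal.toReal_mono ENNReal.ofReal_ne_top hEd
      simpa using this
    change ENNReal.ofReal (16 * N)⁻¹ * (μ.map π) E ≤ δ ^ s
    rcases eq_or_ne δ 0 with h0 | h0
    · have h2 : ∀ ρ : ℝ, 0 < ρ → ρ ≤ 1 → μ (π ⁻¹' (closure E)) ≤
          ENNReal.ofReal (16 * N * ρ ^ s) := by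
        intro ρ hρ0 hρ1
        refine hsmall _ ρ hρ0 hρ1 fun p hp q hq => ?_
        have := hdist p hp q hq
        rw [h0, ENNReal.toReal_zero] at this
        exact ⟨this.1.trans hρ0.le, this.2.trans hρ0.le⟩
      have h3 : μ (π ⁻¹' (closure E)) ≤ 0 := by
        have ht : Tendsto (fun ρ : ℝ => ENNReal.ofReal (16 * N * ρ ^ s)) (𝓝[>] 0) (𝓝 0) := by
          have h4 : Tendsto (fun ρ : ℝ => ρ ^ s) (𝓝[>] 0) (𝓝 0) := by
            have h5 : ContinuousAt (fun ρ : ℝ => ρ ^ s) 0 :=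
              Real.continuousAt_rpow_const 0 s (Or.inr hs0.le)
            have h6 := h5.tendsto
            rw [Real.zero_rpow hs0.ne'] at h6
            exact h6.mono_left nhdsWithin_le_nhds
          have h5 : Tendsto (fun ρ : ℝ => 16 * N * ρ ^ s) (𝓝[>] 0) (𝓝 0) := by
            simpa using h4.const_mul (16 * N)
          have h6 := ENNReal.tendsto_ofReal h5
          simpa using h6
        refine ge_of_tendsto ht ?_
        filter_upwards [Ioo_mem_nhdsGT (show (0 : ℝ) < 1 by norm_num)] with ρ hρ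
        exact h2 ρ hρ.1 hρ.2.le
      have h4 : (μ.map π) E = 0 := le_antisymm (h1.trans h3) bot_le
      rw [h4, mul_zero]
      exact bot_le
    · have hδpos : 0 < δ.toReal := ENNReal.toReal_pos h0 hδtop
      have h2 := hsmall (closure E) δ.toReal hδpos hδ1 hdist
      have h3 : δ ^ s = ENNReal.ofReal (δ.toReal ^ s) := by
        rw [← ENNReal.ofReal_rpow_of_pos hδpos, ENNReal.ofReal_toReal hδtop]
      rw [h3]
      calc ENNReal.ofReal (16 * N)⁻¹ * (μ.map π) E
          ≤ ENNReal.ofReal (16 * N)⁻¹ * ENNReal.ofReal (16 * N * δ.toReal ^ s) := by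
            gcongr
            exact h1.trans h2
        _ = ENNReal.ofReal (δ.toReal ^ s) := by
            rw [← ENNReal.ofReal_mul (by positivity)]
            congr 1
            field_simp
  have hpos : μH[s] K ≠ 0 := by
    intro h0
    have h1 := hmass K
    rw [h0] at h1
    have h2 : (μ.map π) K = 1 := by
      rw [Measure.map_apply hπm hK.isClosed.measurableSet]
      have : π ⁻¹' K = univ := by
        ext ω
        simp [hπK ω]
      rw [this, measure_univ]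
    have h3 : ((ENNReal.ofReal (16 * N)⁻¹) • (μ.map π)) K = ENNReal.ofReal (16 * N)⁻¹ := by
      change ENNReal.ofReal (16 * N)⁻¹ * (μ.map π) K = _
      rw [h2, mul_one]
    rw [h3] at h1
    have h4 : 0 < ENNReal.ofReal (16 * N)⁻¹ := by
      rw [ENNReal.ofReal_pos]
      positivity
    exact absurd h1 (not_le.2 h4)
  have hfin := le_dimH_of_hausdorffMeasure_ne_zero (s := K) (d := Real.toNNReal s) (by
    rw [Real.coe_toNNReal s hs0.le]
    exact hpos)
  exact hfin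

end CarpetM
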