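import Mathlib
import Pool.Agent.CarpetM.Cover

open MeasureTheory Filter Topology Set
open scoped ENNReal NNReal BigOperators

namespace CarpetM

/-- A grid-type self-affine system. -/
structure Sys (α β : Type*) where
  c : α → ℝ
  u : α → ℝ
  d : β → ℝ
  v : β → ℝ
  I : Finset (α × β)
  hc0 : ∀ a, 0 < c a
  hc1 : ∀ a, c a < 1
  hu0 : ∀ a, 0 ≤ u a
  hu1 : ∀ a, u a + c a ≤ 1
  hu : ∀ a a', a ≠ a' → u a + c a ≤ u a' ∨ u a' + c a' ≤ u a
  hd0 : ∀ b, 0 < d b
  hd1 : ∀ b, d b < 1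
  hv0 : ∀ b, 0 ≤ v b
  hv1 : ∀ b, v b + d b ≤ 1
  hv : ∀ b b', b ≠ b' → v b + d b ≤ v b' ∨ v b' + d b' ≤ v b
  hI : I.Nonempty

namespace Sys

variable {α β : Type*} (S : Sys α β)

/-- The affine map of index `i`. -/
def map (i : α × β) (p : ℝ × ℝ) : ℝ × ℝ := (S.c i.1 * p.1 + S.u i.1, S.d i.2 * p.2 + S.v i.2)

/-- The transposed system. -/
def swap : Sys β α where
  c := S.d
  u := S.v
  d := S.c
  v := S.u
  I := S.I.map (Equiv.prodComm α β).toEmbedding
  hc0 := S.hd0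
  hc1 := S.hd1
  hu0 := S.hv0
  hu1 := S.hv1
  hu := S.hv
  hd0 := S.hc0
  hd1 := S.hc1
  hv0 := S.hu0
  hv1 := S.hu1
  hv := S.hu
  hI := S.hI.map

theorem mem_swap_I (b : β) (a : α) : (b, a) ∈ S.swap.I ↔ (a, b) ∈ S.I := by
  simp [swap]

/-- `F` is the attractor. -/
structure IsAttr (F : Set (ℝ × ℝ)) : Prop where
  compact : IsCompact F
  nonempty : F.Nonempty
  mem01 : ∀ p ∈ F, (0 ≤ p.1 ∧ p.1 ≤ 1) ∧ (0 ≤ p.2 ∧ p.2 ≤ 1)
  inv : ∀ i ∈ S.I, ∀ p ∈ F, S.map i p ∈ F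
  dec : ∀ p ∈ F, ∃ i ∈ S.I, ∃ q ∈ F, S.map i q = p

theorem map_injective (i : α × β) : Function.Injective (S.map i) := by
  intro p q h
  have h1 : S.c i.1 * p.1 + S.u i.1 = S.c i.1 * q.1 + S.u i.1 := congrArg Prod.fst h
  have h2 : S.d i.2 * p.2 + S.v i.2 = S.d i.2 * q.2 + S.v i.2 := congrArg Prod.snd h
  have hc := (S.hc0 i.1).ne'
  have hd := (S.hd0 i.2).ne'
  ext
  · exact mul_left_cancel₀ hc (by linarith)
  · exact mul_left_cancel₀ hd (by linarith)

theorem map_continuous (i : α × β) : Continuous (S.map i) := by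
  unfold map
  fun_prop

theorem map_mem01 (i : α × β) {p : ℝ × ℝ} (hp : (0 ≤ p.1 ∧ p.1 ≤ 1) ∧ (0 ≤ p.2 ∧ p.2 ≤ 1)) :
    (0 ≤ (S.map i p).1 ∧ (S.map i p).1 ≤ 1) ∧ (0 ≤ (S.map i p).2 ∧ (S.map i p).2 ≤ 1) := by
  obtain ⟨⟨h1, h2⟩, ⟨h3, h4⟩⟩ := hp
  have hc := S.hc0 i.1
  have hd := S.hd0 i.2
  have hu0 := S.hu0 i.1
  have hu1 := S.hu1 i.1
  have hv0 := S.hv0 i.2
  have hv1 := S.hv1 i.2
  simp only [map]
  refine ⟨⟨by positivity, by nlinarith⟩, ⟨by positivity, by nlinarith⟩⟩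

/-- The approximating sets. -/
def approx : ℕ → Set (ℝ × ℝ)
  | 0 => Icc 0 1 ×ˢ Icc 0 1
  | n + 1 => ⋃ i ∈ S.I, S.map i '' approx n

theorem approx_compact (n : ℕ) : IsCompact (S.approx n) := by
  induction n with
  | zero => exact isCompact_Icc.prod isCompact_Icc
  | succ n ih =>
    exact S.I.finite_toSet.isCompact_biUnion fun i _ => ih.image (S.map_continuous i)

theorem approx_nonempty (n : ℕ) : (S.approx n).Nonempty := by
  induction n with
  | zero => exact ⟨(0, 0), by simp [approx]⟩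
  | succ n ih =>
    obtain ⟨i, hi⟩ := S.hI
    obtain ⟨p, hp⟩ := ih
    exact ⟨S.map i p, by simp only [approx, mem_iUnion]; exact ⟨i, hi, p, hp, rfl⟩⟩

theorem approx_antitone_succ (n : ℕ) : S.approx (n + 1) ⊆ S.approx n := by
  induction n with
  | zero =>
    intro p hp
    simp only [approx, mem_iUnion] at hp
    obtain ⟨i, hi, q, hq, rfl⟩ := hp
    have hq' : (0 ≤ q.1 ∧ q.1 ≤ 1) ∧ (0 ≤ q.2 ∧ q.2 ≤ 1) := by
      simpa only [mem_prod, mem_Icc] using hq
    simpa only [approx, mem_prod, mem_Icc] using S.map_mem01 i hq'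
  | succ n ih =>
    intro p hp
    rw [approx] at hp
    simp only [mem_iUnion] at hp
    obtain ⟨i, hi, q, hq, rfl⟩ := hp
    rw [approx]
    simp only [mem_iUnion]
    exact ⟨i, hi, q, ih hq, rfl⟩

theorem approx_antitone : Antitone S.approx := antitone_nat_of_succ_le S.approx_antitone_succ

theorem exists_attr : ∃ F, S.IsAttr F := by
  refine ⟨⋂ n, S.approx n, ?_, ?_, ?_, ?_, ?_⟩
  · exact (S.approx_compact 0).of_isClosed_subset
      (isClosed_iInter fun n => (S.approx_compact n).isClosed) (iInter_subset _ 0)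
  · exact IsCompact.nonempty_iInter_of_sequence_nonempty_isCompact_isClosed _
      S.approx_antitone_succ S.approx_nonempty (S.approx_compact 0)
      fun n => (S.approx_compact n).isClosed
  · intro p hp
    have := mem_iInter.1 hp 0
    simpa only [approx, mem_prod, mem_Icc] using this
  · intro i hi p hp
    refine mem_iInter.2 fun n => ?_
    rcases n with _ | n
    · have := mem_iInter.1 hp 0
      have h0 : (0 ≤ p.1 ∧ p.1 ≤ 1) ∧ (0 ≤ p.2 ∧ p.2 ≤ 1) := by
        simpa only [approx, mem_prod, mem_Icc] using this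
      simpa only [approx, mem_prod, mem_Icc] using S.map_mem01 i h0
    · rw [approx]
      simp only [mem_iUnion]
      exact ⟨i, hi, p, mem_iInter.1 hp n, rfl⟩
  · intro p hp
    have h1 : ∀ n, ∃ i ∈ S.I, ∃ q ∈ S.approx n, S.map i q = p := by
      intro n
      have := mem_iInter.1 hp (n + 1)
      rw [approx] at this
      simp only [mem_iUnion] at this
      obtain ⟨i, hi, q, hq, h⟩ := this
      exact ⟨i, hi, q, hq, h⟩
    choose i hi q hq hqp using h1
    have h2 : ∃ j : S.I, ∃ᶠ n in atTop, (⟨i n, hi n⟩ : S.I) = j := by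
      by_contra hcon
      push Not at hcon
      have : ∀ᶠ n in atTop, ∀ j : S.I, (⟨i n, hi n⟩ : S.I) ≠ j := by
        rw [eventually_all]
        intro j
        exact hcon j
      obtain ⟨n, hn⟩ := this.exists
      exact hn _ rfl
    obtain ⟨⟨j, hj⟩, hfreq⟩ := h2
    obtain ⟨n0, hn0⟩ := hfreq.exists
    have hn0' : i n0 = j := by simpa using congrArg Subtype.val hn0
    refine ⟨j, hj, q n0, ?_, ?_⟩
    · refine mem_iInter.2 fun m => ?_
      obtain ⟨n, hmn, hn⟩ := (frequently_atTop.1 hfreq) m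
      have hn' : i n = j := by simpa using congrArg Subtype.val hn
      have : q n0 = q n := by
        apply S.map_injective j
        rw [← hn', hqp n, hn', ← hn0', hqp n0]
      rw [this]
      exact S.approx_antitone hmn (hq n)
    · rw [← hn0', hqp n0]

theorem IsAttr.swap {S : Sys α β} {F : Set (ℝ × ℝ)} (h : S.IsAttr F) :
    S.swap.IsAttr (Prod.swap '' F) where
  compact := h.compact.image continuous_swap
  nonempty := h.nonempty.image _
  mem01 := by
    rintro _ ⟨p, hp, rfl⟩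
    exact ⟨(h.mem01 p hp).2, (h.mem01 p hp).1⟩
  inv := by
    rintro ⟨b, a⟩ hi _ ⟨p, hp, rfl⟩
    rw [mem_swap_I] at hi
    exact ⟨S.map (a, b) p, h.inv _ hi p hp, rfl⟩
  dec := by
    rintro _ ⟨p, hp, rfl⟩
    obtain ⟨⟨a, b⟩, hi, q, hq, rfl⟩ := h.dec p hp
    exact ⟨(b, a), (S.mem_swap_I b a).2 hi, q.swap, ⟨q, hq, rfl⟩, rfl⟩

end Sys

end CarpetM
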