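import Mathlib
import Pool.Agent.CarpetM.Sys

open MeasureTheory Filter Topology Set
open scoped ENNReal NNReal BigOperators

set_option linter.unusedSectionVars false

namespace CarpetM

namespace Sys

variable {α β : Type*} (S : Sys α β)

theorem exists_bounds : ∃ κ θ : ℝ, 0 < κ ∧ κ ≤ θ ∧ θ < 1 ∧
    ∀ i ∈ S.I, κ ≤ S.c i.1 ∧ S.c i.1 ≤ θ ∧ κ ≤ S.d i.2 ∧ S.d i.2 ≤ θ := by
  obtain ⟨i0, hi0⟩ := S.hI
  refine ⟨min (S.I.inf' S.hI fun i => S.c i.1) (S.I.inf' S.hI fun i => S.d i.2),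
    max (S.I.sup' S.hI fun i => S.c i.1) (S.I.sup' S.hI fun i => S.d i.2), ?_, ?_, ?_, ?_⟩
  · refine lt_min ?_ ?_
    · rw [Finset.lt_inf'_iff]; intro i _; exact S.hc0 _
    · rw [Finset.lt_inf'_iff]; intro i _; exact S.hd0 _
  · refine (min_le_left _ _).trans (le_trans ?_ (le_max_left _ _))
    exact (Finset.inf'_le (fun i => S.c i.1) hi0).trans (Finset.le_sup' (fun i => S.c i.1) hi0)
  · refine max_lt ?_ ?_
    · rw [Finset.sup'_lt_iff]; intro i _; exact S.hc1 _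
    · rw [Finset.sup'_lt_iff]; intro i _; exact S.hd1 _
  · intro i hi
    refine ⟨(min_le_left _ _).trans (Finset.inf'_le (fun i => S.c i.1) hi),
      (Finset.le_sup' (fun i => S.c i.1) hi).trans (le_max_left _ _),
      (min_le_right _ _).trans (Finset.inf'_le (fun i => S.d i.2) hi),
      (Finset.le_sup' (fun i => S.d i.2) hi).trans (le_max_right _ _)⟩

variable [DecidableEq α] [DecidableEq β]

/-- The nonempty columns. -/
def cols : Finset α := S.I.image Prod.fst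

theorem mem_cols {a : α} : a ∈ S.cols ↔ ∃ b, (a, b) ∈ S.I := by
  simp [cols]

theorem cover_col_aux {F : Set (ℝ × ℝ)} (hF : S.IsAttr F) {t : ℝ} (ht : 0 ≤ t)
    (hsum : ∑ a ∈ S.cols, S.c a ^ t ≤ 1) :
    ∃ K : ℝ, 1 ≤ K ∧ ∀ ρ : ℝ, 0 < ρ → ρ ≤ 1 → HasCover ρ (Prod.fst '' F) (K * ρ ^ (-t)) := by
  obtain ⟨κ, θ, hκ, hκθ, hθ, hb⟩ := S.exists_bounds
  have hθ0 : 0 < θ := lt_of_lt_of_le hκ hκθ
  have hcol : ∀ a ∈ S.cols, κ ≤ S.c a ∧ S.c a ≤ θ := by
    intro a ha
    obtain ⟨b, hb'⟩ := S.mem_cols.1 ha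
    exact ⟨(hb _ hb').1, (hb _ hb').2.1⟩
  have key : ∀ n : ℕ, ∀ ρ : ℝ, θ ^ n ≤ ρ → ρ ≤ 1 / κ →
      HasCover ρ (Prod.fst '' F) (κ ^ (-t) * ρ ^ (-t)) := by
    intro n
    induction n with
    | zero =>
      intro ρ h1 h2
      rw [pow_zero] at h1
      have hρ : 0 < ρ := by linarith
      have : HasCover ρ (Prod.fst '' F) 1 := by
        apply hasCover_single
        rintro _ ⟨p, hp, rfl⟩ _ ⟨q, hq, rfl⟩
        have := (hF.mem01 p hp).1
        have := (hF.mem01 q hq).1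
        rw [Real.dist_eq, abs_le]
        constructor <;> linarith
      refine this.mono_K ?_
      rw [← Real.mul_rpow hκ.le hρ.le]
      have h3 : κ * ρ ≤ 1 := by
        rw [le_div_iff₀ hκ] at h2
        linarith
      have h4 : 0 < κ * ρ := by positivity
      rw [Real.rpow_neg h4.le]
      rw [one_le_inv₀ (by positivity)]
      exact Real.rpow_le_one h4.le h3 ht
    | succ n ih =>
      intro ρ h1 h2
      have hρ : 0 < ρ := lt_of_lt_of_le (by positivity) h1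
      by_cases hρ1 : 1 ≤ ρ
      · have : HasCover ρ (Prod.fst '' F) 1 := by
          apply hasCover_single
          rintro _ ⟨p, hp, rfl⟩ _ ⟨q, hq, rfl⟩
          have := (hF.mem01 p hp).1
          have := (hF.mem01 q hq).1
          rw [Real.dist_eq, abs_le]
          constructor <;> linarith
        refine this.mono_K ?_
        rw [← Real.mul_rpow hκ.le hρ.le]
        have h3 : κ * ρ ≤ 1 := by
          rw [le_div_iff₀ hκ] at h2
          linarith
        have h4 : 0 < κ * ρ := by positivity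
        rw [Real.rpow_neg h4.le]
        rw [one_le_inv₀ (by positivity)]
        exact Real.rpow_le_one h4.le h3 ht
      · push Not at hρ1
        have hpiece : ∀ a ∈ S.cols, HasCover ρ ((fun x => S.c a * x + S.u a) '' (Prod.fst '' F))
            (κ ^ (-t) * ρ ^ (-t) * S.c a ^ t) := by
          intro a ha
          have hca := S.hc0 a
          have h3 : θ ^ n ≤ ρ / S.c a := by
            rw [le_div_iff₀ hca]
            have := (hcol a ha).2
            calc θ ^ n * S.c a ≤ θ ^ n * θ := by gcongr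
              _ = θ ^ (n + 1) := (pow_succ θ n).symm
              _ ≤ ρ := h1
          have h4 : ρ / S.c a ≤ 1 / κ := by
            have := (hcol a ha).1
            gcongr
          have h5 := (ih _ h3 h4).image (fun x => S.c a * x + S.u a) hca.le (by
            intro x y
            rw [Real.dist_eq, Real.dist_eq]
            have : S.c a * x + S.u a - (S.c a * y + S.u a) = S.c a * (x - y) := by ring
            rw [this, abs_mul, abs_of_pos hca])
          have h6 : S.c a * (ρ / S.c a) = ρ := by field_simp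
          rw [h6] at h5
          refine h5.mono_K (le_of_eq ?_)
          rw [Real.div_rpow hρ.le hca.le, Real.rpow_neg hca.le t, div_inv_eq_mul]
          ring
        have hun := (hasCover_biUnion S.cols hpiece).mono_set (E' := Prod.fst '' F) (by
          rintro _ ⟨p, hp, rfl⟩
          obtain ⟨i, hi, q, hq, rfl⟩ := hF.dec p hp
          simp only [mem_iUnion, exists_prop]
          refine ⟨i.1, S.mem_cols.2 ⟨i.2, hi⟩, q.1, ⟨q, hq, rfl⟩, rfl⟩)
        refine hun.mono_K ?_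
        rw [← Finset.mul_sum]
        exact mul_le_of_le_one_right (by positivity) hsum
  refine ⟨κ ^ (-t), ?_, ?_⟩
  · rw [Real.rpow_neg hκ.le, one_le_inv₀ (by positivity)]
    exact Real.rpow_le_one hκ.le (hκθ.trans hθ.le) ht
  · intro ρ hρ hρ1
    obtain ⟨n, hn⟩ := exists_pow_lt_of_lt_one hρ hθ
    refine key n ρ hn.le ?_
    rw [le_div_iff₀ hκ]
    nlinarith

/-- One-dimensional upper bound for scaled copies of the projection. -/
theorem cover_col {F : Set (ℝ × ℝ)} (hF : S.IsAttr F) {t : ℝ} (ht : 0 ≤ t)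
    (hsum : ∑ a ∈ S.cols, S.c a ^ t ≤ 1) :
    ∃ K : ℝ, 1 ≤ K ∧ ∀ s r : ℝ, 0 < s → 0 < r →
      HasCover r ((fun x => s * x) '' (Prod.fst '' F)) (K * max 1 (s / r) ^ t) := by
  obtain ⟨K, hK, h⟩ := S.cover_col_aux hF ht hsum
  refine ⟨K, hK, ?_⟩
  intro s r hs hr
  rcases le_total s r with hsr | hsr
  · have h1 : s / r ≤ 1 := by rw [div_le_one hr]; exact hsr
    rw [max_eq_left h1, Real.one_rpow, mul_one]
    refine HasCover.mono_K (hasCover_single ?_) hK
    rintro _ ⟨_, ⟨p, hp, rfl⟩, rfl⟩ _ ⟨_, ⟨q, hq, rfl⟩, rfl⟩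
    have h2 := (hF.mem01 p hp).1
    have h3 := (hF.mem01 q hq).1
    simp only
    rw [Real.dist_eq, ← mul_sub, abs_mul, abs_of_pos hs]
    have h4 : |p.1 - q.1| ≤ 1 := by rw [abs_le]; constructor <;> linarith
    calc s * |p.1 - q.1| ≤ s * 1 := by gcongr
      _ ≤ r := by linarith
  · have h1 : 1 ≤ s / r := by rw [one_le_div hr]; exact hsr
    rw [max_eq_right h1]
    have h2 := (h (r / s) (by positivity) (by rw [div_le_one hs]; exact hsr)).image
      (fun x => s * x) hs.le (by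
        intro x y
        rw [Real.dist_eq, Real.dist_eq, ← mul_sub, abs_mul, abs_of_pos hs])
    have h3 : s * (r / s) = r := by field_simp
    rw [h3] at h2
    refine h2.mono_K (le_of_eq ?_)
    rw [Real.rpow_neg (by positivity), ← Real.inv_rpow (by positivity), inv_div]

/-- Diagonal scaling. -/
def diag (a b : ℝ) (p : ℝ × ℝ) : ℝ × ℝ := (a * p.1, b * p.2)

end Sys

theorem hasCover_of_fst {r K : ℝ} {E : Set (ℝ × ℝ)} (h : HasCover r (Prod.fst '' E) K)
    (hy : ∀ p ∈ E, ∀ q ∈ E, |p.2 - q.2| ≤ r) : HasCover r E K := by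
  classical
  obtain ⟨𝒰, h1, h2, h3⟩ := h
  refine ⟨𝒰.image (fun U => {p ∈ E | p.1 ∈ U}), ?_, ?_, ?_⟩
  · refine le_trans ?_ h1
    exact_mod_cast Finset.card_image_le
  · intro U hU
    obtain ⟨V, hV, rfl⟩ := Finset.mem_image.1 hU
    rintro p ⟨hp, hp1⟩ q ⟨hq, hq1⟩
    rw [Prod.dist_eq]
    exact max_le (h2 V hV _ hp1 _ hq1) (by rw [Real.dist_eq]; exact hy p hp q hq)
  · intro p hp
    obtain ⟨U, hU, hxU⟩ := by simpa only [mem_iUnion, exists_prop] using h3 ⟨p, hp, rfl⟩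
    simp only [Finset.mem_image, mem_iUnion, exists_prop]
    exact ⟨_, ⟨U, hU, rfl⟩, ⟨hp, hxU⟩⟩

theorem hasCover_swap {r K : ℝ} {E : Set (ℝ × ℝ)} (h : HasCover r (Prod.swap '' E) K) :
    HasCover r E K := by
  have := h.image Prod.swap (L := 1) zero_le_one (by
    intro x y
    rw [one_mul, Prod.dist_eq, Prod.dist_eq, max_comm]
    exact le_rfl)
  rw [one_mul, Set.image_image] at this
  simpa using this

theorem hasCover_translate {r K : ℝ} {E : Set (ℝ × ℝ)} (h : HasCover r E K) (z : ℝ × ℝ) :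
    HasCover r ((fun p => p + z) '' E) K := by
  have := h.image (fun p => p + z) (L := 1) zero_le_one (by
    intro x y
    rw [one_mul, dist_add_right])
  rwa [one_mul] at this

namespace Sys

variable {α β : Type*} (S : Sys α β) [DecidableEq α] [DecidableEq β]

theorem cover_base {F : Set (ℝ × ℝ)} (hF : S.IsAttr F) {t D : ℝ} (ht : 0 ≤ t) (hD : t ≤ D)
    (hsum : ∑ a ∈ S.cols, S.c a ^ t ≤ 1) {κ : ℝ} (hκ : 0 < κ) (hκ1 : κ ≤ 1) :
    ∃ K : ℝ, 0 < K ∧ ∀ a b : ℝ, κ ≤ a → κ ≤ b → b ≤ 1 →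
      HasCover 1 (diag a b '' F) (K * (a ^ t * b ^ (D - t))) := by
  obtain ⟨K, hK, h⟩ := S.cover_col hF ht hsum
  have hK0 : 0 < K := by linarith
  refine ⟨K * κ ^ (-D), by positivity, ?_⟩
  intro a b ha hb hb1
  have ha0 : 0 < a := hκ.trans_le ha
  have hb0 : 0 < b := hκ.trans_le hb
  have h1 := h a 1 ha0 one_pos
  rw [div_one] at h1
  have h2 : HasCover 1 (diag a b '' F) (K * max 1 a ^ t) := by
    apply hasCover_of_fst
    · refine h1.mono_set ?_
      rintro _ ⟨_, ⟨p, hp, rfl⟩, rfl⟩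
      exact ⟨p.1, ⟨p, hp, rfl⟩, rfl⟩
    · rintro _ ⟨p, hp, rfl⟩ _ ⟨q, hq, rfl⟩
      have h2 := (hF.mem01 p hp).2
      have h3 := (hF.mem01 q hq).2
      simp only [diag]
      rw [← mul_sub, abs_mul, abs_of_pos hb0]
      have h4 : |p.2 - q.2| ≤ 1 := by rw [abs_le]; constructor <;> linarith
      calc b * |p.2 - q.2| ≤ b * 1 := by gcongr
        _ ≤ 1 := by linarith
  refine h2.mono_K ?_
  have h3 : max 1 a ≤ κ⁻¹ * a := by
    apply max_le
    · rw [← div_eq_inv_mul, le_div_iff₀ hκ]; linarith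
    · have : 1 ≤ κ⁻¹ := (one_le_inv₀ hκ).2 hκ1
      nlinarith
  have h4 : max 1 a ^ t ≤ (κ⁻¹ * a) ^ t := Real.rpow_le_rpow (by positivity) h3 ht
  rw [Real.mul_rpow (by positivity) ha0.le, Real.inv_rpow hκ.le, ← Real.rpow_neg hκ.le] at h4
  have h5 : κ ^ (D - t) ≤ b ^ (D - t) := Real.rpow_le_rpow hκ.le hb (by linarith)
  have h6 : κ ^ (-t) = κ ^ (-D) * κ ^ (D - t) := by
    rw [← Real.rpow_add hκ]; congr 1; ring
  calc K * max 1 a ^ t ≤ K * (κ ^ (-t) * a ^ t) := by gcongr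
    _ = K * (κ ^ (-D) * a ^ t) * κ ^ (D - t) := by rw [h6]; ring
    _ ≤ K * (κ ^ (-D) * a ^ t) * b ^ (D - t) := by gcongr
    _ = _ := by ring

theorem diag_map (a b : ℝ) (i : α × β) (p : ℝ × ℝ) :
    diag a b (S.map i p) = diag (a * S.c i.1) (b * S.d i.2) p + (a * S.u i.1, b * S.v i.2) := by
  simp only [diag, map, Prod.mk_add_mk, Prod.mk.injEq]
  constructor <;> ring

/-- Upper bound for the covering numbers (upper box dimension). -/
theorem cover_upper {F : Set (ℝ × ℝ)} (hF : S.IsAttr F) {t₁ t₂ D : ℝ} (ht₁ : 0 ≤ t₁)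
    (ht₂ : 0 ≤ t₂) (hD₁ : t₁ ≤ D) (hD₂ : t₂ ≤ D)
    (hs₁ : ∑ a ∈ S.cols, S.c a ^ t₁ ≤ 1) (hs₂ : ∑ b ∈ S.swap.cols, S.d b ^ t₂ ≤ 1)
    (hI₁ : ∑ i ∈ S.I, S.c i.1 ^ t₁ * S.d i.2 ^ (D - t₁) ≤ 1)
    (hI₂ : ∑ i ∈ S.I, S.d i.2 ^ t₂ * S.c i.1 ^ (D - t₂) ≤ 1) :
    ∃ K : ℝ, 0 < K ∧ ∀ r : ℝ, 0 < r → r ≤ 1 → HasCover r F (K * r ^ (-D)) := by
  obtain ⟨κ, θ, hκ, hκθ, hθ, hb⟩ := S.exists_bounds
  have hθ0 : 0 < θ := lt_of_lt_of_le hκ hκθ
  have hκ1 : κ ≤ 1 := hκθ.trans hθ.le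
  obtain ⟨K₁, hK₁, h₁⟩ := S.cover_base hF ht₁ hD₁ hs₁ hκ hκ1
  obtain ⟨K₂, hK₂, h₂⟩ := S.swap.cover_base hF.swap ht₂ hD₂ hs₂ hκ hκ1
  have h₂' : ∀ a b : ℝ, κ ≤ a → κ ≤ b → a ≤ 1 →
      HasCover 1 (diag a b '' F) (K₂ * (b ^ t₂ * a ^ (D - t₂))) := by
    intro a b ha hb ha1
    have := h₂ b a hb ha ha1
    apply hasCover_swap
    refine this.mono_set ?_
    rintro _ ⟨_, ⟨p, hp, rfl⟩, rfl⟩
    exact ⟨p.swap, ⟨p, hp, rfl⟩, rfl⟩
  set K := max K₁ K₂ with hKdef
  have hK0 : 0 < K := lt_max_of_lt_left hK₁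
  have key : ∀ n : ℕ, ∀ a b : ℝ, κ ≤ a → κ ≤ b → a * θ ^ n ≤ 1 →
      HasCover 1 (diag a b '' F) (K * (a ^ t₁ * b ^ (D - t₁) + b ^ t₂ * a ^ (D - t₂))) := by
    intro n
    induction n with
    | zero =>
      intro a b ha hb ha1
      rw [pow_zero, mul_one] at ha1
      have ha0 : 0 < a := hκ.trans_le ha
      have hb0 : 0 < b := hκ.trans_le hb
      refine (h₂' a b ha hb ha1).mono_K ?_
      have : 0 ≤ a ^ t₁ * b ^ (D - t₁) := by positivity
      have h3 : K₂ ≤ K := le_max_right _ _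
      calc K₂ * (b ^ t₂ * a ^ (D - t₂)) ≤ K * (b ^ t₂ * a ^ (D - t₂)) := by gcongr
        _ ≤ _ := by
          apply mul_le_mul_of_nonneg_left _ hK0.le
          linarith
    | succ n ih =>
      intro a b ha hb' ha1
      have ha0 : 0 < a := hκ.trans_le ha
      have hb0 : 0 < b := hκ.trans_le hb'
      by_cases h1 : a ≤ 1
      · refine (h₂' a b ha hb' h1).mono_K ?_
        have : 0 ≤ a ^ t₁ * b ^ (D - t₁) := by positivity
        have h3 : K₂ ≤ K := le_max_right _ _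
        calc K₂ * (b ^ t₂ * a ^ (D - t₂)) ≤ K * (b ^ t₂ * a ^ (D - t₂)) := by gcongr
          _ ≤ _ := by
            apply mul_le_mul_of_nonneg_left _ hK0.le
            linarith
      by_cases h2 : b ≤ 1
      · refine (h₁ a b ha hb' h2).mono_K ?_
        have : 0 ≤ b ^ t₂ * a ^ (D - t₂) := by positivity
        have h3 : K₁ ≤ K := le_max_left _ _
        calc K₁ * (a ^ t₁ * b ^ (D - t₁)) ≤ K * (a ^ t₁ * b ^ (D - t₁)) := by gcongr
          _ ≤ _ := by
            apply mul_le_mul_of_nonneg_left _ hK0.le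
            linarith
      push Not at h1 h2
      have hpiece : ∀ i ∈ S.I, HasCover 1
          ((fun p => p + (a * S.u i.1, b * S.v i.2)) '' (diag (a * S.c i.1) (b * S.d i.2) '' F))
          (K * ((a ^ t₁ * b ^ (D - t₁)) * (S.c i.1 ^ t₁ * S.d i.2 ^ (D - t₁)) +
            (b ^ t₂ * a ^ (D - t₂)) * (S.d i.2 ^ t₂ * S.c i.1 ^ (D - t₂)))) := by
        intro i hi
        obtain ⟨b1, b2, b3, b4⟩ := hb i hi
        have hc0 := S.hc0 i.1
        have hd0 := S.hd0 i.2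
        have h3 := ih (a * S.c i.1) (b * S.d i.2) (by nlinarith) (by nlinarith) (by
          calc a * S.c i.1 * θ ^ n ≤ a * θ * θ ^ n := by gcongr
            _ = a * θ ^ (n + 1) := by ring
            _ ≤ 1 := ha1)
        refine (hasCover_translate h3 _).mono_K (le_of_eq ?_)
        rw [Real.mul_rpow ha0.le hc0.le, Real.mul_rpow hb0.le hd0.le,
          Real.mul_rpow ha0.le hc0.le, Real.mul_rpow hb0.le hd0.le]
        ring
      have hun := (hasCover_biUnion S.I hpiece).mono_set (E' := diag a b '' F) (by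
        rintro _ ⟨p, hp, rfl⟩
        obtain ⟨i, hi, q, hq, rfl⟩ := hF.dec p hp
        simp only [mem_iUnion, exists_prop]
        exact ⟨i, hi, diag (a * S.c i.1) (b * S.d i.2) q, ⟨q, hq, rfl⟩, (S.diag_map a b i q).symm⟩)
      refine hun.mono_K ?_
      rw [← Finset.mul_sum, Finset.sum_add_distrib, ← Finset.mul_sum, ← Finset.mul_sum]
      apply mul_le_mul_of_nonneg_left _ hK0.le
      have e1 : a ^ t₁ * b ^ (D - t₁) * ∑ i ∈ S.I, S.c i.1 ^ t₁ * S.d i.2 ^ (D - t₁) ≤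
          a ^ t₁ * b ^ (D - t₁) := mul_le_of_le_one_right (by positivity) hI₁
      have e2 : b ^ t₂ * a ^ (D - t₂) * ∑ i ∈ S.I, S.d i.2 ^ t₂ * S.c i.1 ^ (D - t₂) ≤
          b ^ t₂ * a ^ (D - t₂) := mul_le_of_le_one_right (by positivity) hI₂
      linarith
  refine ⟨K * 2, by positivity, ?_⟩
  intro r hr hr1
  obtain ⟨n, hn⟩ := exists_pow_lt_of_lt_one hr hθ
  have hκr : κ ≤ 1 / r := by
    rw [le_div_iff₀ hr]
    nlinarith
  have h3 := key n (1 / r) (1 / r) hκr hκr (by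
    rw [one_div, inv_mul_le_iff₀ hr]; linarith)
  have h4 := h3.image (fun p : ℝ × ℝ => (r * p.1, r * p.2)) hr.le (by
    intro x y
    simp only [Prod.dist_eq, Real.dist_eq]
    rw [← mul_sub, ← mul_sub, abs_mul, abs_mul, abs_of_pos hr, mul_max_of_nonneg _ _ hr.le])
  rw [mul_one] at h4
  refine (h4.mono_set (E' := F) ?_).mono_K (le_of_eq ?_)
  · intro p hp
    refine ⟨diag (1 / r) (1 / r) p, ⟨p, hp, rfl⟩, ?_⟩
    simp only [diag]
    ext <;> field_simp
  · have h5 : 0 < 1 / r := by positivity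
    rw [← Real.rpow_add h5, ← Real.rpow_add h5]
    have e1 : t₁ + (D - t₁) = D := by ring
    have e2 : t₂ + (D - t₂) = D := by ring
    rw [e1, e2, one_div, Real.inv_rpow hr.le, Real.rpow_neg hr.le]
    ring

end Sys

end CarpetM
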