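import Mathlib
import Pool.Agent.CarpetM.Upper

open MeasureTheory Filter Topology Set
open scoped ENNReal NNReal BigOperators

set_option linter.unusedSectionVars false

namespace CarpetM

namespace Sys

variable {α β : Type*} (S : Sys α β) [DecidableEq α] [DecidableEq β]

/-- The rows used in column `a`, as a set of indices. -/
def colIdx (a : α) : Finset (α × β) := S.I.filter fun i => i.1 = a

theorem mem_colIdx {a : α} {i : α × β} : i ∈ S.colIdx a ↔ i ∈ S.I ∧ i.1 = a := by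
  simp [colIdx]

/-- The part of `F` coded by words all of whose first `k` columns are `a`. -/
def Q (F : Set (ℝ × ℝ)) (a : α) : ℕ → Set (ℝ × ℝ)
  | 0 => F
  | k + 1 => ⋃ i ∈ S.colIdx a, S.map i '' Q F a k

/-- Horizontal offset of the column word `a^k`. -/
def off (a : α) : ℕ → ℝ
  | 0 => 0
  | k + 1 => S.c a * off a k + S.u a

theorem off_nonneg (a : α) (k : ℕ) : 0 ≤ S.off a k := by
  induction k with
  | zero => exact le_rfl
  | succ k ih =>
    have := (S.hc0 a).le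
    have := S.hu0 a
    simp only [off]; positivity

theorem off_add_le (a : α) (k : ℕ) : S.off a k + S.c a ^ k ≤ 1 := by
  induction k with
  | zero => simp [off]
  | succ k ih =>
    have h1 := (S.hc0 a).le
    have h2 := S.hu1 a
    simp only [off]
    calc S.c a * S.off a k + S.u a + S.c a ^ (k + 1)
        = S.c a * (S.off a k + S.c a ^ k) + S.u a := by ring
      _ ≤ S.c a * 1 + S.u a := by gcongr
      _ ≤ 1 := by linarith

theorem Q_subset {F : Set (ℝ × ℝ)} (hF : S.IsAttr F) (a : α) (k : ℕ) : S.Q F a k ⊆ F := by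
  induction k with
  | zero => exact subset_rfl
  | succ k ih =>
    intro p hp
    simp only [Q, mem_iUnion, exists_prop] at hp
    obtain ⟨i, hi, q, hq, rfl⟩ := hp
    exact hF.inv i (S.mem_colIdx.1 hi).1 q (ih hq)

theorem Q_fst {F : Set (ℝ × ℝ)} (a : α) (k : ℕ) :
    Prod.fst '' S.Q F a k ⊆ (fun x => S.c a ^ k * x + S.off a k) '' (Prod.fst '' F) := by
  induction k with
  | zero =>
    rintro _ ⟨p, hp, rfl⟩
    exact ⟨p.1, ⟨p, hp, rfl⟩, by simp [off]⟩
  | succ k ih =>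
    rintro _ ⟨p, hp, rfl⟩
    simp only [Q, mem_iUnion, exists_prop] at hp
    obtain ⟨i, hi, q, hq, rfl⟩ := hp
    obtain ⟨_, ⟨z, hz, rfl⟩, h⟩ := ih ⟨q, hq, rfl⟩
    refine ⟨z.1, ⟨z, hz, rfl⟩, ?_⟩
    have := (S.mem_colIdx.1 hi).2
    simp only [map, off]
    rw [← h, this]
    ring

/-- Covering numbers of `Q k` under diagonal scalings. -/
theorem cover_Q {F : Set (ℝ × ℝ)} (hF : S.IsAttr F) (a : α) {t s : ℝ} (ht : 0 ≤ t) (hs : 0 ≤ s)
    (hsum : ∑ a ∈ S.cols, S.c a ^ t ≤ 1) (hsa : ∑ i ∈ S.colIdx a, S.d i.2 ^ s ≤ 1)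
    {κ θ : ℝ} (hκ : 0 < κ) (hθ0 : 0 < θ) (hb : ∀ i ∈ S.I, κ ≤ S.d i.2 ∧ S.d i.2 ≤ θ) :
    ∃ K : ℝ, 0 < K ∧ ∀ k : ℕ, ∀ x y : ℝ, 0 < x → κ ≤ y → y * θ ^ k ≤ 1 →
      HasCover 1 (diag x y '' S.Q F a k) (K * (max 1 (x * S.c a ^ k) ^ t * y ^ s)) := by
  obtain ⟨K, hK, h⟩ := S.cover_col hF ht hsum
  have hK0 : 0 < K := by linarith
  have base : ∀ k : ℕ, ∀ x y : ℝ, 0 < x → κ ≤ y → y ≤ 1 →
      HasCover 1 (diag x y '' S.Q F a k) (K * κ ^ (-s) * (max 1 (x * S.c a ^ k) ^ t * y ^ s)) := by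
    intro k x y hx hy hy1
    have hy0 : 0 < y := hκ.trans_le hy
    have hca := S.hc0 a
    have h1 := h (x * S.c a ^ k) 1 (by positivity) one_pos
    rw [div_one] at h1
    have h2 : HasCover 1 (diag x y '' S.Q F a k) (K * max 1 (x * S.c a ^ k) ^ t) := by
      apply hasCover_of_fst
      · have h3 := h1.image (fun z => z + x * S.off a k) (L := 1) zero_le_one (by
          intro z w
          rw [one_mul, dist_add_right])
        rw [one_mul] at h3
        refine h3.mono_set ?_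
        rintro _ ⟨_, ⟨p, hp, rfl⟩, rfl⟩
        obtain ⟨z, hz, hzp⟩ := S.Q_fst a k ⟨p, hp, rfl⟩
        refine ⟨x * S.c a ^ k * z, ⟨z, hz, rfl⟩, ?_⟩
        simp only [diag]
        simp only at hzp
        rw [← hzp]
        ring
      · rintro _ ⟨p, hp, rfl⟩ _ ⟨q, hq, rfl⟩
        have h2 := (hF.mem01 p (S.Q_subset hF a k hp)).2
        have h3 := (hF.mem01 q (S.Q_subset hF a k hq)).2
        simp only [diag]
        rw [← mul_sub, abs_mul, abs_of_pos hy0]
        have h4 : |p.2 - q.2| ≤ 1 := by rw [abs_le]; constructor <;> linarith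
        calc y * |p.2 - q.2| ≤ y * 1 := by gcongr
          _ ≤ 1 := by linarith
    refine h2.mono_K ?_
    have h5 : κ ^ s ≤ y ^ s := Real.rpow_le_rpow hκ.le hy hs
    have h6 : 1 = κ ^ (-s) * κ ^ s := by rw [← Real.rpow_add hκ]; simp
    calc K * max 1 (x * S.c a ^ k) ^ t
        = K * max 1 (x * S.c a ^ k) ^ t * (κ ^ (-s) * κ ^ s) := by rw [← h6, mul_one]
      _ ≤ K * max 1 (x * S.c a ^ k) ^ t * (κ ^ (-s) * y ^ s) := by gcongr
      _ = _ := by ring
  refine ⟨K * κ ^ (-s), by positivity, ?_⟩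
  intro k
  induction k with
  | zero =>
    intro x y hx hy hy1
    rw [pow_zero, mul_one] at hy1
    exact base 0 x y hx hy hy1
  | succ k ih =>
    intro x y hx hy hy1
    by_cases h1 : y ≤ 1
    · exact base (k + 1) x y hx hy h1
    push Not at h1
    have hy0 : 0 < y := by linarith
    have hpiece : ∀ i ∈ S.colIdx a, HasCover 1
        ((fun p => p + (x * S.u i.1, y * S.v i.2)) ''
          (diag (x * S.c i.1) (y * S.d i.2) '' S.Q F a k))
        (K * κ ^ (-s) * (max 1 (x * S.c a ^ (k + 1)) ^ t * y ^ s) * S.d i.2 ^ s) := by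
      intro i hi
      obtain ⟨hiI, hia⟩ := S.mem_colIdx.1 hi
      obtain ⟨b3, b4⟩ := hb i hiI
      have hc0 := S.hc0 i.1
      have hd0 := S.hd0 i.2
      have h3 := ih (x * S.c i.1) (y * S.d i.2) (by positivity) (by nlinarith) (by
        calc y * S.d i.2 * θ ^ k ≤ y * θ * θ ^ k := by gcongr
          _ = y * θ ^ (k + 1) := by ring
          _ ≤ 1 := hy1)
      refine (hasCover_translate h3 _).mono_K (le_of_eq ?_)
      rw [Real.mul_rpow hy0.le hd0.le, hia]
      have : x * S.c a * S.c a ^ k = x * S.c a ^ (k + 1) := by ring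
      rw [this]
      ring
    have hun := (hasCover_biUnion (S.colIdx a) hpiece).mono_set
      (E' := diag x y '' S.Q F a (k + 1)) (by
      rintro _ ⟨p, hp, rfl⟩
      simp only [Q, mem_iUnion, exists_prop] at hp
      obtain ⟨i, hi, q, hq, rfl⟩ := hp
      simp only [mem_iUnion, exists_prop]
      exact ⟨i, hi, diag (x * S.c i.1) (y * S.d i.2) q, ⟨q, hq, rfl⟩, (S.diag_map x y i q).symm⟩)
    refine hun.mono_K ?_
    rw [← Finset.mul_sum]
    exact mul_le_of_le_one_right (by positivity) hsa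

/-- Points of `F` in an open column. -/
theorem dec_open_col {F : Set (ℝ × ℝ)} (hF : S.IsAttr F) {a : α} {p : ℝ × ℝ} (hp : p ∈ F) {x : ℝ}
    (hx0 : 0 < x) (hx1 : x < 1) (hpx : p.1 = S.c a * x + S.u a) :
    ∃ i ∈ S.colIdx a, ∃ q ∈ F, S.map i q = p ∧ q.1 = x := by
  obtain ⟨i, hi, q, hq, rfl⟩ := hF.dec p hp
  have hq1 := (hF.mem01 q hq).1
  have hca := S.hc0 a
  have hci := S.hc0 i.1
  simp only [map] at hpx
  have hia : i.1 = a := by
    by_contra hne
    rcases S.hu i.1 a hne with h | h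
    · have : S.c i.1 * q.1 ≤ S.c i.1 * 1 := by gcongr; exact hq1.2
      have : 0 < S.c a * x := by positivity
      linarith
    · have : S.c a * x < S.c a * 1 := by gcongr
      have : 0 ≤ S.c i.1 * q.1 := mul_nonneg hci.le hq1.1
      linarith
  refine ⟨i, S.mem_colIdx.2 ⟨hi, hia⟩, q, hq, rfl, ?_⟩
  rw [hia] at hpx
  exact mul_left_cancel₀ hca.ne' (by linarith)

theorem dec_open {F : Set (ℝ × ℝ)} (hF : S.IsAttr F) {j : α × β} {w : ℝ × ℝ}
    (hw1 : 0 < w.1 ∧ w.1 < 1) (hw2 : 0 < w.2 ∧ w.2 < 1) (hp : S.map j w ∈ F) : w ∈ F := by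
  obtain ⟨i, hi, q, hq, h, hx⟩ := S.dec_open_col hF hp hw1.1 hw1.2 rfl
  have hi2 : i.2 = j.2 := by
    by_contra hne
    have h2 : S.d i.2 * q.2 + S.v i.2 = S.d j.2 * w.2 + S.v j.2 := congrArg Prod.snd h
    have hq2 := (hF.mem01 q hq).2
    have hdi := S.hd0 i.2
    have hdj := S.hd0 j.2
    rcases S.hv i.2 j.2 hne with h' | h'
    · have : S.d i.2 * q.2 ≤ S.d i.2 * 1 := by gcongr; exact hq2.2
      have : 0 < S.d j.2 * w.2 := mul_pos hdj hw2.1
      linarith
    · have : S.d j.2 * w.2 < S.d j.2 * 1 := by gcongr; exact hw2.2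
      have : 0 ≤ S.d i.2 * q.2 := mul_nonneg hdi.le hq2.1
      linarith
  have hij : i = j := Prod.ext (S.mem_colIdx.1 hi).2 hi2
  subst hij
  rwa [← S.map_injective i h]

theorem map_mem_open (i : α × β) {p : ℝ × ℝ} (h1 : 0 < p.1 ∧ p.1 < 1) (h2 : 0 < p.2 ∧ p.2 < 1) :
    (0 < (S.map i p).1 ∧ (S.map i p).1 < 1) ∧ (0 < (S.map i p).2 ∧ (S.map i p).2 < 1) := by
  have hc := S.hc0 i.1
  have hd := S.hd0 i.2
  have hu0 := S.hu0 i.1
  have hu1 := S.hu1 i.1
  have hv0 := S.hv0 i.2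
  have hv1 := S.hv1 i.2
  obtain ⟨h1, h3⟩ := h1
  obtain ⟨h2, h4⟩ := h2
  simp only [map]
  refine ⟨⟨by positivity, by nlinarith⟩, ⟨by positivity, by nlinarith⟩⟩

theorem iter_mem_open (i : α × β) (l : ℕ) {p : ℝ × ℝ} (h1 : 0 < p.1 ∧ p.1 < 1)
    (h2 : 0 < p.2 ∧ p.2 < 1) :
    (0 < ((S.map i)^[l] p).1 ∧ ((S.map i)^[l] p).1 < 1) ∧
      (0 < ((S.map i)^[l] p).2 ∧ ((S.map i)^[l] p).2 < 1) := by
  induction l with
  | zero => exact ⟨h1, h2⟩
  | succ l ih =>
    rw [Function.iterate_succ_apply']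
    exact S.map_mem_open i ih.1 ih.2

theorem dec_open_iter {F : Set (ℝ × ℝ)} (hF : S.IsAttr F) (j : α × β) (l : ℕ) {w : ℝ × ℝ}
    (hw1 : 0 < w.1 ∧ w.1 < 1) (hw2 : 0 < w.2 ∧ w.2 < 1) (hp : (S.map j)^[l] w ∈ F) : w ∈ F := by
  induction l with
  | zero => exact hp
  | succ l ih =>
    rw [Function.iterate_succ_apply'] at hp
    have := S.iter_mem_open j l hw1 hw2
    exact ih (S.dec_open hF this.1 this.2 hp)

theorem mem_Q_of_open {F : Set (ℝ × ℝ)} (hF : S.IsAttr F) (a : α) (k : ℕ) {p : ℝ × ℝ}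
    (hp : p ∈ F) {x : ℝ} (hx0 : 0 < x) (hx1 : x < 1) (hpx : p.1 = S.c a ^ k * x + S.off a k) :
    p ∈ S.Q F a k := by
  induction k generalizing p with
  | zero => exact hp
  | succ k ih =>
    have hca := S.hc0 a
    have h1 : 0 < S.c a ^ k * x + S.off a k := by
      have := S.off_nonneg a k
      positivity
    have h2 : S.c a ^ k * x + S.off a k < 1 := by
      have h3 := S.off_add_le a k
      have : S.c a ^ k * x < S.c a ^ k * 1 := by gcongr
      linarith
    obtain ⟨i, hi, q, hq, h, hqx⟩ := S.dec_open_col hF hp h1 h2 (by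
      rw [hpx, off]; ring)
    simp only [Q, mem_iUnion, exists_prop]
    exact ⟨i, hi, q, ih hq hqx, h⟩

/-- The iterate of a fixed map is affine. -/
theorem iter_eq (j : α × β) (l : ℕ) : ∃ z : ℝ × ℝ, ∀ p : ℝ × ℝ,
    (S.map j)^[l] p = diag (S.c j.1 ^ l) (S.d j.2 ^ l) p + z := by
  induction l with
  | zero => exact ⟨0, fun p => by simp [diag]⟩
  | succ l ih =>
    obtain ⟨z, hz⟩ := ih
    refine ⟨S.map j z, fun p => ?_⟩
    rw [Function.iterate_succ_apply', hz]
    simp only [map, diag, Prod.fst_add, Prod.snd_add, Prod.mk_add_mk, Prod.mk.injEq]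
    constructor <;> ring

theorem iter_mem {F : Set (ℝ × ℝ)} (hF : S.IsAttr F) {j : α × β} (hj : j ∈ S.I) (l : ℕ)
    {p : ℝ × ℝ} (hp : p ∈ F) : (S.map j)^[l] p ∈ F := by
  induction l with
  | zero => exact hp
  | succ l ih =>
    rw [Function.iterate_succ_apply']
    exact hF.inv j hj _ ih

end Sys

end CarpetM
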