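import Mathlib

/-!
Typical words and pigeonhole on types (finite i.i.d. words).
-/

set_option autoImplicit false

open Filter Topology
open scoped BigOperators

namespace CarpetM

namespace TypesT

variable {ι α : Type*} [Fintype ι] [Fintype α]

/-- product weight of a word -/
noncomputable def Qw (q : ι → ℝ) {n : ℕ} (w : Fin n → ι) : ℝ := ∏ j, q (w j)

omit [Fintype ι] in
theorem Qw_nonneg {q : ι → ℝ} (hq : ∀ i, 0 ≤ q i) {n : ℕ} (w : Fin n → ι) : 0 ≤ Qw q w :=
  Finset.prod_nonneg fun _ _ => hq _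

theorem Qw_sum (q : ι → ℝ) (n : ℕ) : ∑ w : Fin n → ι, Qw q w = (∑ i, q i) ^ n := by
  unfold Qw
  rw [Fintype.sum_pow]

theorem tail (q φ : ι → ℝ) (hq : ∀ i, 0 ≤ q i) (hsum : ∑ i, q i = 1) (hφ : ∑ i, q i * φ i = 0)
    {ε : ℝ} (hε : 0 < ε) :
    ∃ r : ℝ, 0 ≤ r ∧ r < 1 ∧ ∀ n : ℕ,
      ∑ w : Fin n → ι with (n : ℝ) * ε ≤ ∑ j, φ (w j), Qw q w ≤ r ^ n := by
  classical
  obtain ⟨B, hB1, hB⟩ : ∃ B : ℝ, 1 ≤ B ∧ ∀ i, |φ i| ≤ B := by
    refine ⟨1 + ∑ i, |φ i|, ?_, ?_⟩
    · have : 0 ≤ ∑ i, |φ i| := Finset.sum_nonneg fun _ _ => abs_nonneg _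
      linarith
    · intro i
      have : |φ i| ≤ ∑ i, |φ i| :=
        Finset.single_le_sum (f := fun i => |φ i|) (fun _ _ => abs_nonneg _) (Finset.mem_univ i)
      linarith
  have hB0 : 0 < B := by linarith
  obtain ⟨θ, hθ0, hθ1, hθ2⟩ : ∃ θ : ℝ, 0 < θ ∧ θ * B ≤ 1 ∧ θ * B ^ 2 < ε := by
    refine ⟨min (1 / B) (ε / (2 * B ^ 2)), ?_, ?_, ?_⟩
    · exact lt_min (by positivity) (by positivity)
    · calc min (1 / B) (ε / (2 * B ^ 2)) * B ≤ (1 / B) * B :=
            mul_le_mul_of_nonneg_right (min_le_left _ _) hB0.le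
        _ = 1 := by field_simp
    · calc min (1 / B) (ε / (2 * B ^ 2)) * B ^ 2 ≤ (ε / (2 * B ^ 2)) * B ^ 2 :=
            mul_le_mul_of_nonneg_right (min_le_right _ _) (by positivity)
        _ = ε / 2 := by field_simp
        _ < ε := by linarith
  have hMle : ∑ i, q i * Real.exp (θ * φ i) ≤ 1 + (θ * B) ^ 2 := by
    have h1 : ∀ i, q i * Real.exp (θ * φ i) ≤ q i + θ * (q i * φ i) + q i * (θ * B) ^ 2 := by
      intro i
      have hx : |θ * φ i| ≤ θ * B := by
        rw [abs_mul, abs_of_pos hθ0]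
        exact mul_le_mul_of_nonneg_left (hB i) hθ0.le
      have h2 := Real.abs_exp_sub_one_sub_id_le (x := θ * φ i) (hx.trans hθ1)
      have h3 : (θ * φ i) ^ 2 ≤ (θ * B) ^ 2 := by
        rw [← sq_abs (θ * φ i)]
        exact pow_le_pow_left₀ (abs_nonneg _) hx 2
      have h4 := (abs_le.1 h2).2
      have h5 : Real.exp (θ * φ i) ≤ 1 + θ * φ i + (θ * B) ^ 2 := by linarith
      calc q i * Real.exp (θ * φ i) ≤ q i * (1 + θ * φ i + (θ * B) ^ 2) :=
            mul_le_mul_of_nonneg_left h5 (hq i)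
        _ = _ := by ring
    calc ∑ i, q i * Real.exp (θ * φ i) ≤ ∑ i, (q i + θ * (q i * φ i) + q i * (θ * B) ^ 2) :=
          Finset.sum_le_sum fun i _ => h1 i
      _ = 1 + (θ * B) ^ 2 := by
          rw [Finset.sum_add_distrib, Finset.sum_add_distrib, ← Finset.mul_sum, ← Finset.sum_mul,
            hsum, hφ]
          ring
  have hM0 : 0 ≤ ∑ i, q i * Real.exp (θ * φ i) :=
    Finset.sum_nonneg fun i _ => mul_nonneg (hq i) (Real.exp_pos _).le
  refine ⟨Real.exp (-(θ * ε)) * ∑ i, q i * Real.exp (θ * φ i), by positivity, ?_, ?_⟩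
  · calc Real.exp (-(θ * ε)) * ∑ i, q i * Real.exp (θ * φ i)
        ≤ Real.exp (-(θ * ε)) * Real.exp ((θ * B) ^ 2) := by
          refine mul_le_mul_of_nonneg_left (hMle.trans ?_) (Real.exp_pos _).le
          have := Real.add_one_le_exp ((θ * B) ^ 2)
          linarith
      _ = Real.exp (-(θ * ε) + (θ * B) ^ 2) := by rw [Real.exp_add]
      _ < 1 := by
          rw [Real.exp_lt_one_iff]
          have : (θ * B) ^ 2 = θ * (θ * B ^ 2) := by ring
          rw [this]
          have := mul_lt_mul_of_pos_left hθ2 hθ0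
          linarith
  · intro n
    rw [mul_pow, ← Qw_sum, Finset.mul_sum]
    calc ∑ w : Fin n → ι with (n : ℝ) * ε ≤ ∑ j, φ (w j), Qw q w
        ≤ ∑ w : Fin n → ι with (n : ℝ) * ε ≤ ∑ j, φ (w j),
            Real.exp (-(θ * ε)) ^ n * Qw (fun i => q i * Real.exp (θ * φ i)) w := by
          refine Finset.sum_le_sum ?_
          intro w hw
          rw [Finset.mem_filter] at hw
          have e1 : Qw (fun i => q i * Real.exp (θ * φ i)) w
              = Qw q w * Real.exp (θ * ∑ j, φ (w j)) := by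
            unfold Qw
            rw [Finset.prod_mul_distrib, ← Real.exp_sum, Finset.mul_sum]
          rw [e1, ← Real.exp_nat_mul]
          have e2 : Real.exp (↑n * -(θ * ε)) * (Qw q w * Real.exp (θ * ∑ j, φ (w j)))
              = Qw q w * Real.exp (θ * (∑ j, φ (w j) - n * ε)) := by
            rw [mul_left_comm, ← Real.exp_add]
            congr 2
            ring
          rw [e2]
          have h3 : 1 ≤ Real.exp (θ * (∑ j, φ (w j) - n * ε)) :=
            Real.one_le_exp (mul_nonneg hθ0.le (by linarith [hw.2]))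
          exact le_mul_of_one_le_right (Qw_nonneg hq w) h3
      _ ≤ _ := by
          refine Finset.sum_le_sum_of_subset_of_nonneg (Finset.filter_subset _ _) ?_
          intro w _ _
          exact mul_nonneg (by positivity)
            (Qw_nonneg (fun i => mul_nonneg (hq i) (Real.exp_pos _).le) w)

theorem typ (q φ : ι → ℝ) (hq : ∀ i, 0 ≤ q i) (hsum : ∑ i, q i = 1) (hφ : ∑ i, q i * φ i = 0)
    {ε : ℝ} (hε : 0 < ε) :
    ∀ᶠ n : ℕ in atTop, ∑ w : Fin n → ι with ¬ |∑ j, φ (w j)| ≤ n * ε, Qw q w ≤ 1 / 8 := by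
  classical
  obtain ⟨r, hr0, hr1, hr⟩ := tail q φ hq hsum hφ hε
  obtain ⟨r', hr0', hr1', hr'⟩ := tail q (fun i => - φ i) hq hsum (by simp [hφ]) hε
  have t1 := tendsto_pow_atTop_nhds_zero_of_lt_one hr0 hr1
  have t2 := tendsto_pow_atTop_nhds_zero_of_lt_one hr0' hr1'
  filter_upwards [t1.eventually_lt_const (show (0 : ℝ) < 1 / 16 by norm_num),
    t2.eventually_lt_const (show (0 : ℝ) < 1 / 16 by norm_num)] with n h1 h2
  have hsub : (Finset.univ.filter fun w : Fin n → ι => ¬ |∑ j, φ (w j)| ≤ n * ε) ⊆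
      (Finset.univ.filter fun w : Fin n → ι => (n : ℝ) * ε ≤ ∑ j, φ (w j)) ∪
      (Finset.univ.filter fun w : Fin n → ι => (n : ℝ) * ε ≤ ∑ j, - φ (w j)) := by
    intro w hw
    simp only [Finset.mem_filter, Finset.mem_univ, true_and, Finset.mem_union] at hw ⊢
    rw [abs_le, not_and_or, not_le, not_le] at hw
    rw [Finset.sum_neg_distrib]
    rcases hw with h | h
    · right; linarith
    · left; linarith
  calc ∑ w : Fin n → ι with ¬ |∑ j, φ (w j)| ≤ n * ε, Qw q w
      ≤ ∑ w ∈ (Finset.univ.filter fun w : Fin n → ι => (n : ℝ) * ε ≤ ∑ j, φ (w j)) ∪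
        (Finset.univ.filter fun w : Fin n → ι => (n : ℝ) * ε ≤ ∑ j, - φ (w j)), Qw q w :=
        Finset.sum_le_sum_of_subset_of_nonneg hsub fun w _ _ => Qw_nonneg hq w
    _ ≤ ∑ w : Fin n → ι with (n : ℝ) * ε ≤ ∑ j, φ (w j), Qw q w
        + ∑ w : Fin n → ι with (n : ℝ) * ε ≤ ∑ j, - φ (w j), Qw q w := by
        rw [← Finset.sum_union_inter]
        have : 0 ≤ ∑ w ∈ (Finset.univ.filter fun w : Fin n → ι => (n : ℝ) * ε ≤ ∑ j, φ (w j)) ∩
          (Finset.univ.filter fun w : Fin n → ι => (n : ℝ) * ε ≤ ∑ j, - φ (w j)), Qw q w :=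
          Finset.sum_nonneg fun w _ => Qw_nonneg hq w
        linarith
    _ ≤ r ^ n + r' ^ n := add_le_add (hr n) (hr' n)
    _ ≤ 1 / 8 := by linarith

theorem sum_cnt [DecidableEq ι] {n : ℕ} (f : ι → ℝ) (w : Fin n → ι) :
    ∑ j, f (w j) = ∑ i, ((Finset.univ.filter fun j => w j = i).card : ℝ) * f i := by
  rw [← Finset.sum_fiberwise Finset.univ w (fun j => f (w j))]
  refine Finset.sum_congr rfl fun i _ => ?_
  rw [Finset.sum_congr rfl (g := fun _ => f i)
    (fun j hj => by rw [(Finset.mem_filter.1 hj).2])]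
  rw [Finset.sum_const, nsmul_eq_mul]

/-- the type (count vector) of a word -/
noncomputable def cnt [DecidableEq ι] {n : ℕ} (w : Fin n → ι) : ι → Fin (n + 1) := fun i =>
  ⟨(Finset.univ.filter fun j => w j = i).card, by
    have := Finset.card_le_univ (Finset.univ.filter fun j => w j = i)
    simp at this
    omega⟩

theorem cnt_sum [DecidableEq ι] {n : ℕ} (f : ι → ℝ) {w w' : Fin n → ι} (h : cnt w = cnt w') :
    ∑ j, f (w j) = ∑ j, f (w' j) := by
  rw [sum_cnt, sum_cnt]
  refine Finset.sum_congr rfl fun i _ => ?_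
  have := congrArg (fun x : Fin (n + 1) => (x : ℕ)) (congrFun h i)
  simp only [cnt] at this
  rw [this]

theorem exists_class [DecidableEq ι] {n : ℕ} (q : ι → ℝ) (T : Finset (Fin n → ι))
    (hT : 1 / 2 ≤ ∑ w ∈ T, Qw q w) :
    ∃ W ⊆ T, (∀ w ∈ W, ∀ w' ∈ W, cnt w = cnt w') ∧
      1 / (2 * ((n : ℝ) + 1) ^ Fintype.card ι) ≤ ∑ w ∈ W, Qw q w := by
  classical
  have h1 : ∑ _t : ι → Fin (n + 1), 1 / (2 * ((n : ℝ) + 1) ^ Fintype.card ι)
      ≤ ∑ t : ι → Fin (n + 1), ∑ w ∈ T with cnt w = t, Qw q w := by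
    rw [Finset.sum_fiberwise T cnt (fun w => Qw q w)]
    refine le_trans (le_of_eq ?_) hT
    rw [Finset.sum_const, nsmul_eq_mul, Finset.card_univ, Fintype.card_fun, Fintype.card_fin]
    push_cast
    field_simp
  obtain ⟨t, -, ht⟩ := Finset.exists_le_of_sum_le ⟨fun _ => 0, Finset.mem_univ _⟩ h1
  refine ⟨T.filter (fun w => cnt w = t), Finset.filter_subset _ _, ?_, ht⟩
  intro w hw w' hw'
  rw [(Finset.mem_filter.1 hw).2, (Finset.mem_filter.1 hw').2]

omit [Fintype α] in
theorem fibre_le [DecidableEq α] (col : ι → α) (q : ι → ℝ) (hq : ∀ i, 0 ≤ q i) {n : ℕ}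
    (W : Finset (Fin n → ι)) (u : Fin n → α) :
    ∑ w ∈ W.filter (fun w => ∀ j, col (w j) = u j),
      ∏ j, (q (w j) / ∑ i with col i = u j, q i) ≤ 1 := by
  classical
  calc ∑ w ∈ W.filter (fun w => ∀ j, col (w j) = u j),
        ∏ j, (q (w j) / ∑ i with col i = u j, q i)
      ≤ ∑ w ∈ Fintype.piFinset (fun j => Finset.univ.filter fun i => col i = u j),
        ∏ j, (q (w j) / ∑ i with col i = u j, q i) := by
        refine Finset.sum_le_sum_of_subset_of_nonneg ?_ ?_
        · intro w hw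
          rw [Fintype.mem_piFinset]
          intro j
          simpa using (Finset.mem_filter.1 hw).2 j
        · intro w _ _
          exact Finset.prod_nonneg fun j _ =>
            div_nonneg (hq _) (Finset.sum_nonneg fun _ _ => hq _)
    _ = ∏ j, ∑ i with col i = u j, (q i / ∑ i with col i = u j, q i) := by
        rw [Finset.prod_univ_sum]
    _ ≤ 1 := by
        refine Finset.prod_le_one (fun j _ => ?_) (fun j _ => ?_)
        · exact Finset.sum_nonneg fun i _ => div_nonneg (hq _) (Finset.sum_nonneg fun _ _ => hq _)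
        · rw [← Finset.sum_div]
          exact div_self_le_one _

end TypesT

open TypesT in
theorem types_exist {ι α : Type*} [Fintype ι] [Fintype α] [DecidableEq α] (col : ι → α)
    (q : ι → ℝ) (hq : ∀ i, 0 < q i) (hsum : ∑ i, q i = 1)
    (f g : ι → ℝ) {ε : ℝ} (hε : 0 < ε) :
    ∀ᶠ n : ℕ in atTop, ∃ (W : Finset (Fin n → ι)) (F G : ℝ),
      (∀ w ∈ W, ∑ j, f (w j) = F ∧ ∑ j, g (w j) = G) ∧
      |F - n * ∑ i, q i * f i| ≤ n * ε ∧ |G - n * ∑ i, q i * g i| ≤ n * ε ∧
      Real.exp (n * (∑ i, Real.negMulLog (q i) - ε)) ≤ W.card ∧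
      ∀ u : Fin n → α, (((W.filter fun w => ∀ j, col (w j) = u j)).card : ℝ) ≤
        Real.exp (n * (∑ i, Real.negMulLog (q i)
          - ∑ a, Real.negMulLog (∑ i with col i = a, q i) + ε)) := by
  classical
  have hq0 : ∀ i, 0 ≤ q i := fun i => (hq i).le
  set h : ℝ := ∑ i, Real.negMulLog (q i) with hh
  set h1 : ℝ := ∑ a, Real.negMulLog (∑ i with col i = a, q i) with hh1
  have hε2 : 0 < ε / 2 := by linarith
  -- the four centred functions
  have m1 : ∑ i, q i * (f i - ∑ k, q k * f k) = 0 := by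
    simp_rw [mul_sub]
    rw [Finset.sum_sub_distrib, ← Finset.sum_mul, hsum]; ring
  have m2 : ∑ i, q i * (g i - ∑ k, q k * g k) = 0 := by
    simp_rw [mul_sub]
    rw [Finset.sum_sub_distrib, ← Finset.sum_mul, hsum]; ring
  have elog : ∑ i, q i * Real.log (q i) = - h := by
    rw [hh, ← Finset.sum_neg_distrib]
    refine Finset.sum_congr rfl fun i _ => ?_
    rw [Real.negMulLog]; ring
  have elog1 : ∑ i, q i * Real.log (∑ k with col k = col i, q k) = - h1 := by
    rw [hh1, ← Finset.sum_neg_distrib,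
      ← Finset.sum_fiberwise Finset.univ col
        (fun i => q i * Real.log (∑ k with col k = col i, q k))]
    refine Finset.sum_congr rfl fun a _ => ?_
    rw [Finset.sum_congr rfl (g := fun i => q i * Real.log (∑ k with col k = a, q k))
      (fun i hi => by rw [(Finset.mem_filter.1 hi).2])]
    rw [← Finset.sum_mul, Real.negMulLog]; ring
  have m3 : ∑ i, q i * (Real.log (q i) + h) = 0 := by
    simp_rw [mul_add]
    rw [Finset.sum_add_distrib, ← Finset.sum_mul, hsum, elog]; ring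
  have m4 : ∑ i, q i * (Real.log (q i) - Real.log (∑ k with col k = col i, q k) + (h - h1))
      = 0 := by
    simp_rw [mul_add, mul_sub]
    rw [Finset.sum_add_distrib, Finset.sum_sub_distrib, Finset.sum_sub_distrib,
      ← Finset.sum_mul, ← Finset.sum_mul, hsum, elog, elog1]; ring
  -- exponential beats polynomial
  have hpoly : ∀ᶠ n : ℕ in atTop, 2 * ((n : ℝ) + 1) ^ Fintype.card ι
      ≤ Real.exp (n * (ε / 2)) := by
    have ho := (isLittleO_pow_exp_pos_mul_atTop (k := Fintype.card ι) hε2).bound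
      (show (0 : ℝ) < Real.exp (-(ε / 2)) / 2 by positivity)
    have ht : Tendsto (fun n : ℕ => (n : ℝ) + 1) atTop atTop :=
      tendsto_atTop_add_const_right _ _ tendsto_natCast_atTop_atTop
    filter_upwards [ht.eventually ho] with n hn
    rw [Real.norm_of_nonneg (by positivity), Real.norm_of_nonneg (Real.exp_pos _).le] at hn
    calc 2 * ((n : ℝ) + 1) ^ Fintype.card ι
        ≤ 2 * (Real.exp (-(ε / 2)) / 2 * Real.exp (ε / 2 * ((n : ℝ) + 1))) := by linarith
      _ = Real.exp (-(ε / 2)) * Real.exp (ε / 2 * ((n : ℝ) + 1)) := by ring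
      _ = Real.exp (n * (ε / 2)) := by rw [← Real.exp_add]; congr 1; ring
  filter_upwards [typ q _ hq0 hsum m1 hε2, typ q _ hq0 hsum m2 hε2, typ q _ hq0 hsum m3 hε2,
    typ q _ hq0 hsum m4 hε2, hpoly] with n t1 t2 t3 t4 hp
  set T : Finset (Fin n → ι) := Finset.univ.filter fun w : Fin n → ι =>
    |∑ j, (f (w j) - ∑ k, q k * f k)| ≤ n * (ε / 2) ∧
    |∑ j, (g (w j) - ∑ k, q k * g k)| ≤ n * (ε / 2) ∧
    |∑ j, (Real.log (q (w j)) + h)| ≤ n * (ε / 2) ∧
    |∑ j, (Real.log (q (w j)) - Real.log (∑ k with col k = col (w j), q k) + (h - h1))|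
      ≤ n * (ε / 2) with hTdef
  have hT : 1 / 2 ≤ ∑ w ∈ T, Qw q w := by
    have htot : ∑ w : Fin n → ι, Qw q w = 1 := by rw [Qw_sum, hsum, one_pow]
    have hsplit := Finset.sum_filter_add_sum_filter_not Finset.univ
      (fun w : Fin n → ι => w ∈ T) (fun w => Qw q w)
    have hTT : (Finset.univ.filter fun w : Fin n → ι => w ∈ T) = T := by ext; simp
    rw [hTT, htot] at hsplit
    have hbad : ∑ w : Fin n → ι with w ∉ T, Qw q w ≤ 1 / 8 + 1 / 8 + 1 / 8 + 1 / 8 := by
      have hsub : (Finset.univ.filter fun w : Fin n → ι => w ∉ T) ⊆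
          (((Finset.univ.filter fun w : Fin n → ι =>
              ¬ |∑ j, (f (w j) - ∑ k, q k * f k)| ≤ n * (ε / 2)) ∪
          (Finset.univ.filter fun w : Fin n → ι =>
              ¬ |∑ j, (g (w j) - ∑ k, q k * g k)| ≤ n * (ε / 2))) ∪
          (Finset.univ.filter fun w : Fin n → ι =>
              ¬ |∑ j, (Real.log (q (w j)) + h)| ≤ n * (ε / 2))) ∪
          (Finset.univ.filter fun w : Fin n → ι =>
            ¬ |∑ j, (Real.log (q (w j)) - Real.log (∑ k with col k = col (w j), q k) + (h - h1))|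
              ≤ n * (ε / 2)) := by
        intro w hw
        simp only [hTdef, Finset.mem_filter, Finset.mem_univ, true_and, Finset.mem_union] at hw ⊢
        tauto
      have hun : ∀ A B : Finset (Fin n → ι), ∑ w ∈ A ∪ B, Qw q w ≤ ∑ w ∈ A, Qw q w
          + ∑ w ∈ B, Qw q w := by
        intro A B
        rw [← Finset.sum_union_inter]
        have : 0 ≤ ∑ w ∈ A ∩ B, Qw q w := Finset.sum_nonneg fun w _ => Qw_nonneg hq0 w
        linarith
      refine (Finset.sum_le_sum_of_subset_of_nonneg hsub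
        fun w _ _ => Qw_nonneg hq0 w).trans ?_
      refine (hun _ _).trans (add_le_add ((hun _ _).trans (add_le_add ((hun _ _).trans
        (add_le_add t1 t2)) t3)) t4)
    linarith
  obtain ⟨W, hWT, hWc, hWQ⟩ := exists_class q T hT
  have hden : 0 < 2 * ((n : ℝ) + 1) ^ Fintype.card ι := by positivity
  have hWpos : 0 < ∑ w ∈ W, Qw q w := lt_of_lt_of_le (by positivity) hWQ
  obtain ⟨w0, hw0⟩ : W.Nonempty := by
    rw [Finset.nonempty_iff_ne_empty]
    rintro rfl
    simp at hWpos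
  have hmem : ∀ w ∈ W, |∑ j, (f (w j) - ∑ k, q k * f k)| ≤ n * (ε / 2) ∧
    |∑ j, (g (w j) - ∑ k, q k * g k)| ≤ n * (ε / 2) ∧
    |∑ j, (Real.log (q (w j)) + h)| ≤ n * (ε / 2) ∧
    |∑ j, (Real.log (q (w j)) - Real.log (∑ k with col k = col (w j), q k) + (h - h1))|
      ≤ n * (ε / 2) := by
    intro w hw
    have := hWT hw
    rw [hTdef, Finset.mem_filter] at this
    exact this.2
  have hn2 : (n : ℝ) * (ε / 2) ≤ n * ε :=
    mul_le_mul_of_nonneg_left (by linarith) (Nat.cast_nonneg n)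
  refine ⟨W, ∑ j, f (w0 j), ∑ j, g (w0 j), ?_, ?_, ?_, ?_, ?_⟩
  · intro w hw
    exact ⟨cnt_sum f (hWc w hw w0 hw0), cnt_sum g (hWc w hw w0 hw0)⟩
  · have := (hmem w0 hw0).1
    rw [Finset.sum_sub_distrib, Finset.sum_const, Finset.card_univ, Fintype.card_fin,
      nsmul_eq_mul] at this
    exact this.trans hn2
  · have := (hmem w0 hw0).2.1
    rw [Finset.sum_sub_distrib, Finset.sum_const, Finset.card_univ, Fintype.card_fin,
      nsmul_eq_mul] at this
    exact this.trans hn2
  · have hQle : ∀ w ∈ W, Qw q w ≤ Real.exp (-(n * (h - ε / 2))) := by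
      intro w hw
      have h3 := (abs_le.1 (hmem w hw).2.2.1).2
      rw [Finset.sum_add_distrib, Finset.sum_const, Finset.card_univ, Fintype.card_fin,
        nsmul_eq_mul] at h3
      have e : Qw q w = Real.exp (∑ j, Real.log (q (w j))) := by
        rw [Real.exp_sum]
        exact Finset.prod_congr rfl fun j _ => (Real.exp_log (hq _)).symm
      rw [e]
      exact Real.exp_le_exp.2 (by linarith)
    have h5 : ∑ w ∈ W, Qw q w ≤ W.card * Real.exp (-(n * (h - ε / 2))) := by
      calc ∑ w ∈ W, Qw q w ≤ ∑ _w ∈ W, Real.exp (-(n * (h - ε / 2))) :=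
            Finset.sum_le_sum hQle
        _ = _ := by rw [Finset.sum_const, nsmul_eq_mul]
    have h6 : Real.exp (-(n * (ε / 2))) ≤ W.card * Real.exp (-(n * (h - ε / 2))) := by
      refine le_trans ?_ (hWQ.trans h5)
      rw [Real.exp_neg, ← one_div]
      exact one_div_le_one_div_of_le hden hp
    have e7 : Real.exp (n * (h - ε)) = Real.exp (-(n * (ε / 2))) * Real.exp (n * (h - ε / 2)) := by
      rw [← Real.exp_add]; congr 1; ring
    rw [e7]
    calc Real.exp (-(n * (ε / 2))) * Real.exp (n * (h - ε / 2))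
        ≤ (W.card * Real.exp (-(n * (h - ε / 2)))) * Real.exp (n * (h - ε / 2)) :=
          mul_le_mul_of_nonneg_right h6 (Real.exp_pos _).le
      _ = W.card := by
          rw [mul_assoc, ← Real.exp_add]; simp
  · intro u
    have h8 := fibre_le col q hq0 W u
    have h9 : ∀ w ∈ W.filter (fun w => ∀ j, col (w j) = u j),
        Real.exp (-(n * (h - h1 + ε))) ≤ ∏ j, (q (w j) / ∑ i with col i = u j, q i) := by
      intro w hw
      obtain ⟨hwW, hwu⟩ := Finset.mem_filter.1 hw
      have h3 := (abs_le.1 (hmem w hwW).2.2.2).1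
      rw [Finset.sum_add_distrib, Finset.sum_const, Finset.card_univ, Fintype.card_fin,
        nsmul_eq_mul] at h3
      have e : ∏ j, (q (w j) / ∑ i with col i = u j, q i)
          = Real.exp (∑ j, (Real.log (q (w j)) - Real.log (∑ k with col k = col (w j), q k))) := by
        rw [Real.exp_sum]
        refine Finset.prod_congr rfl fun j _ => ?_
        have hpos : 0 < ∑ k with col k = col (w j), q k :=
          Finset.sum_pos (fun k _ => hq k) ⟨w j, by simp⟩
        rw [Real.exp_sub, Real.exp_log (hq _), Real.exp_log hpos, hwu j]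
      rw [e]
      exact Real.exp_le_exp.2 (by linarith)
    have h10 : ((W.filter (fun w => ∀ j, col (w j) = u j)).card : ℝ)
        * Real.exp (-(n * (h - h1 + ε))) ≤ 1 := by
      refine le_trans ?_ h8
      rw [← nsmul_eq_mul, ← Finset.sum_const]
      exact Finset.sum_le_sum h9
    calc ((W.filter (fun w => ∀ j, col (w j) = u j)).card : ℝ)
        = ((W.filter (fun w => ∀ j, col (w j) = u j)).card : ℝ)
          * Real.exp (-(n * (h - h1 + ε))) * Real.exp (n * (h - h1 + ε)) := by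
          rw [mul_assoc, ← Real.exp_add]; simp
      _ ≤ 1 * Real.exp (n * (h - h1 + ε)) :=
          mul_le_mul_of_nonneg_right h10 (Real.exp_pos _).le
      _ = _ := one_mul _

end CarpetM
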