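import Mathlib
import Pool.Agent.CarpetM.Lower
import Pool.Agent.CarpetM.Homog
import Pool.Agent.CarpetM.Types

open MeasureTheory Filter Topology Set
open scoped ENNReal NNReal BigOperators

set_option linter.unusedSectionVars false

namespace CarpetM

namespace Sys

variable {α β : Type*} (S : Sys α β)

/-- Horizontal offset of a column word. -/
def offL : List α → ℝ
  | [] => 0
  | a :: L => S.c a * offL L + S.u a

/-- Width of a column word. -/
def prodL (L : List α) : ℝ := (L.map S.c).prod

/-- Composition of the maps of a word. -/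
def mapL : List (α × β) → ℝ × ℝ → ℝ × ℝ
  | [], p => p
  | i :: L, p => S.map i (mapL L p)

theorem prodL_pos (L : List α) : 0 < S.prodL L := by
  induction L with
  | nil => simp [prodL]
  | cons a L ih =>
    have := S.hc0 a
    simp only [prodL, List.map_cons, List.prod_cons] at ih ⊢
    positivity

theorem prodL_cons (a : α) (L : List α) : S.prodL (a :: L) = S.c a * S.prodL L := by
  simp [prodL]

theorem offL_nonneg (L : List α) : 0 ≤ S.offL L := by
  induction L with
  | nil => exact le_rfl
  | cons a L ih =>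
    have := (S.hc0 a).le
    have := S.hu0 a
    simp only [offL]; positivity

theorem offL_add_le (L : List α) : S.offL L + S.prodL L ≤ 1 := by
  induction L with
  | nil => simp [offL, prodL]
  | cons a L ih =>
    have h1 := (S.hc0 a).le
    have h2 := S.hu1 a
    rw [prodL_cons]
    simp only [offL]
    calc S.c a * S.offL L + S.u a + S.c a * S.prodL L
        = S.c a * (S.offL L + S.prodL L) + S.u a := by ring
      _ ≤ S.c a * 1 + S.u a := by gcongr
      _ ≤ 1 := by linarith

theorem offL_sep {L L' : List α} (hlen : L.length = L'.length) (hne : L ≠ L') :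
    S.offL L + S.prodL L ≤ S.offL L' ∨ S.offL L' + S.prodL L' ≤ S.offL L := by
  induction L generalizing L' with
  | nil =>
    cases L' with
    | nil => exact absurd rfl hne
    | cons a' L' => simp at hlen
  | cons a L ih =>
    cases L' with
    | nil => simp at hlen
    | cons a' L' =>
      simp only [List.length_cons, Nat.add_right_cancel_iff] at hlen
      have h1 := (S.hc0 a)
      have h2 := (S.hc0 a')
      have h3 := S.offL_add_le L
      have h4 := S.offL_add_le L'
      have h5 := S.offL_nonneg L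
      have h6 := S.offL_nonneg L'
      rw [prodL_cons, prodL_cons]
      simp only [offL]
      by_cases haa : a = a'
      · subst haa
        have hne' : L ≠ L' := fun h => hne (by rw [h])
        rcases ih hlen hne' with h | h
        · left; nlinarith
        · right; nlinarith
      · rcases S.hu a a' haa with h | h
        · left
          have e1 : S.c a * (S.offL L + S.prodL L) ≤ S.c a * 1 := by gcongr
          have e2 : 0 ≤ S.c a' * S.offL L' := by positivity
          linarith
        · right
          have e1 : S.c a' * (S.offL L' + S.prodL L') ≤ S.c a' * 1 := by gcongr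
          have e2 : 0 ≤ S.c a * S.offL L := by positivity
          linarith

theorem mapL_eq (L : List (α × β)) (p : ℝ × ℝ) :
    S.mapL L p = (S.prodL (L.map Prod.fst) * p.1 + S.offL (L.map Prod.fst),
      S.swap.prodL (L.map Prod.snd) * p.2 + S.swap.offL (L.map Prod.snd)) := by
  induction L with
  | nil => simp [mapL, prodL, offL]
  | cons i L ih =>
    simp only [mapL, ih, map, List.map_cons, prodL_cons, offL]
    simp only [swap]
    ext
    · simp only; ring
    · simp only; ring

theorem mapL_mem {K : Set (ℝ × ℝ)} (hK : ∀ i ∈ S.I, ∀ p ∈ K, S.map i p ∈ K) {L : List (α × β)}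
    (hL : ∀ i ∈ L, i ∈ S.I) {p : ℝ × ℝ} (hp : p ∈ K) : S.mapL L p ∈ K := by
  induction L with
  | nil => exact hp
  | cons i L ih =>
    simp only [List.mem_cons, forall_eq_or_imp] at hL
    exact hK i hL.1 _ (ih hL.2)

variable [DecidableEq α] [DecidableEq β]

/-- Entropy. -/
noncomputable def ent (q : α × β → ℝ) : ℝ := ∑ i ∈ S.I, Real.negMulLog (q i)

/-- Entropy of the column marginal. -/
noncomputable def ent1 (q : α × β → ℝ) : ℝ :=
  ∑ a ∈ S.cols, Real.negMulLog (∑ i ∈ S.colIdx a, q i)

/-- Horizontal Lyapunov exponent. -/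
noncomputable def lam1 (q : α × β → ℝ) : ℝ := - ∑ i ∈ S.I, q i * Real.log (S.c i.1)

/-- Vertical Lyapunov exponent. -/
noncomputable def lam2 (q : α × β → ℝ) : ℝ := - ∑ i ∈ S.I, q i * Real.log (S.d i.2)

theorem lam1_pos {q : α × β → ℝ} (hq : ∀ i ∈ S.I, 0 < q i) : 0 < S.lam1 q := by
  rw [lam1, ← Finset.sum_neg_distrib]
  apply Finset.sum_pos _ S.hI
  intro i hi
  have := Real.log_neg (S.hc0 i.1) (S.hc1 i.1)
  have := hq i hi
  nlinarith

theorem lam2_pos {q : α × β → ℝ} (hq : ∀ i ∈ S.I, 0 < q i) : 0 < S.lam2 q := by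
  rw [lam2, ← Finset.sum_neg_distrib]
  apply Finset.sum_pos _ S.hI
  intro i hi
  have := Real.log_neg (S.hd0 i.2) (S.hd1 i.2)
  have := hq i hi
  nlinarith

theorem log_prodL_ofFn {n : ℕ} (w : Fin n → α) :
    S.prodL (List.ofFn w) = Real.exp (∑ j, Real.log (S.c (w j))) := by
  rw [Real.exp_sum, prodL, List.map_ofFn, List.prod_ofFn]
  refine Finset.prod_congr rfl fun j _ => ?_
  simp only [Function.comp]
  rw [Real.exp_log (S.hc0 _)]

/-- The approximate bound for a given `ε`. -/
theorem LY_approx [Fintype α] [Fintype β] {K : Set (ℝ × ℝ)} (hKc : IsCompact K)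
    (hKne : K.Nonempty)
    (hK : ∀ i ∈ S.I, ∀ p ∈ K, S.map i p ∈ K) {q : α × β → ℝ} (hq : ∀ i ∈ S.I, 0 < q i)
    (hsum : ∑ i ∈ S.I, q i = 1) (hlam : S.lam1 q ≤ S.lam2 q) {ε : ℝ} (hε : 0 < ε) :
    ENNReal.ofReal (max 0 (S.ent1 q - 2 * ε) / (S.lam1 q + ε) +
      (S.ent q - ε - max 0 (S.ent1 q - 2 * ε)) / (S.lam2 q + ε)) ≤ dimH K := by
  classical
  -- apply the types theorem on the subtype of indices
  have hsum' : ∑ i : S.I, q i = 1 := by
    rw [← hsum]; exact Finset.sum_coe_sort S.I q
  have hT := types_exist (ι := S.I) (α := α) (fun i => i.1.1) (fun i => q i.1)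
    (fun i => hq i.1 i.2) hsum' (fun i => Real.log (S.c i.1.1)) (fun i => Real.log (S.d i.1.2)) hε
  obtain ⟨n, hn, hn1⟩ := (hT.and (eventually_ge_atTop 1)).exists
  obtain ⟨W, F, G, hFG, hF, hG, hcard, hfib⟩ := hn
  have e1 : ∑ i : S.I, Real.negMulLog (q i) = S.ent q :=
    Finset.sum_coe_sort S.I (fun i => Real.negMulLog (q i))
  have e2 : ∑ i : S.I, q i * Real.log (S.c i.1.1) = - S.lam1 q := by
    rw [lam1, neg_neg]; exact Finset.sum_coe_sort S.I (fun i => q i * Real.log (S.c i.1))
  have e3 : ∑ i : S.I, q i * Real.log (S.d i.1.2) = - S.lam2 q := by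
    rw [lam2, neg_neg]; exact Finset.sum_coe_sort S.I (fun i => q i * Real.log (S.d i.2))
  have e4 : ∑ a, Real.negMulLog (∑ i : S.I with i.1.1 = a, q i) = S.ent1 q := by
    rw [ent1]
    have h1 : ∀ a, ∑ i : S.I with i.1.1 = a, q i = ∑ i ∈ S.colIdx a, q i := by
      intro a
      rw [colIdx, Finset.sum_filter, Finset.sum_filter]
      exact Finset.sum_coe_sort S.I (fun i => if i.1 = a then q i else 0)
    simp only [h1]
    symm
    apply Finset.sum_subset (Finset.subset_univ _)
    intro a _ ha
    have : S.colIdx a = ∅ := by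
      rw [Finset.eq_empty_iff_forall_notMem]
      rintro ⟨a', b⟩ hi
      obtain ⟨h1, h2⟩ := S.mem_colIdx.1 hi
      simp only at h2
      subst h2
      exact ha (S.mem_cols.2 ⟨b, h1⟩)
    rw [this, Finset.sum_empty, Real.negMulLog_zero]
  rw [e1] at hcard
  rw [e1, e4] at hfib
  rw [e2] at hF
  rw [e3] at hG
  have hn0 : (0 : ℝ) < n := by exact_mod_cast hn1
  have hWpos : 0 < W.card := by
    have : (0 : ℝ) < W.card := lt_of_lt_of_le (Real.exp_pos _) hcard
    exact_mod_cast this
  obtain ⟨w0, hw0⟩ := Finset.card_pos.1 hWpos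
  have : Nonempty {w // w ∈ W} := ⟨⟨w0, hw0⟩⟩
  have hF0 : F < 0 := by
    rw [← (hFG w0 hw0).1]
    have : Nonempty (Fin n) := ⟨⟨0, hn1⟩⟩
    apply Finset.sum_neg
    · intro j _; exact Real.log_neg (S.hc0 _) (S.hc1 _)
    · exact Finset.univ_nonempty
  have hG0 : G < 0 := by
    rw [← (hFG w0 hw0).2]
    have : Nonempty (Fin n) := ⟨⟨0, hn1⟩⟩
    apply Finset.sum_neg
    · intro j _; exact Real.log_neg (S.hd0 _) (S.hd1 _)
    · exact Finset.univ_nonempty
  set C := Real.exp F with hC
  set D := Real.exp G with hD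
  set colW : (Fin n → S.I) → List α := fun w => List.ofFn fun j => (w j).1.1 with hcolW
  set rowW : (Fin n → S.I) → List β := fun w => List.ofFn fun j => (w j).1.2 with hrowW
  have hprodC : ∀ w ∈ W, S.prodL (colW w) = C := by
    intro w hw
    rw [hcolW]; simp only
    rw [S.log_prodL_ofFn, (hFG w hw).1]
  have hprodD : ∀ w ∈ W, S.swap.prodL (rowW w) = D := by
    intro w hw
    rw [hrowW]; simp only
    rw [S.swap.log_prodL_ofFn]
    exact congrArg Real.exp (hFG w hw).2
  have hcollen : ∀ w, (colW w).length = n := by intro w; simp [hcolW]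
  have hrowlen : ∀ w, (rowW w).length = n := by intro w; simp [hrowW]
  have hcolsep : ∀ w ∈ W, ∀ w' ∈ W, colW w ≠ colW w' →
      C ≤ |S.offL (colW w) - S.offL (colW w')| := by
    intro w hw w' hw' hne
    rcases S.offL_sep ((hcollen w).trans (hcollen w').symm) hne with h | h
    · rw [hprodC w hw] at h
      rw [abs_sub_comm]
      exact le_trans (by linarith) (le_abs_self _)
    · rw [hprodC w' hw'] at h
      exact le_trans (by linarith) (le_abs_self _)
  have hrowsep : ∀ w ∈ W, ∀ w' ∈ W, rowW w ≠ rowW w' →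
      D ≤ |S.swap.offL (rowW w) - S.swap.offL (rowW w')| := by
    intro w hw w' hw' hne
    rcases S.swap.offL_sep ((hrowlen w).trans (hrowlen w').symm) hne with h | h
    · rw [hprodD w hw] at h
      rw [abs_sub_comm]
      exact le_trans (by linarith) (le_abs_self _)
    · rw [hprodD w' hw'] at h
      exact le_trans (by linarith) (le_abs_self _)
  have hC0 : 0 < C := Real.exp_pos _
  have hD0 : 0 < D := Real.exp_pos _
  have hcoleq : ∀ w ∈ W, ∀ w' ∈ W, S.offL (colW w) = S.offL (colW w') → colW w = colW w' := by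
    intro w hw w' hw' h
    by_contra hne
    have := hcolsep w hw w' hw' hne
    rw [h, sub_self, abs_zero] at this
    linarith
  have hroweq : ∀ w ∈ W, ∀ w' ∈ W, S.swap.offL (rowW w) = S.swap.offL (rowW w') →
      rowW w = rowW w' := by
    intro w hw w' hw' h
    by_contra hne
    have := hrowsep w hw w' hw' hne
    rw [h, sub_self, abs_zero] at this
    linarith
  set m := max 0 (S.ent1 q - 2 * ε) with hm
  have hm0 : 0 ≤ m := le_max_left _ _
  have hcardW : (Fintype.card {w // w ∈ W} : ℝ) = W.card := by simp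
  have main := homog_dimH (W := {w // w ∈ W}) (fun w => S.offL (colW w.1))
    (fun w => S.swap.offL (rowW w.1)) (C := C) (D := D) hC0
    (by rw [hC]; exact Real.exp_lt_one_iff.2 hF0) hD0 (by rw [hD]; exact Real.exp_lt_one_iff.2 hG0)
    (fun w => S.offL_nonneg _)
    (fun w => by
      have := S.offL_add_le (colW w.1)
      rwa [hprodC w.1 w.2] at this)
    (fun w => S.swap.offL_nonneg _)
    (fun w => by
      have := S.swap.offL_add_le (rowW w.1)
      rwa [hprodD w.1 w.2] at this)
    (fun w w' hne => hcolsep w.1 w.2 w'.1 w'.2 (fun h => hne (by simp only [h])))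
    (fun w w' hne => hrowsep w.1 w.2 w'.1 w'.2 (fun h => hne (by simp only [h])))
    (fun w w' h1 h2 => by
      have h3 := hcoleq w.1 w.2 w'.1 w'.2 h1
      have h4 := hroweq w.1 w.2 w'.1 w'.2 h2
      apply Subtype.ext
      funext j
      apply Subtype.ext
      have h5 := congrFun (List.ofFn_injective h3) j
      have h6 := congrFun (List.ofFn_injective h4) j
      exact Prod.ext h5 h6)
    (M := Real.exp (n * m)) (Real.one_le_exp (by positivity))
    (fun w => by
      rw [hcardW]
      have hle : ∀ (hw : w.1 ∈ W), (Nat.card {w' : {w // w ∈ W} //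
          S.offL (colW w'.1) = S.offL (colW w.1)} : ℝ) ≤
          ((W.filter fun w' => ∀ j, (w' j).1.1 = (w.1 j).1.1)).card := by
        intro hw
        have : Nat.card {w' : {w // w ∈ W} // S.offL (colW w'.1) = S.offL (colW w.1)} ≤
            Nat.card {w' // w' ∈ W.filter fun w' => ∀ j, (w' j).1.1 = (w.1 j).1.1} := by
          refine Nat.card_le_card_of_injective (fun w' => ⟨w'.1.1, ?_⟩) ?_
          · rw [Finset.mem_filter]
            refine ⟨w'.1.2, ?_⟩
            have := hcoleq w'.1.1 w'.1.2 w.1 w.2 w'.2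
            intro j
            exact congrFun (List.ofFn_injective this) j
          · intro x y h
            simp only [Subtype.mk.injEq] at h
            exact Subtype.ext (Subtype.ext h)
        rw [Nat.card_eq_fintype_card (α := {w' // w' ∈ W.filter
          fun w' => ∀ j, (w' j).1.1 = (w.1 j).1.1}), Fintype.card_coe] at this
        exact_mod_cast this
      rcases le_or_gt (S.ent1 q - 2 * ε) 0 with hle0 | hgt0
      · rw [hm, max_eq_left hle0, mul_zero, Real.exp_zero, mul_one]
        refine (hle w.2).trans ?_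
        exact_mod_cast Finset.card_filter_le _ _
      · rw [hm, max_eq_right hgt0.le]
        refine le_trans ?_ hcard
        calc _ ≤ Real.exp (n * (S.ent q - S.ent1 q + ε)) * Real.exp (n * (S.ent1 q - 2 * ε)) := by
              gcongr
              exact (hle w.2).trans (hfib _)
          _ = Real.exp (n * (S.ent q - ε)) := by rw [← Real.exp_add]; congr 1; ring)
    K hKc hKne
    (fun w p hp => by
      have h1 := S.mapL_mem hK (L := List.ofFn fun j => (w.1 j).1) (by
        intro i hi
        rw [List.mem_ofFn] at hi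
        obtain ⟨j, rfl⟩ := hi
        exact (w.1 j).2) hp
      rw [S.mapL_eq, List.map_ofFn, List.map_ofFn] at h1
      have h2 : S.prodL (List.ofFn (Prod.fst ∘ fun j => (w.1 j).1)) = C := hprodC w.1 w.2
      have h3 : S.swap.prodL (List.ofFn (Prod.snd ∘ fun j => (w.1 j).1)) = D := hprodD w.1 w.2
      rw [h2, h3] at h1
      exact h1)
  refine le_trans (ENNReal.ofReal_le_ofReal ?_) main
  rw [hcardW, Real.log_exp]
  have hlogC : Real.log C = F := by rw [hC, Real.log_exp]
  have hlogmin : - Real.log (min C D) ≤ n * (S.lam2 q + ε) := by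
    rcases min_choice C D with h | h
    · rw [h, hlogC]
      have := (abs_le.1 hF).1
      nlinarith
    · rw [h, hD, Real.log_exp]
      have := (abs_le.1 hG).1
      nlinarith
  have hlogmin0 : 0 < - Real.log (min C D) := by
    have : Real.log (min C D) < 0 := by
      apply Real.log_neg (lt_min hC0 hD0)
      exact lt_of_le_of_lt (min_le_left _ _) (by rw [hC]; exact Real.exp_lt_one_iff.2 hF0)
    linarith
  have hlogC' : - Real.log C ≤ n * (S.lam1 q + ε) := by
    rw [hlogC]
    have := (abs_le.1 hF).1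
    nlinarith
  have hlogC0 : 0 < - Real.log C := by rw [hlogC]; linarith
  have hlogW : n * (S.ent q - ε) ≤ Real.log W.card := by
    rw [Real.le_log_iff_exp_le (by exact_mod_cast hWpos)]
    exact hcard
  -- M ≤ |W|
  have hMW : n * m ≤ Real.log W.card := by
    rw [Real.le_log_iff_exp_le (by exact_mod_cast hWpos)]
    rcases le_or_gt (S.ent1 q - 2 * ε) 0 with hle0 | hgt0
    · rw [hm, max_eq_left hle0, mul_zero, Real.exp_zero]
      exact_mod_cast hWpos
    · rw [hm, max_eq_right hgt0.le]
      have h1 := hfib (fun j => (w0 j).1.1)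
      have h2 : (1 : ℝ) ≤ ((W.filter fun w' => ∀ j, (w' j).1.1 = (w0 j).1.1)).card := by
        have : 0 < ((W.filter fun w' => ∀ j, (w' j).1.1 = (w0 j).1.1)).card :=
          Finset.card_pos.2 ⟨w0, by simp [hw0]⟩
        exact_mod_cast this
      have h3 : (1 : ℝ) ≤ Real.exp (n * (S.ent q - S.ent1 q + ε)) := h2.trans h1
      calc Real.exp (n * (S.ent1 q - 2 * ε))
          = 1 * Real.exp (n * (S.ent1 q - 2 * ε)) := (one_mul _).symm
        _ ≤ Real.exp (n * (S.ent q - S.ent1 q + ε)) * Real.exp (n * (S.ent1 q - 2 * ε)) := by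
            gcongr
        _ = Real.exp (n * (S.ent q - ε)) := by rw [← Real.exp_add]; congr 1; ring
        _ ≤ W.card := hcard
  have hl1 := S.lam1_pos hq
  have hl2 := S.lam2_pos hq
  have t1 : m / (S.lam1 q + ε) ≤ n * m / (- Real.log C) := by
    rw [div_le_div_iff₀ (by linarith) hlogC0]
    calc m * (- Real.log C) ≤ m * (n * (S.lam1 q + ε)) := by gcongr
      _ = n * m * (S.lam1 q + ε) := by ring
  have t2 : (S.ent q - ε - m) / (S.lam2 q + ε) ≤
      (Real.log W.card - n * m) / (- Real.log (min C D)) := by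
    have h0 : 0 ≤ Real.log W.card - n * m := by linarith
    calc (S.ent q - ε - m) / (S.lam2 q + ε)
        = (n * (S.ent q - ε) - n * m) / (n * (S.lam2 q + ε)) := by field_simp
      _ ≤ (Real.log W.card - n * m) / (n * (S.lam2 q + ε)) := by gcongr
      _ ≤ _ := by gcongr
  linarith

/-- The Ledrappier-Young type lower bound for the Hausdorff dimension. -/
theorem LY [Fintype α] [Fintype β] {K : Set (ℝ × ℝ)} (hKc : IsCompact K) (hKne : K.Nonempty)
    (hK : ∀ i ∈ S.I, ∀ p ∈ K, S.map i p ∈ K) {q : α × β → ℝ} (hq : ∀ i ∈ S.I, 0 < q i)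
    (hsum : ∑ i ∈ S.I, q i = 1) (hlam : S.lam1 q ≤ S.lam2 q) (hent : 0 ≤ S.ent1 q) :
    ENNReal.ofReal (S.ent1 q / S.lam1 q + (S.ent q - S.ent1 q) / S.lam2 q) ≤ dimH K := by
  have hl1 := S.lam1_pos hq
  have hl2 := S.lam2_pos hq
  have hlim : Tendsto (fun ε : ℝ => ENNReal.ofReal (max 0 (S.ent1 q - 2 * ε) / (S.lam1 q + ε) +
      (S.ent q - ε - max 0 (S.ent1 q - 2 * ε)) / (S.lam2 q + ε))) (𝓝[>] 0)
      (𝓝 (ENNReal.ofReal (S.ent1 q / S.lam1 q + (S.ent q - S.ent1 q) / S.lam2 q))) := by
    have hc : ContinuousAt (fun ε : ℝ => ENNReal.ofReal (max 0 (S.ent1 q - 2 * ε) / (S.lam1 q + ε) +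
      (S.ent q - ε - max 0 (S.ent1 q - 2 * ε)) / (S.lam2 q + ε))) 0 := by
      apply ENNReal.continuous_ofReal.continuousAt.comp
      apply ContinuousAt.add
      · apply ContinuousAt.div (by fun_prop) (by fun_prop)
        simp [hl1.ne']
      · apply ContinuousAt.div (by fun_prop) (by fun_prop)
        simp [hl2.ne']
    have h0 := hc.tendsto
    simp only [mul_zero, sub_zero, add_zero, max_eq_right hent] at h0
    exact h0.mono_left nhdsWithin_le_nhds
  refine le_of_tendsto hlim ?_
  filter_upwards [self_mem_nhdsWithin] with ε hε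
  exact S.LY_approx hKc hKne hK hq hsum hlam hε

end Sys

end CarpetM
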