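import Mathlib
import Pool.Agent.CarpetM.LY
import Pool.Agent.CarpetM.DimCover

open MeasureTheory Filter Topology Set
open scoped ENNReal NNReal BigOperators

set_option linter.unusedSectionVars false

namespace CarpetM

namespace Sys

variable {α β : Type*} (S : Sys α β) [DecidableEq α] [DecidableEq β]

theorem sum_fiber (f : α × β → ℝ) : ∑ i ∈ S.I, f i = ∑ a ∈ S.cols, ∑ i ∈ S.colIdx a, f i := by
  symm
  exact Finset.sum_fiberwise_of_maps_to (fun i hi => Finset.mem_image_of_mem _ hi) f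

theorem ent_eq {q : α × β → ℝ} {t : ℝ} {σ : α → ℝ}
    (hq : ∀ i ∈ S.I, q i = S.c i.1 ^ t * S.d i.2 ^ σ i.1) :
    S.ent q = t * S.lam1 q + ∑ i ∈ S.I, q i * (σ i.1 * (-Real.log (S.d i.2))) := by
  rw [ent, lam1, ← Finset.sum_neg_distrib, Finset.mul_sum, ← Finset.sum_add_distrib]
  refine Finset.sum_congr rfl fun i hi => ?_
  have hc := S.hc0 i.1
  have hd := S.hd0 i.2
  have h1 : Real.log (q i) = t * Real.log (S.c i.1) + σ i.1 * Real.log (S.d i.2) := by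
    rw [hq i hi, Real.log_mul (by positivity) (by positivity), Real.log_rpow hc, Real.log_rpow hd]
  rw [Real.negMulLog, h1]
  ring

theorem ent1_eq {q : α × β → ℝ} {t : ℝ} {σ : α → ℝ}
    (hq : ∀ i ∈ S.I, q i = S.c i.1 ^ t * S.d i.2 ^ σ i.1)
    (hσ : ∀ a ∈ S.cols, ∑ i ∈ S.colIdx a, S.d i.2 ^ σ a = 1) :
    S.ent1 q = t * S.lam1 q := by
  have hcol : ∀ a ∈ S.cols, ∑ i ∈ S.colIdx a, q i = S.c a ^ t := by
    intro a ha
    have : ∀ i ∈ S.colIdx a, q i = S.c a ^ t * S.d i.2 ^ σ a := by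
      intro i hi
      obtain ⟨h1, h2⟩ := S.mem_colIdx.1 hi
      rw [hq i h1, h2]
    rw [Finset.sum_congr rfl this, ← Finset.mul_sum, hσ a ha, mul_one]
  rw [ent1, lam1, S.sum_fiber, ← Finset.sum_neg_distrib, Finset.mul_sum]
  refine Finset.sum_congr rfl fun a ha => ?_
  have hc := S.hc0 a
  have h1 : ∑ i ∈ S.colIdx a, q i * Real.log (S.c i.1) = S.c a ^ t * Real.log (S.c a) := by
    rw [← hcol a ha, Finset.sum_mul]
    refine Finset.sum_congr rfl fun i hi => ?_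
    rw [(S.mem_colIdx.1 hi).2]
  rw [h1, hcol a ha, Real.negMulLog, Real.log_rpow hc]
  ring

theorem sum_q_eq {q : α × β → ℝ} {t : ℝ} {σ : α → ℝ}
    (hq : ∀ i ∈ S.I, q i = S.c i.1 ^ t * S.d i.2 ^ σ i.1)
    (hσ : ∀ a ∈ S.cols, ∑ i ∈ S.colIdx a, S.d i.2 ^ σ a = 1) :
    ∑ i ∈ S.I, q i = ∑ a ∈ S.cols, S.c a ^ t := by
  rw [S.sum_fiber]
  refine Finset.sum_congr rfl fun a ha => ?_
  have : ∀ i ∈ S.colIdx a, q i = S.c a ^ t * S.d i.2 ^ σ a := by
    intro i hi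
    obtain ⟨h1, h2⟩ := S.mem_colIdx.1 hi
    rw [hq i h1, h2]
  rw [Finset.sum_congr rfl this, ← Finset.mul_sum, hσ a ha, mul_one]

/-- The lower bound for measures of the form `c^t d^σ`. -/
theorem LY_sigma [Fintype α] [Fintype β] {K : Set (ℝ × ℝ)} (hKc : IsCompact K) (hKne : K.Nonempty)
    (hK : ∀ i ∈ S.I, ∀ p ∈ K, S.map i p ∈ K) {q : α × β → ℝ} {t : ℝ} (ht : 0 ≤ t) {σ : α → ℝ}
    (hq : ∀ i ∈ S.I, q i = S.c i.1 ^ t * S.d i.2 ^ σ i.1)
    (hcols : ∑ a ∈ S.cols, S.c a ^ t = 1)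
    (hσ : ∀ a ∈ S.cols, ∑ i ∈ S.colIdx a, S.d i.2 ^ σ a = 1)
    (hlam : S.lam1 q ≤ S.lam2 q) :
    ENNReal.ofReal (t + (∑ i ∈ S.I, q i * (σ i.1 * (-Real.log (S.d i.2)))) / S.lam2 q) ≤
      dimH K := by
  have hq0 : ∀ i ∈ S.I, 0 < q i := by
    intro i hi
    have := S.hc0 i.1
    have := S.hd0 i.2
    rw [hq i hi]; positivity
  have hl1 := S.lam1_pos hq0
  have hl2 := S.lam2_pos hq0
  have h := S.LY hKc hKne hK hq0 ((S.sum_q_eq hq hσ).trans hcols) hlam (by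
    rw [S.ent1_eq hq hσ]; positivity)
  rw [S.ent1_eq hq hσ, S.ent_eq hq] at h
  refine le_trans (ENNReal.ofReal_le_ofReal (le_of_eq ?_)) h
  field_simp
  ring

/-- The case of constant exponent. -/
theorem LY_const [Fintype α] [Fintype β] {K : Set (ℝ × ℝ)} (hKc : IsCompact K) (hKne : K.Nonempty)
    (hK : ∀ i ∈ S.I, ∀ p ∈ K, S.map i p ∈ K) {q : α × β → ℝ} {t s : ℝ} (ht : 0 ≤ t)
    (hq : ∀ i ∈ S.I, q i = S.c i.1 ^ t * S.d i.2 ^ s)
    (hcols : ∑ a ∈ S.cols, S.c a ^ t = 1)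
    (hσ : ∀ a ∈ S.cols, ∑ i ∈ S.colIdx a, S.d i.2 ^ s = 1)
    (hlam : S.lam1 q ≤ S.lam2 q) :
    ENNReal.ofReal (t + s) ≤ dimH K := by
  have hq0 : ∀ i ∈ S.I, 0 < q i := by
    intro i hi
    have := S.hc0 i.1
    have := S.hd0 i.2
    rw [hq i hi]; positivity
  have hl2 := S.lam2_pos hq0
  have h := S.LY_sigma hKc hKne hK ht (σ := fun _ => s) hq hcols hσ hlam
  refine le_trans (ENNReal.ofReal_le_ofReal (le_of_eq ?_)) h
  have : ∑ i ∈ S.I, q i * (s * (-Real.log (S.d i.2))) = s * S.lam2 q := by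
    rw [lam2, ← Finset.sum_neg_distrib, Finset.mul_sum]
    refine Finset.sum_congr rfl fun i _ => ?_
    ring
  rw [this]
  field_simp

theorem sum_swap_I (f : β × α → ℝ) : ∑ i ∈ S.swap.I, f i = ∑ i ∈ S.I, f i.swap := by
  rw [swap]
  simp only [Finset.sum_map]
  rfl

theorem lam1_swap (q : α × β → ℝ) : S.swap.lam1 (fun i => q i.swap) = S.lam2 q := by
  rw [lam1, lam2, S.sum_swap_I]
  rfl

theorem lam2_swap (q : α × β → ℝ) : S.swap.lam2 (fun i => q i.swap) = S.lam1 q := by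
  rw [lam1, lam2, S.sum_swap_I]
  rfl

theorem ent_swap (q : α × β → ℝ) : S.swap.ent (fun i => q i.swap) = S.ent q := by
  rw [ent, ent, S.sum_swap_I]
  rfl

theorem mem_swap_I' {i : β × α} : i ∈ S.swap.I ↔ i.swap ∈ S.I := by
  rcases i with ⟨b, a⟩
  exact S.mem_swap_I b a

theorem swap_map (i : α × β) (p : ℝ × ℝ) : S.swap.map i.swap p.swap = (S.map i p).swap := rfl

theorem dimH_swap (K : Set (ℝ × ℝ)) : dimH (Prod.swap '' K) = dimH K := by
  apply Isometry.dimH_image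
  intro x y
  rw [Prod.edist_eq, Prod.edist_eq, max_comm]
  rfl

/-- Dimension bound for product type systems. -/
theorem dimH_prod [Fintype α] [Fintype β] {A : Finset α} {B : Finset β} (hI : S.I = A ×ˢ B)
    {K : Set (ℝ × ℝ)} (hKc : IsCompact K) (hKne : K.Nonempty)
    (hK : ∀ i ∈ S.I, ∀ p ∈ K, S.map i p ∈ K) {t s : ℝ} (ht : 0 ≤ t) (hs : 0 ≤ s)
    (hA : ∑ a ∈ A, S.c a ^ t = 1) (hB : ∑ b ∈ B, S.d b ^ s = 1) :
    ENNReal.ofReal (t + s) ≤ dimH K := by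
  obtain ⟨⟨a0, b0⟩, h0⟩ := S.hI
  have h0' := h0
  rw [hI, Finset.mem_product] at h0'
  have hcols : S.cols = A := by
    ext a
    rw [mem_cols, hI]
    simp only [Finset.mem_product]
    exact ⟨fun ⟨b, h⟩ => h.1, fun h => ⟨b0, h, h0'.2⟩⟩
  have hrows : S.swap.cols = B := by
    ext b
    rw [mem_cols]
    simp only [mem_swap_I, hI, Finset.mem_product]
    exact ⟨fun ⟨b, h⟩ => h.2, fun h => ⟨a0, h0'.1, h⟩⟩
  have hcolsum : ∀ a ∈ S.cols, ∑ i ∈ S.colIdx a, S.d i.2 ^ s = 1 := by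
    intro a ha
    rw [hcols] at ha
    rw [← hB, colIdx, hI, Finset.sum_filter, Finset.sum_product, Finset.sum_eq_single a]
    · simp
    · intro a' _ hne; simp [hne]
    · intro h; exact absurd ha h
  have hrowsum : ∀ b ∈ S.swap.cols, ∑ i ∈ S.swap.colIdx b, S.swap.d i.2 ^ t = 1 := by
    intro b hb
    rw [hrows] at hb
    rw [← hA, colIdx, Finset.sum_filter, S.sum_swap_I, hI, Finset.sum_product_right,
      Finset.sum_eq_single b]
    · simp [swap]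
    · intro a' _ hne; simp [hne]
    · intro h; exact absurd hb h
  set q : α × β → ℝ := fun i => S.c i.1 ^ t * S.d i.2 ^ s with hq
  rcases le_total (S.lam1 q) (S.lam2 q) with hlam | hlam
  · exact S.LY_const hKc hKne hK ht (q := q) (fun i _ => rfl) (by rw [hcols]; exact hA) hcolsum hlam
  · have h := S.swap.LY_const (K := Prod.swap '' K) (hKc.image continuous_swap) (hKne.image _)
      (by
        rintro i hi _ ⟨p, hp, rfl⟩
        exact ⟨S.map i.swap p, hK _ (S.mem_swap_I'.1 hi) p hp, rfl⟩)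
      hs (t := s) (s := t) (q := fun i => q i.swap) (fun i _ => by
        simp only [hq, swap]; rw [mul_comm]; rfl)
      (by rw [hrows]; exact hB) hrowsum (by rw [S.lam1_swap, S.lam2_swap]; exact hlam)
    rw [dimH_swap, add_comm] at h
    exact h

end Sys

end CarpetM
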