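import Mathlib
import Pool.Agent.CarpetM.Assouad

open MeasureTheory Filter Topology Set
open scoped ENNReal NNReal BigOperators

set_option linter.unusedSectionVars false

namespace CarpetM

namespace Sys

variable {α β : Type*} (S : Sys α β) [DecidableEq α] [DecidableEq β]

/-- Selection of the levels. -/
theorem select {j : α × β} (hjcd : S.d j.2 < S.c j.1) (a : α) (k0 : ℕ) {δ : ℝ} (hδ : 0 < δ) :
    ∃ l k : ℕ, k0 ≤ k ∧ S.d j.2 ^ l < δ ∧ S.c j.1 ^ l * S.c a ^ (k + 1) < S.d j.2 ^ l ∧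
      S.d j.2 ^ l ≤ S.c j.1 ^ l * S.c a ^ k := by
  have hcj0 := S.hc0 j.1
  have hdj0 := S.hd0 j.2
  have hcj1 := S.hc1 j.1
  have hdj1 := S.hd1 j.2
  have hca0 := S.hc0 a
  have hca1 := S.hc1 a
  have hq0 : 0 < S.d j.2 / S.c j.1 := by positivity
  have hq1 : S.d j.2 / S.c j.1 < 1 := by rw [div_lt_one hcj0]; exact hjcd
  obtain ⟨l1, hl1⟩ := exists_pow_lt_of_lt_one (show 0 < S.c a ^ (k0 + 1) by positivity) hq1
  obtain ⟨l2, hl2⟩ := exists_pow_lt_of_lt_one hδ hdj1
  set l := max l1 l2 with hldef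
  have hl1' : (S.d j.2 / S.c j.1) ^ l < S.c a ^ (k0 + 1) :=
    lt_of_le_of_lt (pow_le_pow_of_le_one hq0.le hq1.le (le_max_left _ _)) hl1
  have hl2' : S.d j.2 ^ l < δ :=
    lt_of_le_of_lt (pow_le_pow_of_le_one hdj0.le hdj1.le (le_max_right _ _)) hl2
  obtain ⟨k, hk1, hk2⟩ := exists_nat_pow_near_of_lt_one
    (show 0 < (S.d j.2 / S.c j.1) ^ l by positivity) (pow_le_one₀ hq0.le hq1.le) hca0 hca1
  have hkk0 : k0 ≤ k := by
    by_contra hcon
    push Not at hcon
    have : S.c a ^ (k0 + 1) ≤ S.c a ^ (k + 1) := pow_le_pow_of_le_one hca0.le hca1.le (by omega)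
    linarith
  refine ⟨l, k, hkk0, hl2', ?_, ?_⟩
  · rw [div_pow, lt_div_iff₀ (by positivity)] at hk1
    linarith
  · rw [div_pow, div_le_iff₀ (by positivity)] at hk2
    linarith

theorem prodL_replicate (a : α) (k : ℕ) : S.prodL (List.replicate k a) = S.c a ^ k := by
  simp [prodL]

theorem prodL_le_pow {θ : ℝ} (hθ0 : 0 ≤ θ) {L : List α} (hL : ∀ a ∈ L, S.c a ≤ θ) :
    S.prodL L ≤ θ ^ L.length := by
  induction L with
  | nil => simp [prodL]
  | cons a L ih =>
    simp only [List.mem_cons, forall_eq_or_imp] at hL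
    rw [prodL_cons, List.length_cons, pow_succ']
    have := (S.prodL_pos L).le
    exact mul_le_mul hL.1 (ih hL.2) this hθ0

theorem map_fst_eq_replicate {a : α} {L : List (α × β)} (hL : ∀ i ∈ L, i.1 = a) :
    L.map Prod.fst = List.replicate L.length a := by
  rw [List.eq_replicate_iff]
  refine ⟨by simp, ?_⟩
  intro b hb
  rw [List.mem_map] at hb
  obtain ⟨i, hi, rfl⟩ := hb
  exact hL i hi

/-- The product system of all columns with the rows of column `a`. -/
def prodSys {a : α} (ha : a ∈ S.cols) : Sys α β :=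
  { S with
    I := S.cols ×ˢ ((S.colIdx a).image Prod.snd)
    hI := by
      obtain ⟨b, hb⟩ := S.mem_cols.1 ha
      refine ⟨(a, b), ?_⟩
      rw [Finset.mem_product]
      refine ⟨ha, ?_⟩
      rw [Finset.mem_image]
      exact ⟨(a, b), S.mem_colIdx.2 ⟨hb, rfl⟩, rfl⟩ }

theorem mem_prodSys {a : α} (ha : a ∈ S.cols) {i : α × β} :
    i ∈ (S.prodSys ha).I ↔ i.1 ∈ S.cols ∧ (a, i.2) ∈ S.I := by
  simp only [prodSys, Finset.mem_product, Finset.mem_image, mem_colIdx]
  constructor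
  · rintro ⟨h1, ⟨i', ⟨h2, h3⟩, h4⟩⟩
    refine ⟨h1, ?_⟩
    rw [← h3, ← h4]
    exact h2
  · rintro ⟨h1, h2⟩
    exact ⟨h1, (a, i.2), ⟨h2, rfl⟩, rfl⟩

/-- Lower bound for the Assouad dimension. -/
theorem assouad_lower [Fintype α] [Fintype β] {F : Set (ℝ × ℝ)} (hF : S.IsAttr F) {j : α × β}
    (hj : j ∈ S.I) (hjcd : S.d j.2 < S.c j.1) {a : α} (ha : a ∈ S.cols)
    {t s : ℝ} (ht : 0 ≤ t) (hs : 0 ≤ s)
    (hsum : ∑ a ∈ S.cols, S.c a ^ t = 1) (hsa : ∑ i ∈ S.colIdx a, S.d i.2 ^ s = 1)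
    {C s' : ℝ} (hC : 0 < C) (hs' : 0 ≤ s')
    (hcov : ∀ r R : ℝ, 0 < r → r < R → ∀ x ∈ F,
      HasCover r (Metric.closedBall x R ∩ F) (C * (R / r) ^ s')) : t + s ≤ s' := by
  obtain ⟨κ, θ, hκ, hκθ, hθ, hb⟩ := S.exists_bounds
  have hθ0 : 0 < θ := lt_of_lt_of_le hκ hκθ
  have hκ1 : κ < 1 := hκθ.trans_lt hθ
  obtain ⟨K, hKattr⟩ := (S.prodSys ha).exists_attr
  have hcolθ : ∀ a ∈ S.cols, S.c a ≤ θ := by
    intro a ha
    obtain ⟨b, hb'⟩ := S.mem_cols.1 ha
    exact (hb _ hb').2.1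
  have hcolκ : κ ≤ S.c a := by
    obtain ⟨b, hb'⟩ := S.mem_cols.1 ha
    exact (hb _ hb').1
  have hca0 := S.hc0 a
  have hcj0 := S.hc0 j.1
  have hdj0 := S.hd0 j.2
  -- (1)
  have step1 : ∀ k : ℕ, ∀ p ∈ K, ∃ z ∈ F, |p.1 - z.1| ≤ θ ^ k := by
    intro k
    induction k with
    | zero =>
      intro p hp
      obtain ⟨z, hz⟩ := hF.nonempty
      refine ⟨z, hz, ?_⟩
      have h1 := (hKattr.mem01 p hp).1
      have h2 := (hF.mem01 z hz).1
      rw [pow_zero, abs_le]
      constructor <;> linarith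
    | succ k ih =>
      intro p hp
      obtain ⟨i, hi, q, hq, rfl⟩ := hKattr.dec p hp
      obtain ⟨z, hz, hqz⟩ := ih q hq
      have hi' := (S.mem_prodSys ha).1 hi
      obtain ⟨b, hb'⟩ := S.mem_cols.1 hi'.1
      refine ⟨S.map (i.1, b) z, hF.inv _ hb' z hz, ?_⟩
      have e : ((S.prodSys ha).map i q).1 - (S.map (i.1, b) z).1 = S.c i.1 * (q.1 - z.1) := by
        simp only [map, prodSys]; ring
      rw [e, abs_mul, abs_of_pos (S.hc0 _), pow_succ']
      have := hcolθ _ hi'.1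
      gcongr
  -- (2)
  have step2 : ∀ k : ℕ, ∀ p ∈ K, ∃ L : List (α × β), L.length = k ∧ (∀ i ∈ L, i ∈ S.colIdx a) ∧
      ∃ y : ℝ, 0 ≤ y ∧ y ≤ 1 ∧
        p.2 = S.swap.prodL (L.map Prod.snd) * y + S.swap.offL (L.map Prod.snd) := by
    intro k
    induction k with
    | zero =>
      intro p hp
      refine ⟨[], rfl, by simp, p.2, (hKattr.mem01 p hp).2.1, (hKattr.mem01 p hp).2.2, ?_⟩
      simp [prodL, offL]
    | succ k ih =>
      intro p hp
      obtain ⟨i, hi, q, hq, rfl⟩ := hKattr.dec p hp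
      obtain ⟨L, hL1, hL2, y, hy0, hy1, hy⟩ := ih q hq
      have hi' := (S.mem_prodSys ha).1 hi
      refine ⟨(a, i.2) :: L, by simp [hL1], ?_, y, hy0, hy1, ?_⟩
      · intro i' hi''
        rcases List.mem_cons.1 hi'' with rfl | h
        · exact S.mem_colIdx.2 ⟨hi'.2, rfl⟩
        · exact hL2 i' h
      · have e : ((S.prodSys ha).map i q).2 = S.d i.2 * q.2 + S.v i.2 := rfl
        rw [e, hy, List.map_cons, prodL_cons, offL]
        simp only [swap]
        ring
  -- the covering of the product set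
  have hcovK : ∀ ρ : ℝ, 0 < ρ → ρ < 1 →
      HasCover ρ K (C * (3 * κ⁻¹) ^ s' * ρ ^ (-s')) := by
    intro ρ hρ hρ1
    obtain ⟨k0, hk0⟩ := exists_pow_lt_of_lt_one (show 0 < ρ / 3 by positivity) hθ
    obtain ⟨l, k, hkk0, -, hk1, hk2⟩ := S.select hjcd a k0 one_pos
    have hθk : θ ^ k ≤ ρ / 3 := (pow_le_pow_of_le_one hθ0.le hθ.le hkk0).trans hk0.le
    obtain ⟨z0, hz0⟩ := S.iter_eq j l
    set h := S.d j.2 ^ l with hh
    have hh0 : 0 < h := by positivity
    set g := S.c j.1 ^ l with hg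
    have hg0 : 0 < g := by positivity
    set ω := g * S.c a ^ k with hω
    have hω0 : 0 < ω := by positivity
    -- the set of points
    set T : Set (ℝ × ℝ) := {x | ∃ L : List (α × β), L.length = k ∧ (∀ i ∈ L, i ∈ S.colIdx a) ∧
      ∃ z ∈ F, x = (S.map j)^[l] (S.mapL L z)} with hT
    have hTF : T ⊆ F := by
      rintro x ⟨L, hL1, hL2, z, hz, rfl⟩
      exact S.iter_mem hF hj l (S.mapL_mem hF.inv (fun i hi => (S.mem_colIdx.1 (hL2 i hi)).1) hz)
    set off := S.offL (List.replicate k a) with hoff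
    have hformula : ∀ L : List (α × β), L.length = k → (∀ i ∈ L, i ∈ S.colIdx a) → ∀ z : ℝ × ℝ,
        (S.map j)^[l] (S.mapL L z) = (ω * z.1 + (g * off + z0.1),
          h * (S.swap.prodL (L.map Prod.snd) * z.2 + S.swap.offL (L.map Prod.snd)) + z0.2) := by
      intro L hL1 hL2 z
      rw [hz0, S.mapL_eq, map_fst_eq_replicate (fun i hi => (S.mem_colIdx.1 (hL2 i hi)).2), hL1,
        S.prodL_replicate]
      simp only [diag]
      ext
      · simp only [Prod.fst_add, hω, hoff]; ring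
      · simp only [Prod.snd_add]
    have hyrange : ∀ L : List (α × β), ∀ y : ℝ, 0 ≤ y → y ≤ 1 →
        0 ≤ S.swap.prodL (L.map Prod.snd) * y + S.swap.offL (L.map Prod.snd) ∧
        S.swap.prodL (L.map Prod.snd) * y + S.swap.offL (L.map Prod.snd) ≤ 1 := by
      intro L y hy0 hy1
      have h1 := S.swap.prodL_pos (L.map Prod.snd)
      have h2 := S.swap.offL_nonneg (L.map Prod.snd)
      have h3 := S.swap.offL_add_le (L.map Prod.snd)
      refine ⟨by positivity, ?_⟩
      have : S.swap.prodL (L.map Prod.snd) * y ≤ S.swap.prodL (L.map Prod.snd) * 1 := by gcongr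
      linarith
    -- T is in a ball of radius ω
    have hTball : ∀ x ∈ T, T ⊆ Metric.closedBall x ω := by
      rintro x ⟨L, hL1, hL2, z, hz, rfl⟩ x' ⟨L', hL1', hL2', z', hz', rfl⟩
      rw [Metric.mem_closedBall, hformula L hL1 hL2, hformula L' hL1' hL2', Prod.dist_eq,
        Real.dist_eq, Real.dist_eq]
      simp only
      have m1 := hF.mem01 z hz
      have m2 := hF.mem01 z' hz'
      have y1 := hyrange L z.2 m1.2.1 m1.2.2
      have y2 := hyrange L' z'.2 m2.2.1 m2.2.2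
      apply max_le
      · rw [show ω * z'.1 + (g * off + z0.1) - (ω * z.1 + (g * off + z0.1)) = ω * (z'.1 - z.1) by
          ring, abs_mul, abs_of_pos hω0]
        have : |z'.1 - z.1| ≤ 1 := by rw [abs_le]; constructor <;> linarith
        calc ω * |z'.1 - z.1| ≤ ω * 1 := by gcongr
          _ = ω := mul_one _
      · set Y := S.swap.prodL (L.map Prod.snd) * z.2 + S.swap.offL (L.map Prod.snd)
        set Y' := S.swap.prodL (L'.map Prod.snd) * z'.2 + S.swap.offL (L'.map Prod.snd)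
        rw [show h * Y' + z0.2 - (h * Y + z0.2) = h * (Y' - Y) by ring, abs_mul, abs_of_pos hh0]
        have : |Y' - Y| ≤ 1 := by rw [abs_le]; constructor <;> linarith
        calc h * |Y' - Y| ≤ h * 1 := by gcongr
          _ ≤ ω := by rw [mul_one]; exact hk2
    have hTne : T.Nonempty := by
      obtain ⟨z, hz⟩ := hF.nonempty
      obtain ⟨b, hb'⟩ := S.mem_cols.1 ha
      refine ⟨(S.map j)^[l] (S.mapL (List.replicate k (a, b)) z), List.replicate k (a, b),
        by simp, ?_, z, hz, rfl⟩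
      intro i hi
      rw [List.eq_of_mem_replicate hi]
      exact S.mem_colIdx.2 ⟨hb', rfl⟩
    obtain ⟨x, hx⟩ := hTne
    have hhω : h ≤ ω := hk2
    have h1 := hcov (ρ / 3 * h) ω (by positivity) (by nlinarith) x (hTF hx)
    have h2 : HasCover (ρ / 3 * h) T (C * (ω / (ρ / 3 * h)) ^ s') :=
      h1.mono_set fun y hy => ⟨hTball x hx hy, hTF hy⟩
    have h3 := h2.image (fun y : ℝ × ℝ => ((y.1 - (g * off + z0.1)) / ω, (y.2 - z0.2) / h))
      (L := 1 / h) (by positivity) (by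
        intro y y'
        rw [Prod.dist_eq, Prod.dist_eq, Real.dist_eq, Real.dist_eq, Real.dist_eq, Real.dist_eq]
        simp only
        rw [mul_max_of_nonneg _ _ (by positivity)]
        apply max_le_max
        · rw [← sub_div, show y.1 - (g * off + z0.1) - (y'.1 - (g * off + z0.1)) = y.1 - y'.1 by
            ring, abs_div, abs_of_pos hω0, div_eq_mul_one_div, mul_comm]
          gcongr
        · rw [← sub_div, show y.2 - z0.2 - (y'.2 - z0.2) = y.2 - y'.2 by ring, abs_div,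
            abs_of_pos hh0, div_eq_mul_one_div, mul_comm])
    have h4 : 1 / h * (ρ / 3 * h) = ρ / 3 := by field_simp
    rw [h4] at h3
    have h5 := h3.nbhd (E' := K) (t := θ ^ k) (by
      intro p hp
      obtain ⟨z, hz, hpz⟩ := step1 k p hp
      obtain ⟨L, hL1, hL2, y, hy0, hy1, hpy⟩ := step2 k p hp
      refine ⟨(z.1, S.swap.prodL (L.map Prod.snd) * z.2 + S.swap.offL (L.map Prod.snd)),
        ⟨(S.map j)^[l] (S.mapL L z), ⟨L, hL1, hL2, z, hz, rfl⟩, ?_⟩, ?_⟩
      · rw [hformula L hL1 hL2]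
        simp only
        ext
        · simp only; field_simp; ring
        · simp only; field_simp; ring
      · rw [Prod.dist_eq, Real.dist_eq, Real.dist_eq]
        apply max_le hpz
        simp only
        rw [hpy, show S.swap.prodL (L.map Prod.snd) * y + S.swap.offL (L.map Prod.snd) -
          (S.swap.prodL (L.map Prod.snd) * z.2 + S.swap.offL (L.map Prod.snd)) =
          S.swap.prodL (L.map Prod.snd) * (y - z.2) by ring, abs_mul,
          abs_of_pos (S.swap.prodL_pos _)]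
        have m1 := (hF.mem01 z hz).2
        have : |y - z.2| ≤ 1 := by rw [abs_le]; constructor <;> linarith
        have h6 : S.swap.prodL (L.map Prod.snd) ≤ θ ^ k := by
          have := S.swap.prodL_le_pow hθ0.le (L := L.map Prod.snd) (by
            intro b hb'
            rw [List.mem_map] at hb'
            obtain ⟨i, hi, rfl⟩ := hb'
            exact (hb i (S.mem_colIdx.1 (hL2 i hi)).1).2.2.2)
          rwa [List.length_map, hL1] at this
        calc S.swap.prodL (L.map Prod.snd) * |y - z.2| ≤ θ ^ k * 1 := by gcongr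
          _ = θ ^ k := mul_one _)
    refine (h5.mono_r (by linarith)).mono_K ?_
    have h7 : ω / (ρ / 3 * h) ≤ 3 * κ⁻¹ * ρ⁻¹ := by
      rw [div_le_iff₀ (by positivity)]
      have h8 : ω * κ ≤ h := by
        have : ω * S.c a < h := by rw [hω, mul_assoc, ← pow_succ]; exact hk1
        calc ω * κ ≤ ω * S.c a := by gcongr
          _ ≤ h := this.le
      have h9 : ω ≤ κ⁻¹ * h := by rw [← div_eq_inv_mul, le_div_iff₀ hκ]; exact h8
      calc ω ≤ κ⁻¹ * h := h9
        _ = 3 * κ⁻¹ * ρ⁻¹ * (ρ / 3 * h) := by field_simp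
    calc C * (ω / (ρ / 3 * h)) ^ s' ≤ C * (3 * κ⁻¹ * ρ⁻¹) ^ s' := by
          gcongr
      _ = C * (3 * κ⁻¹) ^ s' * ρ ^ (-s') := by
          rw [Real.mul_rpow (by positivity) (by positivity), Real.inv_rpow hρ.le,
            Real.rpow_neg hρ.le]
          ring
  have hup := dimH_le_of_hasCover hs' hcovK
  have hlow := (S.prodSys ha).dimH_prod (A := S.cols) (B := (S.colIdx a).image Prod.snd) rfl
    hKattr.compact hKattr.nonempty hKattr.inv ht hs hsum (by
      rw [Finset.sum_image]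
      · exact hsa
      · intro i hi i' hi' h
        exact Prod.ext ((S.mem_colIdx.1 hi).2.trans (S.mem_colIdx.1 hi').2.symm) h)
  have := hlow.trans hup
  rwa [ENNReal.ofReal_le_ofReal_iff hs'] at this

end Sys

end CarpetM
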