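import Mathlib
import Pool.Agent.CarpetM.Lower

open MeasureTheory Filter Topology Set
open scoped ENNReal NNReal BigOperators

set_option linter.unusedSectionVars false

namespace CarpetM

namespace Sys

variable {α β : Type*} (S : Sys α β) [DecidableEq α] [DecidableEq β]

theorem exists_mid_row {κ : ℝ} (hκ : 0 < κ) (hb : ∀ i ∈ S.I, κ ≤ S.d i.2)
    (hrow : ∃ i ∈ S.I, ∃ i' ∈ S.I, i.2 ≠ i'.2) :
    ∃ i ∈ S.I, ∃ i' ∈ S.I, ∀ p : ℝ × ℝ, 0 ≤ p.2 → p.2 ≤ 1 →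
      κ ^ 2 ≤ (S.map i (S.map i' p)).2 ∧ (S.map i (S.map i' p)).2 ≤ 1 - κ ^ 2 := by
  obtain ⟨i, hi, i', hi', hne⟩ := hrow
  wlog h : S.v i'.2 + S.d i'.2 ≤ S.v i.2 generalizing i i' with H
  · rcases S.hv i.2 i'.2 hne with h' | h'
    · exact H i' hi' i hi (Ne.symm hne) h'
    · exact absurd h' h
  refine ⟨i, hi, i', hi', ?_⟩
  intro p hp0 hp1
  have h1 := hb i hi
  have h2 := hb i' hi'
  have h3 := S.hv0 i'.2
  have h4 := S.hv1 i.2
  have h5 := S.hd0 i.2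
  have h6 := S.hd0 i'.2
  have h7 := S.hd1 i.2
  simp only [map]
  have h8 : 0 ≤ S.d i'.2 * p.2 + S.v i'.2 := by positivity
  have h9 : S.d i'.2 * p.2 + S.v i'.2 ≤ 1 - S.d i.2 := by nlinarith
  have h10 : 0 ≤ S.d i.2 * (S.d i'.2 * p.2 + S.v i'.2) := by positivity
  constructor
  · nlinarith
  · have : S.d i.2 * (S.d i'.2 * p.2 + S.v i'.2) ≤ S.d i.2 * (1 - S.d i.2) := by gcongr
    nlinarith

theorem exists_mid_col {κ : ℝ} (hκ : 0 < κ) (hb : ∀ i ∈ S.I, κ ≤ S.c i.1)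
    (hcol : ∃ i ∈ S.I, ∃ i' ∈ S.I, i.1 ≠ i'.1) :
    ∃ i ∈ S.I, ∃ i' ∈ S.I, ∀ p : ℝ × ℝ, 0 ≤ p.1 → p.1 ≤ 1 →
      κ ^ 2 ≤ (S.map i (S.map i' p)).1 ∧ (S.map i (S.map i' p)).1 ≤ 1 - κ ^ 2 := by
  obtain ⟨⟨b, a⟩, hi, ⟨b', a'⟩, hi', h⟩ := S.swap.exists_mid_row hκ
    (by
      rintro ⟨b, a⟩ hi
      exact hb _ ((S.mem_swap_I b a).1 hi))
    (by
      obtain ⟨⟨a, b⟩, hi, ⟨a', b'⟩, hi', hne⟩ := hcol
      exact ⟨(b, a), (S.mem_swap_I b a).2 hi, (b', a'), (S.mem_swap_I b' a').2 hi', hne⟩)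
  refine ⟨(a, b), (S.mem_swap_I b a).1 hi, (a', b'), (S.mem_swap_I b' a').1 hi', ?_⟩
  intro p hp0 hp1
  exact h p.swap hp0 hp1

private theorem aux_lip {r a : ℝ} (hr : 0 ≤ r) (ha : 0 ≤ a) (ha1 : a ≤ 1) (x y e : ℝ) :
    |r * a * x + e - (r * a * y + e)| ≤ r * |x - y| := by
  rw [show r * a * x + e - (r * a * y + e) = a * (r * (x - y)) by ring, abs_mul, abs_mul,
    abs_of_nonneg ha, abs_of_nonneg hr]
  have : 0 ≤ r * |x - y| := by positivity
  nlinarith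

private theorem aux_sq {κ : ℝ} (h0 : 0 < κ) (h1 : κ < 1) : κ ^ 2 < 1 := by nlinarith

private theorem aux_half {η : ℝ} (h0 : 0 < η) (h1 : η < 1) : η * η / 2 < 1 := by nlinarith

private theorem aux_half' {η : ℝ} (h0 : 0 < η) (h1 : η < 1) : η * η / 2 ≤ η / 2 := by nlinarith

private theorem aux_mul_lt {h a b : ℝ} (h0 : 0 < h) (h1 : a < b) : h * a < b * h := by nlinarith

private theorem aux_mul_lt' {h a e : ℝ} (h0 : 0 < h) (h1 : a < 1) (h2 : h < e) : a * h < e := by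
  nlinarith

private theorem aux_min {ζ m : ℝ} (h0 : 0 < ζ) (h1 : m ≤ 1) : ζ * m ≤ ζ := by nlinarith

private theorem aux_inv {κ a : ℝ} (h0 : 1 ≤ κ) (h1 : 1 ≤ a) : 1 ≤ κ * a := by nlinarith

private theorem aux_ck {g c ck κ h : ℝ} (hκ : 0 < κ) (hg0 : 0 < g) (hck : 0 ≤ ck) (hκc : κ ≤ c)
    (h2 : ck * c < h / g) : g * ck ≤ κ⁻¹ * h := by
  rw [lt_div_iff₀ hg0] at h2
  rw [← div_eq_inv_mul, le_div_iff₀ hκ]
  have h3 : g * ck * κ ≤ g * ck * c := by gcongr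
  nlinarith

private theorem aux_cc {κ a b : ℝ} (hκ : 0 < κ) (ha : κ ≤ a) (hb : κ ≤ b) : κ ^ 2 ≤ a * b := by
  nlinarith

theorem iter_fst (i : α × β) (k : ℕ) (p : ℝ × ℝ) :
    ((S.map i)^[k] p).1 = S.c i.1 ^ k * p.1 + S.off i.1 k := by
  induction k with
  | zero => simp [off]
  | succ k ih =>
    rw [Function.iterate_succ_apply']
    simp only [map, off] at ih ⊢
    rw [ih]
    ring

theorem lower_loc {F : Set (ℝ × ℝ)} (hF : S.IsAttr F) {j : α × β} (hj : j ∈ S.I)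
    (hjcd : S.d j.2 < S.c j.1) {a : α} (ha : a ∈ S.cols)
    (hrow : ∃ i ∈ S.I, ∃ i' ∈ S.I, i.2 ≠ i'.2) (hcol : ∃ i ∈ S.I, ∃ i' ∈ S.I, i.1 ≠ i'.1)
    {t s : ℝ} (ht : 0 ≤ t) (hs : 0 ≤ s)
    (hsum : ∑ a ∈ S.cols, S.c a ^ t ≤ 1) (hsa : ∑ i ∈ S.colIdx a, S.d i.2 ^ s ≤ 1) :
    ∃ C : ℝ, 0 < C ∧ ∀ ε : ℝ, 0 < ε → ∃ x ∈ F, ∃ r R : ℝ, 0 < r ∧ r < R ∧ R < ε ∧ r < ε * R ∧
      HasCover r (Metric.closedBall x R ∩ F) (C * (R / r) ^ (t + s)) := by
  obtain ⟨κ, θ, hκ, hκθ, hθ, hb⟩ := S.exists_bounds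
  have hθ0 : 0 < θ := lt_of_lt_of_le hκ hκθ
  have hκ1 : κ < 1 := hκθ.trans_lt hθ
  obtain ⟨K, hK, hQ⟩ := S.cover_Q hF a ht hs hsum hsa hκ hθ0
    (fun i hi => ⟨(hb i hi).2.2.1, (hb i hi).2.2.2⟩)
  obtain ⟨i4, hi4, i3, hi3, hmidr⟩ := S.exists_mid_row hκ (fun i hi => (hb i hi).2.2.1) hrow
  obtain ⟨i2, hi2, i1, hi1, hmidc⟩ := S.exists_mid_col hκ (fun i hi => (hb i hi).1) hcol
  obtain ⟨q0, hq0⟩ := hF.nonempty
  set p0 := S.map i2 (S.map i1 q0) with hp0def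
  have hp0F : p0 ∈ F := hF.inv _ hi2 _ (hF.inv _ hi1 _ hq0)
  have hp0 := hmidc q0 (hF.mem01 q0 hq0).1.1 (hF.mem01 q0 hq0).1.2
  rw [← hp0def] at hp0
  obtain ⟨b0, hb0⟩ := S.mem_cols.1 ha
  have hca0 := S.hc0 a
  have hca1 := S.hc1 a
  have hcaκ := (hb _ hb0).1
  simp only at hcaκ
  set η := κ ^ 2 with hη
  have hη0 : 0 < η := by positivity
  have hη1 : η < 1 := aux_sq hκ hκ1
  set ζ := η * η / 2 with hζ
  have hζ0 : 0 < ζ := by positivity
  have hζ1 : ζ < 1 := aux_half hη0 hη1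
  have hcj0 := S.hc0 j.1
  have hdj0 := S.hd0 j.2
  have hcj1 := S.hc1 j.1
  have hdj1 := S.hd1 j.2
  refine ⟨(S.I.card : ℝ) ^ 2 * K * κ⁻¹ ^ t * ζ⁻¹ ^ (t + s), ?_, ?_⟩
  · have : 0 < S.I.card := Finset.card_pos.2 S.hI
    positivity
  intro ε hε
  -- choose k0
  obtain ⟨k0, hk0⟩ := exists_pow_lt_of_lt_one (show 0 < ζ * min ε 1 by positivity) hθ
  -- choose l
  have hq0 : 0 < S.d j.2 / S.c j.1 := by positivity
  have hq1 : S.d j.2 / S.c j.1 < 1 := by rw [div_lt_one hcj0]; exact hjcd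
  obtain ⟨l1, hl1⟩ := exists_pow_lt_of_lt_one (show 0 < S.c a ^ (k0 + 1) by positivity) hq1
  obtain ⟨l2, hl2⟩ := exists_pow_lt_of_lt_one hε hdj1
  set l := max l1 l2 with hldef
  have hl1' : (S.d j.2 / S.c j.1) ^ l < S.c a ^ (k0 + 1) :=
    lt_of_le_of_lt (pow_le_pow_of_le_one hq0.le hq1.le (le_max_left _ _)) hl1
  have hl2' : S.d j.2 ^ l < ε :=
    lt_of_le_of_lt (pow_le_pow_of_le_one hdj0.le hdj1.le (le_max_right _ _)) hl2
  -- choose k
  obtain ⟨k, hk1, hk2⟩ := exists_nat_pow_near_of_lt_one (show 0 < (S.d j.2 / S.c j.1) ^ l by positivity)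
    (pow_le_one₀ hq0.le hq1.le) hca0 hca1
  have hkk0 : k0 ≤ k := by
    by_contra hcon
    push Not at hcon
    have : S.c a ^ (k0 + 1) ≤ S.c a ^ (k + 1) := pow_le_pow_of_le_one hca0.le hca1.le (by omega)
    linarith
  have hθk : θ ^ k < ζ * min ε 1 := lt_of_le_of_lt (pow_le_pow_of_le_one hθ0.le hθ.le hkk0) hk0
  set h := S.d j.2 ^ l with hh
  have hh0 : 0 < h := by positivity
  set g := S.c j.1 ^ l with hg
  have hg0 : 0 < g := by positivity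
  have hhg : (S.d j.2 / S.c j.1) ^ l = h / g := by rw [div_pow]
  rw [hhg] at hk1 hk2 hl1'
  have hθk0 : 0 < θ ^ k := by positivity
  set w0 := S.map i4 (S.map i3 ((S.map (a, b0))^[k] p0)) with hw0
  have hitF : (S.map (a, b0))^[k] p0 ∈ F := S.iter_mem hF hb0 k hp0F
  have hw0F : w0 ∈ F := hF.inv _ hi4 _ (hF.inv _ hi3 _ hitF)
  obtain ⟨z, hz⟩ := S.iter_eq j l
  refine ⟨(S.map j)^[l] w0, S.iter_mem hF hj l hw0F, h * θ ^ k, ζ * h, by positivity, ?_, ?_, ?_, ?_⟩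
  · exact aux_mul_lt hh0 (lt_of_lt_of_le hθk (aux_min hζ0 (min_le_right ε 1)))
  · exact aux_mul_lt' hh0 hζ1 hl2'
  · have : θ ^ k < ζ * ε := lt_of_lt_of_le hθk (by
      have := min_le_left ε 1
      gcongr)
    calc h * θ ^ k < h * (ζ * ε) := by gcongr
      _ = ε * (ζ * h) := by ring
  -- the covering
  set r := h * θ ^ k with hr
  have hr0 : 0 < r := by positivity
  have hθinv : h / r = (θ ^ k)⁻¹ := by rw [hr]; field_simp
  have hθinv1 : 1 ≤ (θ ^ k)⁻¹ := by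
    rw [one_le_inv₀ hθk0]; exact pow_le_one₀ hθ0.le hθ.le
  have hcov := hQ k (g / r) (h / r) (by positivity) (by
    rw [hθinv]; linarith) (by rw [hθinv, inv_mul_cancel₀ hθk0.ne'])
  have hmax : max 1 (g / r * S.c a ^ k) ≤ κ⁻¹ * (θ ^ k)⁻¹ := by
    have hκinv : 1 ≤ κ⁻¹ := (one_le_inv₀ hκ).2 hκ1.le
    apply max_le
    · exact aux_inv hκinv hθinv1
    · rw [← hθinv]
      have h1 : g * S.c a ^ k ≤ κ⁻¹ * h := by
        have h2 : S.c a ^ k * S.c a < h / g := by rw [← pow_succ]; exact hk1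
        exact aux_ck hκ hg0 (by positivity) hcaκ h2
      calc g / r * S.c a ^ k = g * S.c a ^ k / r := by ring
        _ ≤ κ⁻¹ * h / r := by gcongr
        _ = κ⁻¹ * (h / r) := by ring
  have hK' : K * (max 1 (g / r * S.c a ^ k) ^ t * (h / r) ^ s) ≤
      K * (κ⁻¹ ^ t * (θ ^ k)⁻¹ ^ (t + s)) := by
    have h1 : max 1 (g / r * S.c a ^ k) ^ t ≤ (κ⁻¹ * (θ ^ k)⁻¹) ^ t :=
      Real.rpow_le_rpow (by positivity) hmax ht
    rw [Real.mul_rpow (by positivity) (by positivity)] at h1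
    rw [Real.rpow_add (by positivity), hθinv]
    calc K * (max 1 (g / r * S.c a ^ k) ^ t * (θ ^ k)⁻¹ ^ s)
        ≤ K * ((κ⁻¹ ^ t * (θ ^ k)⁻¹ ^ t) * (θ ^ k)⁻¹ ^ s) := by gcongr
      _ = _ := by ring
  have hcov' := hcov.mono_K hK'
  -- pieces
  have hpiece : ∀ i ∈ S.colIdx i4.1, ∀ i' ∈ S.colIdx i3.1,
      HasCover r ((fun q => (S.map j)^[l] (S.map i (S.map i' q))) '' S.Q F a k)
        (K * (κ⁻¹ ^ t * (θ ^ k)⁻¹ ^ (t + s))) := by
    intro i _ i' _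
    have hc1 := S.hc0 i.1
    have hc2 := S.hc0 i'.1
    have hd1 := S.hd0 i.2
    have hd2 := S.hd0 i'.2
    have hc1' := (S.hc1 i.1).le
    have hc2' := (S.hc1 i'.1).le
    have hd1' := (S.hd1 i.2).le
    have hd2' := (S.hd1 i'.2).le
    have hcc : S.c i.1 * S.c i'.1 ≤ 1 := mul_le_one₀ hc1' hc2.le hc2'
    have hdd : S.d i.2 * S.d i'.2 ≤ 1 := mul_le_one₀ hd1' hd2.le hd2'
    have h1 := hcov'.image (fun y : ℝ × ℝ => (r * (S.c i.1 * S.c i'.1) * y.1 +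
      (g * (S.c i.1 * S.u i'.1 + S.u i.1) + z.1), r * (S.d i.2 * S.d i'.2) * y.2 +
      (h * (S.d i.2 * S.v i'.2 + S.v i.2) + z.2))) hr0.le (by
        intro x y
        rw [Prod.dist_eq, Prod.dist_eq, Real.dist_eq, Real.dist_eq, Real.dist_eq, Real.dist_eq]
        simp only
        rw [mul_max_of_nonneg _ _ hr0.le]
        exact max_le_max (aux_lip hr0.le (by positivity) hcc _ _ _)
          (aux_lip hr0.le (by positivity) hdd _ _ _))
    rw [mul_one] at h1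
    refine h1.mono_set ?_
    rintro _ ⟨q, hq, rfl⟩
    refine ⟨diag (g / r) (h / r) q, ⟨q, hq, rfl⟩, ?_⟩
    simp only [hz]
    simp only [diag, map, Prod.ext_iff, Prod.fst_add, Prod.snd_add]
    constructor
    · field_simp
      ring
    · field_simp
      ring
  have hun := hasCover_biUnion (S.colIdx i4.1) fun i hi =>
    hasCover_biUnion (S.colIdx i3.1) fun i' hi' => hpiece i hi i' hi'
  refine (hun.mono_set ?_).mono_K ?_
  · rintro p ⟨hpB, hpF⟩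
    rw [Metric.mem_closedBall, Prod.dist_eq, max_le_iff, Real.dist_eq, Real.dist_eq, hz] at hpB
    simp only [diag, Prod.fst_add, Prod.snd_add] at hpB
    obtain ⟨hp1, hp2⟩ := hpB
    set w : ℝ × ℝ := ((p.1 - z.1) / g, (p.2 - z.2) / h) with hw
    have hwp : (S.map j)^[l] w = p := by
      rw [hz, hw]
      simp only [diag]
      ext
      · simp only [Prod.fst_add]; field_simp; ring
      · simp only [Prod.snd_add]; field_simp; ring
    have hw2 : |w.2 - w0.2| ≤ ζ := by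
      have : w.2 - w0.2 = (p.2 - (h * w0.2 + z.2)) / h := by
        rw [hw]; field_simp; ring
      rw [this, abs_div, abs_of_pos hh0, div_le_iff₀ hh0]
      exact hp2
    have hw1 : |w.1 - w0.1| ≤ ζ * S.c a ^ k := by
      have : w.1 - w0.1 = (p.1 - (g * w0.1 + z.1)) / g := by
        rw [hw]; field_simp; ring
      rw [this, abs_div, abs_of_pos hg0, div_le_iff₀ hg0]
      refine hp1.trans ?_
      rw [div_le_iff₀ hg0] at hk2
      calc ζ * h ≤ ζ * (S.c a ^ k * g) := by gcongr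
        _ = _ := by ring
    have hmr := hmidr ((S.map (a, b0))^[k] p0) (hF.mem01 _ hitF).2.1 (hF.mem01 _ hitF).2.2
    rw [← hw0] at hmr
    rw [abs_le] at hw2
    have hζη : ζ ≤ η / 2 := aux_half' hη0 hη1
    have hw2' : 0 < w.2 ∧ w.2 < 1 := by
      constructor
      · linarith [hw2.1, hmr.1]
      · linarith [hw2.2, hmr.2]
    -- horizontal position
    have hc4 := S.hc0 i4.1
    have hc3 := S.hc0 i3.1
    have hc4κ := (hb _ hi4).1
    have hc3κ := (hb _ hi3).1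
    have hcc4 : η ≤ S.c i4.1 * S.c i3.1 := aux_cc hκ hc4κ hc3κ
    have hcak : 0 < S.c a ^ k := by positivity
    set x3 := p0.1 + (w.1 - w0.1) / (S.c i4.1 * S.c i3.1 * S.c a ^ k) with hx3
    have hx3b : |(w.1 - w0.1) / (S.c i4.1 * S.c i3.1 * S.c a ^ k)| ≤ η / 2 := by
      rw [abs_div, abs_of_pos (show 0 < S.c i4.1 * S.c i3.1 * S.c a ^ k by positivity),
        div_le_iff₀ (by positivity)]
      refine hw1.trans ?_
      rw [hζ]
      calc η * η / 2 * S.c a ^ k = η / 2 * (η * S.c a ^ k) := by ring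
        _ ≤ η / 2 * (S.c i4.1 * S.c i3.1 * S.c a ^ k) := by gcongr
    rw [abs_le] at hx3b
    have hx30 : 0 < x3 := by linarith [hx3b.1, hp0.1]
    have hx31 : x3 < 1 := by linarith [hx3b.2, hp0.2]
    have hw0fst : w0.1 = S.c i4.1 * (S.c i3.1 * (S.c a ^ k * p0.1 + S.off a k) + S.u i3.1) +
        S.u i4.1 := by
      have := S.iter_fst (a, b0) k p0
      simp only [hw0, map]
      simp only [map] at this
      rw [this]
    set x2 := S.c a ^ k * x3 + S.off a k with hx2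
    have hoff0 := S.off_nonneg a k
    have hoff1 := S.off_add_le a k
    have hx20 : 0 < x2 := by positivity
    have hx21 : x2 < 1 := by
      have : S.c a ^ k * x3 < S.c a ^ k * 1 := by gcongr
      linarith
    set x1 := S.c i3.1 * x2 + S.u i3.1 with hx1
    have hu3 := S.hu0 i3.1
    have hu3' := S.hu1 i3.1
    have hx10 : 0 < x1 := by positivity
    have hx11 : x1 < 1 := by
      have : S.c i3.1 * x2 < S.c i3.1 * 1 := by gcongr
      linarith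
    have hwfst : w.1 = S.c i4.1 * x1 + S.u i4.1 := by
      have e1 : w.1 - w0.1 = S.c i4.1 * S.c i3.1 * S.c a ^ k * (x3 - p0.1) := by
        rw [hx3]; field_simp; ring
      rw [hw0fst] at e1
      rw [hx1, hx2]
      linear_combination e1
    have hu4 := S.hu0 i4.1
    have hu4' := S.hu1 i4.1
    have hw1' : 0 < w.1 ∧ w.1 < 1 := by
      rw [hwfst]
      refine ⟨by positivity, ?_⟩
      have : S.c i4.1 * x1 < S.c i4.1 * 1 := by gcongr
      linarith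
    have hwF : w ∈ F := S.dec_open_iter hF j l hw1' hw2' (by rw [hwp]; exact hpF)
    obtain ⟨i, hi, q1, hq1, hiq, hq1x⟩ := S.dec_open_col hF hwF hx10 hx11 hwfst
    obtain ⟨i', hi', q2, hq2, hiq', hq2x⟩ := S.dec_open_col hF hq1 hx20 hx21 hq1x
    have hq2Q : q2 ∈ S.Q F a k := S.mem_Q_of_open hF a k hq2 hx30 hx31 hq2x
    simp only [mem_iUnion, exists_prop]
    refine ⟨i, hi, i', hi', q2, hq2Q, ?_⟩
    simp only [hiq', hiq, hwp]
  · simp only [Finset.sum_const, nsmul_eq_mul]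
    have h1 : ((S.colIdx i4.1).card : ℝ) ≤ S.I.card := by
      exact_mod_cast Finset.card_le_card (Finset.filter_subset _ _)
    have h2 : ((S.colIdx i3.1).card : ℝ) ≤ S.I.card := by
      exact_mod_cast Finset.card_le_card (Finset.filter_subset _ _)
    have h3 : ζ * h / r = ζ * (θ ^ k)⁻¹ := by rw [mul_div_assoc, hθinv]
    rw [h3, Real.mul_rpow hζ0.le (by positivity), Real.inv_rpow hζ0.le (t + s)]
    have h4 : 0 < ζ ^ (t + s) := by positivity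
    calc ((S.colIdx i4.1).card : ℝ) * ((S.colIdx i3.1).card *
          (K * (κ⁻¹ ^ t * (θ ^ k)⁻¹ ^ (t + s))))
        ≤ (S.I.card : ℝ) * (S.I.card * (K * (κ⁻¹ ^ t * (θ ^ k)⁻¹ ^ (t + s)))) := by gcongr
      _ = (S.I.card : ℝ) ^ 2 * K * κ⁻¹ ^ t * (ζ ^ (t + s))⁻¹ *
          (ζ ^ (t + s) * (θ ^ k)⁻¹ ^ (t + s)) := by
        field_simp

end Sys

end CarpetM
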