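import Mathlib
import Pool.Agent.CarpetM.Assouad2
import Pool.Agent.CarpetM.LowerLoc

open MeasureTheory Filter Topology Set
open scoped ENNReal NNReal BigOperators

set_option linter.unusedSectionVars false

namespace CarpetM

/-- Strict monotonicity of weighted power sums. -/
theorem wsum_lt {ι : Type*} {s : Finset ι} (hs : s.Nonempty) {w d : ι → ℝ}
    (hw : ∀ i ∈ s, 0 < w i) (hd0 : ∀ i ∈ s, 0 < d i) (hd1 : ∀ i ∈ s, d i < 1) {x y : ℝ}
    (hxy : x < y) : ∑ i ∈ s, w i * d i ^ y < ∑ i ∈ s, w i * d i ^ x := by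
  apply Finset.sum_lt_sum_of_nonempty hs
  intro i hi
  exact mul_lt_mul_of_pos_left (Real.rpow_lt_rpow_of_exponent_gt (hd0 i hi) (hd1 i hi) hxy)
    (hw i hi)

theorem wsum_le {ι : Type*} {s : Finset ι} {w d : ι → ℝ}
    (hw : ∀ i ∈ s, 0 < w i) (hd0 : ∀ i ∈ s, 0 < d i) (hd1 : ∀ i ∈ s, d i < 1) {x y : ℝ}
    (hxy : x ≤ y) : ∑ i ∈ s, w i * d i ^ y ≤ ∑ i ∈ s, w i * d i ^ x := by
  apply Finset.sum_le_sum
  intro i hi
  exact mul_le_mul_of_nonneg_left
    (Real.rpow_le_rpow_of_exponent_ge (hd0 i hi) (hd1 i hi).le hxy) (hw i hi).le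

theorem wsum_root {ι : Type*} {s : Finset ι} {w d : ι → ℝ}
    (hw : ∀ i ∈ s, 0 < w i) (hd0 : ∀ i ∈ s, 0 < d i) (hd1 : ∀ i ∈ s, d i < 1)
    (h : 1 ≤ ∑ i ∈ s, w i) : ∃ x : ℝ, 0 ≤ x ∧ ∑ i ∈ s, w i * d i ^ x = 1 := by
  have hcont : ContinuousOn (fun x : ℝ => ∑ i ∈ s, w i * d i ^ x) univ := by
    apply continuousOn_finsetSum
    intro i hi
    apply Continuous.continuousOn
    exact continuous_const.mul (Real.continuous_const_rpow (hd0 i hi).ne')
  have hlim : Tendsto (fun x : ℝ => ∑ i ∈ s, w i * d i ^ x) atTop (𝓝 (∑ i ∈ s, w i * 0)) := by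
    apply tendsto_finsetSum
    intro i hi
    exact (tendsto_rpow_atTop_of_base_lt_one (d i) (by linarith [hd0 i hi]) (hd1 i hi)).const_mul _
  simp only [mul_zero, Finset.sum_const_zero] at hlim
  obtain ⟨T, hT0, hT1⟩ := ((eventually_ge_atTop (0 : ℝ)).and
    (hlim.eventually (gt_mem_nhds (show (0 : ℝ) < 1 by norm_num)))).exists
  have := intermediate_value_Icc' hT0 (hcont.mono (subset_univ _))
  obtain ⟨x, hx, hfx⟩ := this ⟨hT1.le, by simpa using h⟩
  exact ⟨x, hx.1, hfx⟩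

namespace Sys

variable {α β : Type*} (S : Sys α β) [DecidableEq α] [DecidableEq β]

theorem cols_nonempty : S.cols.Nonempty := S.hI.image _

theorem colIdx_nonempty {a : α} (ha : a ∈ S.cols) : (S.colIdx a).Nonempty := by
  obtain ⟨b, hb⟩ := S.mem_cols.1 ha
  exact ⟨(a, b), S.mem_colIdx.2 ⟨hb, rfl⟩⟩

theorem exists_t : ∃ t : ℝ, 0 ≤ t ∧ ∑ a ∈ S.cols, S.c a ^ t = 1 := by
  obtain ⟨t, h0, h1⟩ := wsum_root (s := S.cols) (w := fun _ => 1) (d := S.c)
    (fun _ _ => one_pos) (fun a _ => S.hc0 a) (fun a _ => S.hc1 a) (by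
      simp only [Finset.sum_const, nsmul_eq_mul, mul_one]
      exact_mod_cast Finset.card_pos.2 S.cols_nonempty)
  exact ⟨t, h0, by simpa using h1⟩

theorem exists_s {a : α} (ha : a ∈ S.cols) :
    ∃ s : ℝ, 0 ≤ s ∧ ∑ i ∈ S.colIdx a, S.d i.2 ^ s = 1 := by
  obtain ⟨t, h0, h1⟩ := wsum_root (s := S.colIdx a) (w := fun _ => 1) (d := fun i => S.d i.2)
    (fun _ _ => one_pos) (fun i _ => S.hd0 _) (fun i _ => S.hd1 _) (by
      simp only [Finset.sum_const, nsmul_eq_mul, mul_one]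
      exact_mod_cast Finset.card_pos.2 (S.colIdx_nonempty ha))
  exact ⟨t, h0, by simpa using h1⟩

theorem exists_x {t : ℝ} (ht : ∑ a ∈ S.cols, S.c a ^ t = 1) :
    ∃ x : ℝ, 0 ≤ x ∧ ∑ i ∈ S.I, S.c i.1 ^ t * S.d i.2 ^ x = 1 := by
  apply wsum_root
  · intro i _; have := S.hc0 i.1; positivity
  · intro i _; exact S.hd0 _
  · intro i _; exact S.hd1 _
  · rw [S.sum_fiber, ← ht]
    apply Finset.sum_le_sum
    intro a ha
    have : ∑ i ∈ S.colIdx a, S.c i.1 ^ t = (S.colIdx a).card * S.c a ^ t := by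
      rw [Finset.sum_congr rfl (g := fun _ => S.c a ^ t), Finset.sum_const, nsmul_eq_mul]
      intro i hi
      rw [(S.mem_colIdx.1 hi).2]
    rw [this]
    have h1 : (1 : ℝ) ≤ (S.colIdx a).card := by
      exact_mod_cast Finset.card_pos.2 (S.colIdx_nonempty ha)
    have h2 : 0 < S.c a ^ t := by have := S.hc0 a; positivity
    nlinarith

theorem ent1_nonneg {q : α × β → ℝ} (hq : ∀ i ∈ S.I, 0 < q i) (hsum : ∑ i ∈ S.I, q i = 1) :
    0 ≤ S.ent1 q := by
  rw [ent1]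
  apply Finset.sum_nonneg
  intro a ha
  apply Real.negMulLog_nonneg
  · apply Finset.sum_nonneg
    intro i hi
    exact (hq i (S.mem_colIdx.1 hi).1).le
  · rw [← hsum, colIdx]
    apply Finset.sum_le_sum_of_subset_of_nonneg (Finset.filter_subset _ _)
    intro i hi _
    exact (hq i hi).le

theorem ent_concave {q q' : α × β → ℝ} (hq : ∀ i ∈ S.I, 0 < q i) (hq' : ∀ i ∈ S.I, 0 < q' i)
    {τ : ℝ} (h0 : 0 ≤ τ) (h1 : τ ≤ 1) :
    (1 - τ) * S.ent q + τ * S.ent q' ≤ S.ent (fun i => (1 - τ) * q i + τ * q' i) := by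
  rw [ent, ent, ent, Finset.mul_sum, Finset.mul_sum, ← Finset.sum_add_distrib]
  apply Finset.sum_le_sum
  intro i hi
  have := Real.concaveOn_negMulLog.2 (mem_Ici.2 (hq i hi).le) (mem_Ici.2 (hq' i hi).le)
    (show 0 ≤ 1 - τ by linarith) h0 (by ring)
  simpa only [smul_eq_mul] using this

theorem lam1_lin (q q' : α × β → ℝ) (τ : ℝ) :
    S.lam1 (fun i => (1 - τ) * q i + τ * q' i) = (1 - τ) * S.lam1 q + τ * S.lam1 q' := by
  simp only [lam1, mul_neg, Finset.mul_sum]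
  rw [← neg_add, ← Finset.sum_add_distrib]
  congr 1
  refine Finset.sum_congr rfl fun i _ => by ring

theorem lam2_lin (q q' : α × β → ℝ) (τ : ℝ) :
    S.lam2 (fun i => (1 - τ) * q i + τ * q' i) = (1 - τ) * S.lam2 q + τ * S.lam2 q' := by
  simp only [lam2, mul_neg, Finset.mul_sum]
  rw [← neg_add, ← Finset.sum_add_distrib]
  congr 1
  refine Finset.sum_congr rfl fun i _ => by ring

/-- The facts about the box, lower and Assouad dimensions used in the final argument. -/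
structure Facts (S : Sys α β) (b L A : ℝ≥0∞) : Prop where
  up : ∀ t₁ t₂ D : ℝ, 0 ≤ t₁ → 0 ≤ t₂ → t₁ ≤ D → t₂ ≤ D → ∑ a ∈ S.cols, S.c a ^ t₁ ≤ 1 →
    ∑ b ∈ S.swap.cols, S.d b ^ t₂ ≤ 1 → ∑ i ∈ S.I, S.c i.1 ^ t₁ * S.d i.2 ^ (D - t₁) ≤ 1 →
    ∑ i ∈ S.I, S.d i.2 ^ t₂ * S.c i.1 ^ (D - t₂) ≤ 1 → b ≤ ENNReal.ofReal D
  lo : (∃ i ∈ S.I, ∃ i' ∈ S.I, i.2 ≠ i'.2) → (∃ i ∈ S.I, ∃ i' ∈ S.I, i.1 ≠ i'.1) →
    (∃ j ∈ S.I, S.d j.2 < S.c j.1) → ∀ a ∈ S.cols, ∀ t s : ℝ, 0 ≤ t → 0 ≤ s →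
    ∑ a ∈ S.cols, S.c a ^ t ≤ 1 → ∑ i ∈ S.colIdx a, S.d i.2 ^ s ≤ 1 → L ≤ ENNReal.ofReal (t + s)
  as : (∃ j ∈ S.I, S.d j.2 < S.c j.1) → ∀ a ∈ S.cols, ∀ t s : ℝ, 0 ≤ t → 0 ≤ s →
    ∑ a ∈ S.cols, S.c a ^ t = 1 → ∑ i ∈ S.colIdx a, S.d i.2 ^ s = 1 → ENNReal.ofReal (t + s) ≤ A

/-- The final argument when the horizontal exponent dominates. -/
theorem core [Fintype α] [Fintype β] {F : Set (ℝ × ℝ)} (hF : S.IsAttr F) {b L A : ℝ≥0∞}
    (hfacts : S.Facts b L A) (hj : ∃ j ∈ S.I, S.d j.2 < S.c j.1)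
    {t₁ t₂ x y : ℝ} (ht₁ : 0 ≤ t₁) (ht₂ : 0 ≤ t₂) (hx : 0 ≤ x) (hy : 0 ≤ y)
    (hs₁ : ∑ a ∈ S.cols, S.c a ^ t₁ = 1) (hs₂ : ∑ b ∈ S.swap.cols, S.d b ^ t₂ = 1)
    (hsx : ∑ i ∈ S.I, S.c i.1 ^ t₁ * S.d i.2 ^ x = 1)
    (hsy : ∑ i ∈ S.I, S.d i.2 ^ t₂ * S.c i.1 ^ y = 1)
    (hle : t₂ + y ≤ t₁ + x) :
    (b = A → b ≤ dimH F) ∧ (L = dimH F → b ≤ dimH F) := by
  have hcp : ∀ i : α × β, 0 < S.c i.1 ^ t₁ := fun i => by have := S.hc0 i.1; positivity
  have hdp : ∀ i : α × β, 0 < S.d i.2 ^ t₂ := fun i => by have := S.hd0 i.2; positivity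
  -- the upper bound
  have hb : b ≤ ENNReal.ofReal (t₁ + x) := by
    apply hfacts.up t₁ t₂ (t₁ + x) ht₁ ht₂ (by linarith) (by linarith) hs₁.le hs₂.le
    · rw [add_sub_cancel_left]; exact hsx.le
    · rw [← hsy]
      exact wsum_le (fun i _ => hdp i) (fun i _ => S.hc0 i.1) (fun i _ => S.hc1 i.1) (by linarith)
  -- sum over the full product
  have hprodsum : ∑ i ∈ S.cols ×ˢ S.swap.cols, S.c i.1 ^ t₁ * S.d i.2 ^ t₂ = 1 := by
    rw [Finset.sum_product]
    simp only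
    rw [Finset.sum_congr rfl (fun a _ => (Finset.mul_sum _ _ _).symm), hs₂]
    simpa using hs₁
  have hIsub : S.I ⊆ S.cols ×ˢ S.swap.cols := by
    rintro ⟨a, b⟩ hi
    rw [Finset.mem_product]
    exact ⟨S.mem_cols.2 ⟨b, hi⟩, S.swap.mem_cols.2 ⟨a, (S.mem_swap_I b a).2 hi⟩⟩
  have hle1 : ∑ i ∈ S.I, S.c i.1 ^ t₁ * S.d i.2 ^ t₂ ≤ 1 := by
    rw [← hprodsum]
    apply Finset.sum_le_sum_of_subset_of_nonneg hIsub
    intro i _ _
    exact (mul_pos (hcp i) (hdp i)).le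
  have hx2 : x ≤ t₂ := by
    by_contra hcon
    push Not at hcon
    have := wsum_lt S.hI (w := fun i : α × β => S.c i.1 ^ t₁) (d := fun i => S.d i.2)
      (fun i _ => hcp i) (fun i _ => S.hd0 i.2) (fun i _ => S.hd1 i.2) hcon
    rw [hsx] at this
    linarith
  by_cases hprod : S.I = S.cols ×ˢ S.swap.cols
  · -- product case
    have h1 := S.dimH_prod hprod hF.compact hF.nonempty hF.inv ht₁ ht₂ hs₁ hs₂
    have h2 : b ≤ dimH F :=
      hb.trans ((ENNReal.ofReal_le_ofReal (by linarith)).trans h1)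
    exact ⟨fun _ => h2, fun _ => h2⟩
  -- non-product case
  have hlt1 : ∑ i ∈ S.I, S.c i.1 ^ t₁ * S.d i.2 ^ t₂ < 1 := by
    rw [← hprodsum]
    obtain ⟨i, hi, hi'⟩ := Finset.exists_of_ssubset (Finset.ssubset_iff_subset_ne.2 ⟨hIsub, hprod⟩)
    exact Finset.sum_lt_sum_of_subset hIsub hi hi' (mul_pos (hcp i) (hdp i))
      fun i _ _ => (mul_pos (hcp i) (hdp i)).le
  have hx2' : x < t₂ := by
    rcases lt_or_eq_of_le hx2 with h | h
    · exact h
    · rw [h] at hsx; linarith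
  obtain ⟨δ, hδ⟩ : ∃ δ : ℝ, δ = t₂ - x := ⟨_, rfl⟩
  have hδ0 : 0 < δ := by linarith
  -- the measure p
  set p : α × β → ℝ := fun i => S.c i.1 ^ t₁ * S.d i.2 ^ x with hp
  have hp0 : ∀ i ∈ S.I, 0 < p i := by
    intro i _
    have := S.hd0 i.2
    have := hcp i
    simp only [hp]; positivity
  have hlamp : S.lam1 p ≤ S.lam2 p := by
    have h1 : ∑ i ∈ S.I, p i * Real.exp (δ * (Real.log (S.d i.2) - Real.log (S.c i.1))) ≤ 1 := by
      have h2 : ∀ i ∈ S.I, p i * Real.exp (δ * (Real.log (S.d i.2) - Real.log (S.c i.1))) =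
          S.d i.2 ^ t₂ * S.c i.1 ^ (t₁ - δ) := by
        intro i _
        have hc := S.hc0 i.1
        have hd := S.hd0 i.2
        rw [mul_sub, Real.exp_sub, mul_comm δ, mul_comm δ, Real.exp_mul, Real.exp_mul,
          Real.exp_log hd, Real.exp_log hc, Real.rpow_sub hc]
        simp only [hp]
        have : S.d i.2 ^ t₂ = S.d i.2 ^ x * S.d i.2 ^ δ := by
          rw [← Real.rpow_add hd]; congr 1; rw [hδ]; ring
        rw [this]
        ring
      rw [Finset.sum_congr rfl h2, ← hsy]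
      exact wsum_le (fun i _ => hdp i) (fun i _ => S.hc0 i.1) (fun i _ => S.hc1 i.1) (by linarith)
    have h3 : ∑ i ∈ S.I, p i * (δ * (Real.log (S.d i.2) - Real.log (S.c i.1)) + 1) ≤ 1 := by
      refine le_trans (Finset.sum_le_sum fun i hi => ?_) h1
      exact mul_le_mul_of_nonneg_left (Real.add_one_le_exp _) (hp0 i hi).le
    have h4 : ∑ i ∈ S.I, p i * (δ * (Real.log (S.d i.2) - Real.log (S.c i.1)) + 1) =
        δ * (S.lam1 p - S.lam2 p) + ∑ i ∈ S.I, p i := by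
      rw [lam1, lam2]
      simp only [mul_add, mul_one, Finset.sum_add_distrib, mul_sub, Finset.sum_sub_distrib]
      rw [mul_neg, mul_neg, Finset.mul_sum, Finset.mul_sum]
      have e1 : ∑ i ∈ S.I, p i * (δ * Real.log (S.d i.2)) = ∑ i ∈ S.I, δ * (p i * Real.log (S.d i.2)) :=
        Finset.sum_congr rfl fun i _ => by ring
      have e2 : ∑ i ∈ S.I, p i * (δ * Real.log (S.c i.1)) = ∑ i ∈ S.I, δ * (p i * Real.log (S.c i.1)) :=
        Finset.sum_congr rfl fun i _ => by ring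
      rw [e1, e2]
      ring
    have h5 : ∑ i ∈ S.I, p i = 1 := hsx
    rw [h4, h5] at h3
    nlinarith
  have hl2p := S.lam2_pos hp0
  -- fibre exponents
  have hσex : ∀ a : α, ∃ s : ℝ, 0 ≤ s ∧ (a ∈ S.cols → ∑ i ∈ S.colIdx a, S.d i.2 ^ s = 1) := by
    intro a
    by_cases ha : a ∈ S.cols
    · obtain ⟨s, h1, h2⟩ := S.exists_s ha
      exact ⟨s, h1, fun _ => h2⟩
    · exact ⟨0, le_rfl, fun h => absurd h ha⟩
  choose σ hσ0 hσ using hσex
  constructor
  · -- b = A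
    intro hbA
    have hσx : ∀ a ∈ S.cols, σ a ≤ x := by
      intro a ha
      have h1 := hfacts.as hj a ha t₁ (σ a) ht₁ (hσ0 a) hs₁ (hσ a ha)
      rw [← hbA] at h1
      have h2 := h1.trans hb
      rw [ENNReal.ofReal_le_ofReal_iff (by linarith)] at h2
      linarith
    have hcolle : ∀ a ∈ S.cols, ∑ i ∈ S.colIdx a, S.d i.2 ^ x ≤ 1 := by
      intro a ha
      rw [← hσ a ha]
      exact Finset.sum_le_sum fun i _ =>
        Real.rpow_le_rpow_of_exponent_ge (S.hd0 _) (S.hd1 _).le (hσx a ha)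
    have hcoleq : ∀ a ∈ S.cols, ∑ i ∈ S.colIdx a, S.d i.2 ^ x = 1 := by
      have h1 : ∑ a ∈ S.cols, S.c a ^ t₁ * ∑ i ∈ S.colIdx a, S.d i.2 ^ x = ∑ a ∈ S.cols, S.c a ^ t₁ := by
        rw [hs₁, ← hsx, S.sum_fiber]
        refine Finset.sum_congr rfl fun a _ => ?_
        rw [Finset.mul_sum]
        refine Finset.sum_congr rfl fun i hi => ?_
        rw [(S.mem_colIdx.1 hi).2]
      have h2 : ∀ a ∈ S.cols, S.c a ^ t₁ * ∑ i ∈ S.colIdx a, S.d i.2 ^ x ≤ S.c a ^ t₁ := by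
        intro a ha
        have : 0 < S.c a ^ t₁ := by have := S.hc0 a; positivity
        exact mul_le_of_le_one_right this.le (hcolle a ha)
      have h3 := (Finset.sum_eq_sum_iff_of_le h2).1 h1
      intro a ha
      have h4 := h3 a ha
      have : 0 < S.c a ^ t₁ := by have := S.hc0 a; positivity
      exact mul_left_cancel₀ this.ne' (by rw [h4, mul_one])
    exact hb.trans (S.LY_const hF.compact hF.nonempty hF.inv ht₁ (q := p) (fun i _ => rfl) hs₁
      hcoleq hlamp)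
  · intro hLH
    by_contra hcon
    push Not at hcon
    -- two rows and two columns
    have hrow : ∃ i ∈ S.I, ∃ i' ∈ S.I, i.2 ≠ i'.2 := by
      by_contra h
      push Not at h
      apply hprod
      apply Finset.Subset.antisymm hIsub
      rintro ⟨a, b'⟩ hab
      rw [Finset.mem_product] at hab
      obtain ⟨b1, hb1⟩ := S.mem_cols.1 hab.1
      obtain ⟨a1, ha1⟩ := S.swap.mem_cols.1 hab.2
      have ha1' := (S.mem_swap_I _ _).1 ha1
      have := h _ hb1 _ ha1'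
      simp only at this
      rw [← this]
      exact hb1
    have hcol : ∃ i ∈ S.I, ∃ i' ∈ S.I, i.1 ≠ i'.1 := by
      by_contra h
      push Not at h
      apply hprod
      apply Finset.Subset.antisymm hIsub
      rintro ⟨a, b'⟩ hab
      rw [Finset.mem_product] at hab
      obtain ⟨b1, hb1⟩ := S.mem_cols.1 hab.1
      obtain ⟨a1, ha1⟩ := S.swap.mem_cols.1 hab.2
      have ha1' := (S.mem_swap_I _ _).1 ha1
      have := h _ ha1' _ hb1
      simp only at this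
      rw [← this]
      exact ha1'
    have hlo : ∀ a ∈ S.cols, dimH F ≤ ENNReal.ofReal (t₁ + σ a) := by
      intro a ha
      rw [← hLH]
      exact hfacts.lo hrow hcol hj a ha t₁ (σ a) ht₁ (hσ0 a) hs₁.le (hσ a ha).le
    obtain ⟨a0, ha0⟩ := S.cols_nonempty
    have hfin : dimH F ≠ ∞ := ((hlo a0 ha0).trans_lt ENNReal.ofReal_lt_top).ne
    set ℓ := (dimH F).toReal with hℓ
    have hℓ0 : 0 ≤ ℓ := ENNReal.toReal_nonneg
    have hH : dimH F = ENNReal.ofReal ℓ := (ENNReal.ofReal_toReal hfin).symm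
    have hℓσ : ∀ a ∈ S.cols, ℓ - t₁ ≤ σ a := by
      intro a ha
      have := hlo a ha
      rw [hH, ENNReal.ofReal_le_ofReal_iff (by have := hσ0 a; linarith)] at this
      linarith
    have hℓD : ℓ < t₁ + x := by
      have := hcon.trans_le hb
      rw [hH, ENNReal.ofReal_lt_ofReal_iff_of_nonneg hℓ0] at this
      exact this
    set q : α × β → ℝ := fun i => S.c i.1 ^ t₁ * S.d i.2 ^ σ i.1 with hq
    have hq0 : ∀ i ∈ S.I, 0 < q i := by
      intro i _
      have := S.hd0 i.2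
      have := hcp i
      simp only [hq]; positivity
    have hqsum : ∑ i ∈ S.I, q i = 1 := (S.sum_q_eq (fun i _ => rfl) hσ).trans hs₁
    have hl2q := S.lam2_pos hq0
    have hnn : ∀ i ∈ S.I, 0 ≤ q i * ((σ i.1 - (ℓ - t₁)) * (-Real.log (S.d i.2))) := by
      intro i hi
      have h1 := hq0 i hi
      have h2 := Real.log_neg (S.hd0 i.2) (S.hd1 i.2)
      have h3 := hℓσ i.1 (S.mem_cols.2 ⟨i.2, hi⟩)
      have h4 : 0 ≤ σ i.1 - (ℓ - t₁) := by linarith
      have h5 : 0 ≤ -Real.log (S.d i.2) := by linarith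
      positivity
    have hg0 : ∑ i ∈ S.I, q i * ((σ i.1 - (ℓ - t₁)) * (-Real.log (S.d i.2))) =
        ∑ i ∈ S.I, q i * (σ i.1 * (-Real.log (S.d i.2))) - (ℓ - t₁) * S.lam2 q := by
      rw [lam2, ← Finset.sum_neg_distrib, Finset.mul_sum, ← Finset.sum_sub_distrib]
      refine Finset.sum_congr rfl fun i _ => by ring
    rcases le_or_gt (S.lam1 q) (S.lam2 q) with hlam | hlam
    · have h1 := S.LY_sigma hF.compact hF.nonempty hF.inv ht₁ (q := q) (fun i _ => rfl) hs₁ hσ hlam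
      rw [hH, ENNReal.ofReal_le_ofReal_iff hℓ0] at h1
      have h2 : (∑ i ∈ S.I, q i * (σ i.1 * (-Real.log (S.d i.2)))) / S.lam2 q ≤ ℓ - t₁ := by
        linarith
      rw [div_le_iff₀ hl2q] at h2
      have h3 : ∑ i ∈ S.I, q i * ((σ i.1 - (ℓ - t₁)) * (-Real.log (S.d i.2))) = 0 :=
        le_antisymm (by rw [hg0]; linarith) (Finset.sum_nonneg hnn)
      have h4 := (Finset.sum_eq_zero_iff_of_nonneg hnn).1 h3
      have h5 : ∀ a ∈ S.cols, σ a = ℓ - t₁ := by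
        intro a ha
        obtain ⟨b', hb'⟩ := S.mem_cols.1 ha
        have h6 := h4 _ hb'
        have h7 := (hq0 _ hb').ne'
        have h8 := (Real.log_neg (S.hd0 b') (S.hd1 b')).ne
        simp only [mul_eq_zero, h7, false_or, neg_eq_zero, h8, or_false] at h6
        linarith
      have h6 : ∑ i ∈ S.I, S.c i.1 ^ t₁ * S.d i.2 ^ (ℓ - t₁) = 1 := by
        rw [← hqsum]
        refine Finset.sum_congr rfl fun i hi => ?_
        simp only [hq]
        rw [h5 i.1 (S.mem_cols.2 ⟨i.2, hi⟩)]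
      have h7 := wsum_lt S.hI (w := fun i : α × β => S.c i.1 ^ t₁) (d := fun i => S.d i.2)
        (fun i _ => hcp i) (fun i _ => S.hd0 i.2) (fun i _ => S.hd1 i.2)
        (show ℓ - t₁ < x by linarith)
      rw [hsx, h6] at h7
      exact lt_irrefl _ h7
    · set Δ0 := S.lam1 q - S.lam2 q with hΔ0
      set Δ1 := S.lam2 p - S.lam1 p with hΔ1
      have hΔ0' : 0 < Δ0 := by linarith
      have hΔ1' : 0 ≤ Δ1 := by linarith
      set τ := Δ0 / (Δ0 + Δ1) with hτ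
      have hτ0 : 0 < τ := by positivity
      have hτ1 : τ ≤ 1 := by rw [hτ, div_le_one (by positivity)]; linarith
      set r : α × β → ℝ := fun i => (1 - τ) * q i + τ * p i with hr
      have hr0 : ∀ i ∈ S.I, 0 < r i := by
        intro i hi
        have h1 := hq0 i hi
        have h2 := hp0 i hi
        have h3 : 0 ≤ 1 - τ := by linarith
        simp only [hr]; positivity
      have hrsum : ∑ i ∈ S.I, r i = 1 := by
        simp only [hr, Finset.sum_add_distrib, ← Finset.mul_sum]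
        rw [hqsum, hsx]; ring
      have hlr1 := S.lam1_lin q p τ
      have hlr2 := S.lam2_lin q p τ
      rw [← hr] at hlr1 hlr2
      have hlreq : S.lam1 r = S.lam2 r := by
        have h1 : (1 - τ) * Δ0 = τ * Δ1 := by
          rw [hτ]; field_simp; ring
        rw [hlr1, hlr2]
        have h2 : S.lam1 q = S.lam2 q + Δ0 := by rw [hΔ0]; ring
        have h3 : S.lam2 p = S.lam1 p + Δ1 := by rw [hΔ1]; ring
        rw [h2, h3]
        linear_combination h1
      have hl2r := S.lam2_pos hr0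
      have h1 := S.LY hF.compact hF.nonempty hF.inv hr0 hrsum hlreq.le (S.ent1_nonneg hr0 hrsum)
      rw [hH, ENNReal.ofReal_le_ofReal_iff hℓ0, hlreq, ← add_div, add_sub_cancel,
        div_le_iff₀ hl2r] at h1
      have h2 := S.ent_concave hq0 hp0 hτ0.le hτ1
      rw [← hr] at h2
      have h3 := S.ent_eq (q := q) (t := t₁) (σ := σ) (fun i _ => rfl)
      have h4 := S.ent_eq (q := p) (t := t₁) (σ := fun _ => x) (fun i _ => rfl)
      have h5 : ∑ i ∈ S.I, p i * (x * (-Real.log (S.d i.2))) = x * S.lam2 p := by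
        rw [lam2, ← Finset.sum_neg_distrib, Finset.mul_sum]
        refine Finset.sum_congr rfl fun i _ => by ring
      rw [h5] at h4
      have h6 : (ℓ - t₁) * S.lam2 q ≤ ∑ i ∈ S.I, q i * (σ i.1 * (-Real.log (S.d i.2))) := by
        have := Finset.sum_nonneg hnn
        rw [hg0] at this
        linarith
      have h7 : (ℓ - t₁) * S.lam2 p < x * S.lam2 p := by
        apply mul_lt_mul_of_pos_right _ hl2p
        linarith
      -- combine
      have h8 : ℓ * S.lam2 r = t₁ * S.lam1 r + (ℓ - t₁) * S.lam2 r := by rw [hlreq]; ring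
      rw [h8, hlr1, hlr2] at h1
      have h9 : (1 - τ) * (t₁ * S.lam1 q + (ℓ - t₁) * S.lam2 q) ≤ (1 - τ) * S.ent q := by
        apply mul_le_mul_of_nonneg_left _ (by linarith)
        rw [h3]; linarith
      have h10 : τ * (t₁ * S.lam1 p + (ℓ - t₁) * S.lam2 p) < τ * S.ent p := by
        apply mul_lt_mul_of_pos_left _ hτ0
        rw [h4]; linarith
      nlinarith [h1, h2, h9, h10]

end Sys

end CarpetM
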