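import Mathlib

open MeasureTheory Filter Topology Set
open scoped ENNReal NNReal BigOperators

namespace CarpetM

/-- `coverNum r E = N_r(E)`: the least number of sets of diameter at most `r` needed to cover
`E`. -/
noncomputable def coverNum {X : Type*} [PseudoMetricSpace X] (r : ℝ) (E : Set X) : ℕ :=
  sInf {k : ℕ | ∃ 𝒰 : Finset (Set X), 𝒰.card = k ∧ (∀ U ∈ 𝒰, ∀ x ∈ U, ∀ y ∈ U, dist x y ≤ r) ∧
    E ⊆ ⋃ U ∈ 𝒰, U}

/-- `IsBoxDim F b`: the box dimension `lim_{r → 0} log N_r(F) / (-log r)` exists and equals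
`b`. -/
def IsBoxDim {X : Type*} [PseudoMetricSpace X] (F : Set X) (b : ℝ≥0) : Prop :=
  Tendsto (fun r : ℝ => Real.log (coverNum r F) / (-Real.log r)) (𝓝[>] 0) (𝓝 (b : ℝ))

/-- The upper box dimension. -/
noncomputable def upperBoxDim {X : Type*} [PseudoMetricSpace X] (F : Set X) : ℝ≥0∞ :=
  limsup (fun r : ℝ => ENNReal.ofReal (Real.log (coverNum r F) / (-Real.log r))) (𝓝[>] 0)

/-- The Assouad dimension: infimum of the `s ≥ 0` such that for some `C > 0`,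
`N_r(B(x,R) ∩ F) ≤ C (R/r)^s` for all `0 < r < R` and `x ∈ F`. -/
noncomputable def assouadDim {X : Type*} [PseudoMetricSpace X] (F : Set X) : ℝ≥0∞ :=
  sInf {s : ℝ≥0∞ | ∃ t : ℝ≥0, s = t ∧ ∃ C : ℝ, 0 < C ∧ ∀ r R : ℝ, 0 < r → r < R → ∀ x ∈ F,
    (coverNum r (Metric.closedBall x R ∩ F) : ℝ) ≤ C * (R / r) ^ (t : ℝ)}

/-- The lower dimension: supremum of the `s ≥ 0` such that for some `C > 0`,
`N_r(B(x,R) ∩ F) ≥ C (R/r)^s` for all `0 < r < R ≤ |F|` and `x ∈ F`. -/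
noncomputable def lowerDim {X : Type*} [PseudoMetricSpace X] (F : Set X) : ℝ≥0∞ :=
  sSup {s : ℝ≥0∞ | ∃ t : ℝ≥0, s = t ∧ ∃ C : ℝ, 0 < C ∧ ∀ r R : ℝ, 0 < r → r < R →
    R ≤ Metric.diam F → ∀ x ∈ F,
    C * (R / r) ^ (t : ℝ) ≤ (coverNum r (Metric.closedBall x R ∩ F) : ℝ)}

end CarpetM
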