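import Mathlib
import Pool.Agent.CarpetM.Dims
import Pool.Agent.CarpetM.Core

open MeasureTheory Filter Topology Set
open scoped ENNReal NNReal BigOperators

set_option linter.unusedSectionVars false

namespace CarpetM

section general

variable {X : Type*} [MetricSpace X]

theorem coverNum_le {r K : ℝ} {E : Set X} (h : HasCover r E K) : (coverNum r E : ℝ) ≤ K := by
  obtain ⟨𝒰, h1, h2, h3⟩ := h
  refine le_trans ?_ h1
  have : coverNum r E ≤ 𝒰.card := Nat.sInf_le ⟨𝒰, rfl, h2, h3⟩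
  exact_mod_cast this

theorem exists_hasCover {F : Set X} (hF : IsCompact F) {r : ℝ} (hr : 0 < r) :
    ∃ k : ℕ, HasCover r F k := by
  classical
  obtain ⟨t, _, htf, ht⟩ := hF.finite_cover_balls (show 0 < r / 2 by positivity)
  refine ⟨(htf.toFinset.image fun x => Metric.ball x (r / 2)).card,
    htf.toFinset.image fun x => Metric.ball x (r / 2), le_rfl, ?_, ?_⟩
  · intro U hU x hx y hy
    obtain ⟨z, -, rfl⟩ := Finset.mem_image.1 hU
    have h1 := Metric.mem_ball.1 hx
    have h2 := Metric.mem_ball.1 hy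
    have h3 := dist_triangle_right x y z
    linarith
  · intro x hx
    obtain ⟨z, hz, hxz⟩ := by simpa only [mem_iUnion, exists_prop] using ht hx
    simp only [mem_iUnion, Finset.mem_image, exists_prop]
    exact ⟨_, ⟨z, htf.mem_toFinset.2 hz, rfl⟩, hxz⟩

theorem hasCover_coverNum {F E : Set X} (hF : IsCompact F) (hE : E ⊆ F) {r : ℝ} (hr : 0 < r) :
    HasCover r E (coverNum r E) := by
  obtain ⟨k, hk⟩ := exists_hasCover hF hr
  obtain ⟨𝒰, h1, h2, h3⟩ := hk.mono_set hE
  have hne : {k : ℕ | ∃ 𝒰 : Finset (Set X), 𝒰.card = k ∧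
      (∀ U ∈ 𝒰, ∀ x ∈ U, ∀ y ∈ U, dist x y ≤ r) ∧ E ⊆ ⋃ U ∈ 𝒰, U}.Nonempty := ⟨_, 𝒰, rfl, h2, h3⟩
  obtain ⟨𝒱, g1, g2, g3⟩ := Nat.sInf_mem hne
  refine ⟨𝒱, ?_, g2, g3⟩
  rw [g1]
  exact le_rfl

theorem coverNum_pos {F E : Set X} (hF : IsCompact F) (hE : E ⊆ F) (hne : E.Nonempty) {r : ℝ}
    (hr : 0 < r) : 1 ≤ coverNum r E := by
  obtain ⟨𝒱, g1, g2, g3⟩ := hasCover_coverNum hF hE hr
  obtain ⟨x, hx⟩ := hne
  obtain ⟨U, hU, -⟩ := by simpa only [mem_iUnion, exists_prop] using g3 hx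
  have h1 : 1 ≤ 𝒱.card := Finset.card_pos.2 ⟨U, hU⟩
  have h2 : 𝒱.card ≤ coverNum r E := by exact_mod_cast g1
  omega

theorem upperBoxDim_eq {F : Set X} {b : ℝ≥0} (h : IsBoxDim F b) : upperBoxDim F = b := by
  have h1 := ENNReal.tendsto_ofReal h
  rw [ENNReal.ofReal_coe_nnreal] at h1
  exact h1.limsup_eq

theorem upperBoxDim_le {F : Set X} (hF : IsCompact F) (hne : F.Nonempty) {K D : ℝ} (hK : 0 < K)
    (h : ∀ r : ℝ, 0 < r → r ≤ 1 → HasCover r F (K * r ^ (-D))) :
    upperBoxDim F ≤ ENNReal.ofReal D := by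
  have hlog : Tendsto (fun r : ℝ => -Real.log r) (𝓝[>] 0) atTop :=
    tendsto_neg_atBot_atTop.comp Real.tendsto_log_nhdsGT_zero
  have hlim : Tendsto (fun r : ℝ => ENNReal.ofReal (Real.log K / (-Real.log r) + D)) (𝓝[>] 0)
      (𝓝 (ENNReal.ofReal D)) := by
    apply ENNReal.tendsto_ofReal
    have := (hlog.const_div_atTop (Real.log K)).add_const D
    rwa [zero_add] at this
  rw [← hlim.limsup_eq]
  refine limsup_le_limsup ?_ (by isBoundedDefault) (by isBoundedDefault)
  · have h1 : ∀ᶠ r : ℝ in 𝓝[>] 0, r < 1 :=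
      mem_nhdsWithin_of_mem_nhds (Iio_mem_nhds one_pos)
    filter_upwards [self_mem_nhdsWithin, h1] with r hr0 hr1
    have hr0' : 0 < r := hr0
    apply ENNReal.ofReal_le_ofReal
    have h2 : 0 < -Real.log r := by have := Real.log_neg hr0' hr1; linarith
    have h3 := coverNum_le (h r hr0' hr1.le)
    have h4 : (0 : ℝ) < coverNum r F := by
      exact_mod_cast coverNum_pos hF subset_rfl hne hr0'
    have h5 : Real.log (coverNum r F) ≤ Real.log K + D * (-Real.log r) := by
      refine (Real.log_le_log h4 h3).trans (le_of_eq ?_)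
      rw [Real.log_mul hK.ne' (by positivity), Real.log_rpow hr0']
      ring
    rw [div_le_iff₀ h2, add_mul, div_mul_cancel₀ _ h2.ne']
    exact h5

end general

/-- A bi-Lipschitz chart. -/
structure Chart {X : Type*} [MetricSpace X] (φ : X → ℝ × ℝ) : Prop where
  le : ∀ p q, dist (φ p) (φ q) ≤ dist p q
  ge : ∀ p q, dist p q ≤ 2 * dist (φ p) (φ q)
  surj : Function.Surjective φ

namespace Chart

variable {X : Type*} [MetricSpace X] {φ : X → ℝ × ℝ} (hφ : Chart φ)
include hφ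

theorem inj : Function.Injective φ := by
  intro p q h
  have := hφ.ge p q
  rw [h, dist_self, mul_zero] at this
  exact dist_le_zero.1 this

/-- Pull back a cover. -/
theorem pull {r K : ℝ} {E : Set X} (h : HasCover r (φ '' E) K) : HasCover (2 * r) E K := by
  classical
  obtain ⟨𝒰, h1, h2, h3⟩ := h
  refine ⟨𝒰.image fun U => φ ⁻¹' U, ?_, ?_, ?_⟩
  · refine le_trans ?_ h1
    exact_mod_cast Finset.card_image_le
  · intro U hU x hx y hy
    obtain ⟨V, hV, rfl⟩ := Finset.mem_image.1 hU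
    have := h2 V hV _ hx _ hy
    have := hφ.ge x y
    linarith
  · intro x hx
    obtain ⟨U, hU, hxU⟩ := by simpa only [mem_iUnion, exists_prop] using h3 ⟨x, hx, rfl⟩
    simp only [mem_iUnion, Finset.mem_image, exists_prop]
    exact ⟨_, ⟨U, hU, rfl⟩, hxU⟩

theorem push {r K : ℝ} {E : Set X} (h : HasCover r E K) : HasCover r (φ '' E) K := by
  have := h.image φ (L := 1) zero_le_one (by intro x y; rw [one_mul]; exact hφ.le x y)
  rwa [one_mul] at this

theorem dimH_eq (F : Set X) : dimH (φ '' F) = dimH F := by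
  apply le_antisymm
  · have h1 : LipschitzWith 1 φ := LipschitzWith.mk_one hφ.le
    exact h1.dimH_image_le F
  · have h2 : AntilipschitzWith 2 φ := AntilipschitzWith.of_le_mul_dist (by
      intro x y
      exact hφ.ge x y)
    exact h2.le_dimH_image F

theorem facts {α β : Type*} {S : Sys α β} [DecidableEq α] [DecidableEq β] [Fintype α] [Fintype β]
    {F : Set X} (hFc : IsCompact F) (hF : S.IsAttr (φ '' F)) (hdiam : 0 < Metric.diam F) :
    S.Facts (upperBoxDim F) (lowerDim F) (assouadDim F) where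
  up := by
    intro t₁ t₂ D ht₁ ht₂ hD₁ hD₂ h1 h2 h3 h4
    obtain ⟨K, hK, h⟩ := S.cover_upper hF ht₁ ht₂ hD₁ hD₂ h1 h2 h3 h4
    apply upperBoxDim_le hFc (K := K * 2 ^ D) (by simpa using hF.nonempty) (by positivity)
    intro r hr hr1
    have h5 := hφ.pull (h (r / 2) (by positivity) (by linarith))
    have h6 : 2 * (r / 2) = r := by ring
    rw [h6] at h5
    refine h5.mono_K (le_of_eq ?_)
    rw [Real.div_rpow hr.le (by norm_num), Real.rpow_neg (by norm_num : (0 : ℝ) ≤ 2)]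
    field_simp
  lo := by
    rintro hrow hcol ⟨j, hj, hjcd⟩ a ha t s ht hs hsum hsa
    obtain ⟨C, hC, h⟩ := S.lower_loc hF hj hjcd ha hrow hcol ht hs hsum hsa
    apply sSup_le
    rintro _ ⟨s0, rfl, C0, hC0, h0⟩
    rw [← ENNReal.ofReal_coe_nnreal, ENNReal.ofReal_le_ofReal_iff (by positivity)]
    by_contra hcon
    push Not at hcon
    set e := (s0 : ℝ) - (t + s) with he
    have he0 : 0 < e := by rw [he]; linarith
    -- choose the scale ratio
    have hlim : Tendsto (fun x : ℝ => x ^ e) atTop atTop := tendsto_rpow_atTop he0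
    obtain ⟨B, hB, hB1⟩ := ((hlim.eventually_gt_atTop (C * 2 ^ (s0 : ℝ) / C0)).and
      (eventually_ge_atTop (3 : ℝ))).exists
    obtain ⟨x, hx, r, R, hr, hrR, hRε, hrε, hcov⟩ := h (min (Metric.diam F) (1 / B)) (by positivity)
    obtain ⟨x', hx', rfl⟩ := hx
    have hR : 0 < R := hr.trans hrR
    have hrB : r < 1 / B * R := hrε.trans_le (by gcongr; exact min_le_right _ _)
    have hratio : B < R / r := by
      rw [lt_div_iff₀ hr]
      rw [one_div, ← div_eq_inv_mul, lt_div_iff₀ (by positivity)] at hrB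
      linarith
    have hcov' : HasCover (2 * r) (Metric.closedBall x' R ∩ F) (C * (R / r) ^ (t + s)) := by
      apply hφ.pull
      refine hcov.mono_set ?_
      rintro _ ⟨y, ⟨hy1, hy2⟩, rfl⟩
      refine ⟨?_, ⟨y, hy2, rfl⟩⟩
      rw [Metric.mem_closedBall] at hy1 ⊢
      exact (hφ.le _ _).trans hy1
    have h2r : 2 * r < R := by
      rw [lt_div_iff₀ hr] at hratio
      nlinarith
    have h1 := h0 (2 * r) R (by positivity) h2r (hRε.le.trans (min_le_left _ _)) x' hx'
    have h2 := h1.trans (coverNum_le hcov')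
    have h3 : R / (2 * r) = R / r * 2⁻¹ := by field_simp
    rw [h3, Real.mul_rpow (by positivity) (by positivity), Real.inv_rpow (by norm_num)] at h2
    have h4 : (R / r) ^ (s0 : ℝ) = (R / r) ^ (t + s) * (R / r) ^ e := by
      rw [← Real.rpow_add (by positivity)]; congr 1; rw [he]; ring
    rw [h4] at h2
    have h5 : (C * 2 ^ (s0 : ℝ) / C0) < (R / r) ^ e :=
      hB.trans (Real.rpow_lt_rpow (by positivity) hratio he0)
    rw [div_lt_iff₀ hC0] at h5
    have h6 : 0 < (R / r) ^ (t + s) := by positivity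
    have h7 : (0 : ℝ) < 2 ^ (s0 : ℝ) := by positivity
    have h8 : C0 * ((R / r) ^ (t + s) * (R / r) ^ e) ≤ C * (R / r) ^ (t + s) * 2 ^ (s0 : ℝ) := by
      have := mul_le_mul_of_nonneg_right h2 h7.le
      calc C0 * ((R / r) ^ (t + s) * (R / r) ^ e)
          = C0 * ((R / r) ^ (t + s) * (R / r) ^ e * (2 ^ (s0 : ℝ))⁻¹) * 2 ^ (s0 : ℝ) := by
            field_simp
        _ ≤ _ := this
    have h9 : C * 2 ^ (s0 : ℝ) * (R / r) ^ (t + s) < (R / r) ^ e * C0 * (R / r) ^ (t + s) := by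
      gcongr
    linarith
  as := by
    rintro ⟨j, hj, hjcd⟩ a ha t s ht hs hsum hsa
    apply le_sInf
    rintro _ ⟨s0, rfl, C0, hC0, h0⟩
    rw [← ENNReal.ofReal_coe_nnreal]
    apply ENNReal.ofReal_le_ofReal
    apply S.assouad_lower hF hj hjcd ha ht hs hsum hsa (C := C0 * 2 ^ (s0 : ℝ)) (by positivity)
      s0.2
    rintro r R hr hrR _ ⟨x, hx, rfl⟩
    have h1 := h0 r (2 * R) hr (by linarith) x hx
    have h2 := hφ.push (hasCover_coverNum hFc (inter_subset_right (s := Metric.closedBall x (2 * R)))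
      hr)
    have h3 := h2.mono_K h1
    refine (h3.mono_set ?_).mono_K (le_of_eq ?_)
    · rintro _ ⟨hy1, ⟨y, hy, rfl⟩⟩
      refine ⟨y, ⟨?_, hy⟩, rfl⟩
      rw [Metric.mem_closedBall] at hy1 ⊢
      have := hφ.ge y x
      linarith
    · rw [mul_div_assoc, Real.mul_rpow (by norm_num) (by have := hr.trans hrR; positivity)]
      exact (mul_assoc _ _ _).symm

end Chart

end CarpetM
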