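import Mathlib
import Pool.Agent.CarpetM.Bridge

open MeasureTheory Filter Topology Set
open scoped ENNReal NNReal BigOperators

set_option linter.unusedSectionVars false

namespace CarpetM

theorem Chart.swap {X : Type*} [MetricSpace X] {φ : X → ℝ × ℝ} (hφ : Chart φ) :
    Chart (Prod.swap ∘ φ) where
  le p q := by
    have := hφ.le p q
    rw [Prod.dist_eq] at this
    simp only [Function.comp]
    rw [Prod.dist_eq, max_comm]
    exact this
  ge p q := by
    have := hφ.ge p q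
    rw [Prod.dist_eq] at this
    simp only [Function.comp]
    rw [Prod.dist_eq, max_comm]
    exact this
  surj := Prod.swap_surjective.comp hφ.surj

/-- The negative result. -/
theorem negative {X : Type*} [MetricSpace X] {φ : X → ℝ × ℝ} (hφ : Chart φ) {α β : Type*}
    [DecidableEq α] [DecidableEq β] [Fintype α] [Fintype β] (S : Sys α β) {F : Set X}
    (hFc : IsCompact F) (hF : S.IsAttr (φ '' F)) (hdiam : 0 < Metric.diam F)
    (hm1 : ∃ i ∈ S.I, S.d i.2 < S.c i.1) (hm2 : ∃ i ∈ S.I, S.c i.1 < S.d i.2) :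
    (upperBoxDim F = assouadDim F → upperBoxDim F ≤ dimH F) ∧
      (lowerDim F = dimH F → upperBoxDim F ≤ dimH F) := by
  obtain ⟨t₁, ht₁, hs₁⟩ := S.exists_t
  obtain ⟨t₂, ht₂, hs₂⟩ := S.swap.exists_t
  obtain ⟨x, hx, hsx⟩ := S.exists_x hs₁
  obtain ⟨y, hy, hsy⟩ := S.swap.exists_x hs₂
  have hsy' : ∑ i ∈ S.I, S.d i.2 ^ t₂ * S.c i.1 ^ y = 1 := by
    rw [S.sum_swap_I] at hsy
    exact hsy
  have hfacts := hφ.facts hFc hF hdiam
  have himg : (Prod.swap ∘ φ) '' F = Prod.swap '' (φ '' F) := image_comp _ _ _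
  have hFs : S.swap.IsAttr ((Prod.swap ∘ φ) '' F) := by
    rw [himg]; exact hF.swap
  have hfacts' := hφ.swap.facts hFc hFs hdiam
  have hm2' : ∃ j ∈ S.swap.I, S.swap.d j.2 < S.swap.c j.1 := by
    obtain ⟨i, hi, hlt⟩ := hm2
    exact ⟨i.swap, S.mem_swap_I'.2 (by simpa using hi), hlt⟩
  rcases le_total (t₂ + y) (t₁ + x) with hle | hle
  · have := S.core hF hfacts hm1 ht₁ ht₂ hx hy hs₁ hs₂ hsx hsy' hle
    rwa [hφ.dimH_eq] at this
  · have hss : S.swap.swap.cols = S.cols := by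
      ext a
      rw [Sys.mem_cols, Sys.mem_cols]
      simp only [Sys.mem_swap_I]
    have := S.swap.core hFs hfacts' hm2' ht₂ ht₁ hy hx hs₂ (by rw [hss]; exact hs₁) hsy (by
      rw [S.sum_swap_I]; exact hsx) hle
    rwa [hφ.swap.dimH_eq] at this

end CarpetM
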