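import Mathlib
import Pool.Agent.CarpetM.Neg

open MeasureTheory Filter Topology Set
open scoped ENNReal NNReal BigOperators

set_option linter.unusedSectionVars false

namespace CarpetM

/-- If a set has a one-dimensional projection containing `[0,1]`, then `N_r ≥ 1/r`. -/
theorem one_le_of_hasCover {r K : ℝ} (hr : 0 < r) {E : Set ℝ} (h : HasCover r E K)
    (hE : Icc 0 1 ⊆ E) : 1 ≤ K * r := by
  obtain ⟨𝒰, h1, h2, h3⟩ := h
  have h4 : volume (Icc (0 : ℝ) 1) ≤ ∑ U ∈ 𝒰, volume U :=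
    (measure_mono (hE.trans h3)).trans (measure_biUnion_finset_le _ _)
  have h5 : ∑ U ∈ 𝒰, volume U ≤ ∑ _U ∈ 𝒰, ENNReal.ofReal r := by
    apply Finset.sum_le_sum
    intro U hU
    refine (Real.volume_le_diam U).trans ?_
    apply Metric.ediam_le
    intro x hx y hy
    rw [edist_dist]
    exact ENNReal.ofReal_le_ofReal (h2 U hU x hx y hy)
  have h6 := h4.trans h5
  rw [Real.volume_Icc, Finset.sum_const, nsmul_eq_mul, ← ENNReal.ofReal_natCast,
    ← ENNReal.ofReal_mul (Nat.cast_nonneg _), ENNReal.ofReal_le_ofReal_iff (by positivity)] at h6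
  calc (1 : ℝ) ≤ 𝒰.card * r := by linarith
    _ ≤ K * r := by gcongr

namespace Sys

variable {α β : Type*} (S : Sys α β) [DecidableEq α] [DecidableEq β]

/-- If the columns tile `[0,1]`, the projection of the attractor contains `[0,1]`. -/
theorem proj_full {F : Set (ℝ × ℝ)} (hF : S.IsAttr F)
    (htile : ∀ x : ℝ, 0 ≤ x → x ≤ 1 → ∃ i ∈ S.I, ∃ y : ℝ, 0 ≤ y ∧ y ≤ 1 ∧
      x = S.c i.1 * y + S.u i.1) : Icc 0 1 ⊆ Prod.fst '' F := by
  obtain ⟨κ, θ, hκ, hκθ, hθ, hb⟩ := S.exists_bounds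
  have hθ0 : 0 < θ := lt_of_lt_of_le hκ hκθ
  have step : ∀ k : ℕ, ∀ x : ℝ, 0 ≤ x → x ≤ 1 → ∃ z ∈ F, |x - z.1| ≤ θ ^ k := by
    intro k
    induction k with
    | zero =>
      intro x hx0 hx1
      obtain ⟨z, hz⟩ := hF.nonempty
      refine ⟨z, hz, ?_⟩
      have h2 := (hF.mem01 z hz).1
      rw [pow_zero, abs_le]
      constructor <;> linarith
    | succ k ih =>
      intro x hx0 hx1
      obtain ⟨i, hi, y, hy0, hy1, rfl⟩ := htile x hx0 hx1
      obtain ⟨z, hz, hyz⟩ := ih y hy0 hy1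
      refine ⟨S.map i z, hF.inv i hi z hz, ?_⟩
      have e : S.c i.1 * y + S.u i.1 - (S.map i z).1 = S.c i.1 * (y - z.1) := by
        simp only [map]; ring
      rw [e, abs_mul, abs_of_pos (S.hc0 _), pow_succ']
      have := (hb i hi).2.1
      gcongr
  intro x hx
  have hcl : IsClosed (Prod.fst '' F) := (hF.compact.image continuous_fst).isClosed
  rw [← hcl.closure_eq, Metric.mem_closure_iff]
  intro ε hε
  obtain ⟨k, hk⟩ := exists_pow_lt_of_lt_one hε hθ
  obtain ⟨z, hz, hxz⟩ := step k x hx.1 hx.2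
  exact ⟨z.1, ⟨z, hz, rfl⟩, by rw [Real.dist_eq]; linarith⟩

end Sys

/-- Positive result, from numerical conditions. -/
theorem positive {X : Type*} [MetricSpace X] {φ : X → ℝ × ℝ} (hφ : Chart φ) {α β : Type*}
    [DecidableEq α] [DecidableEq β] [Fintype α] [Fintype β] (S : Sys α β) {F : Set X}
    (hFc : IsCompact F) (hF : S.IsAttr (φ '' F)) (hdiam : 0 < Metric.diam F)
    (htile : ∀ x : ℝ, 0 ≤ x → x ≤ 1 → ∃ i ∈ S.I, ∃ y : ℝ, 0 ≤ y ∧ y ≤ 1 ∧
      x = S.c i.1 * y + S.u i.1)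
    (hc : ∑ a ∈ S.cols, S.c a ≤ 1) (hI1 : ∑ i ∈ S.I, S.c i.1 ≤ 1)
    (hd : ∑ b ∈ S.swap.cols, S.d b ^ (1 / 2 : ℝ) = 1)
    (hI2 : ∑ i ∈ S.I, S.d i.2 ^ (1 / 2 : ℝ) * S.c i.1 ^ (1 / 2 : ℝ) ≤ 1)
    (hrow : ∃ i ∈ S.I, ∃ i' ∈ S.I, i.2 ≠ i'.2) (hcol : ∃ i ∈ S.I, ∃ i' ∈ S.I, i.1 ≠ i'.1)
    (hm2 : ∃ i ∈ S.I, S.c i.1 < S.d i.2) {b0 b1 : β} (hb0 : b0 ∈ S.swap.cols)
    (hb1 : b1 ∈ S.swap.cols) (h0 : ∑ i ∈ S.swap.colIdx b0, S.swap.d i.2 ^ (0 : ℝ) ≤ 1)
    (h1 : 1 < ∑ i ∈ S.swap.colIdx b1, S.swap.d i.2 ^ (1 / 2 : ℝ)) :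
    IsBoxDim F 1 ∧ lowerDim F < dimH F ∧ dimH F = ((1 : ℝ≥0) : ℝ≥0∞) ∧
      ((1 : ℝ≥0) : ℝ≥0∞) < assouadDim F := by
  have hne : F.Nonempty := by simpa using hF.nonempty
  have himg : (Prod.swap ∘ φ) '' F = Prod.swap '' (φ '' F) := image_comp _ _ _
  have hFs : S.swap.IsAttr ((Prod.swap ∘ φ) '' F) := by
    rw [himg]; exact hF.swap
  have hfacts' := hφ.swap.facts hFc hFs hdiam
  have hproj := S.proj_full hF htile
  -- covers
  obtain ⟨K, hK, hcov⟩ := S.cover_upper hF (t₁ := 1) (t₂ := 1 / 2) (D := 1) zero_le_one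
    (by norm_num) le_rfl (by norm_num) (by simpa using hc) hd.le (by simpa using hI1)
    (by norm_num at hI2 ⊢; exact hI2)
  have hdimH_le : dimH F ≤ 1 := by
    rw [← hφ.dimH_eq]
    have := dimH_le_of_hasCover (K := φ '' F) (C := K) (s := 1) zero_le_one
      (fun ρ h0 h1 => hcov ρ h0 h1.le)
    rwa [ENNReal.ofReal_one] at this
  have hdimH_ge : 1 ≤ dimH F := by
    rw [← hφ.dimH_eq]
    have h2 : dimH (Prod.fst '' (φ '' F)) ≤ dimH (φ '' F) :=
      LipschitzWith.prod_fst.dimH_image_le _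
    refine le_trans ?_ h2
    have h3 : dimH (Icc (0 : ℝ) 1) = 1 := by
      have := Real.dimH_of_nonempty_interior (E := ℝ) (s := Icc (0 : ℝ) 1) (by
        rw [interior_Icc]; exact nonempty_Ioo.2 one_pos)
      simpa using this
    rw [← h3]
    exact dimH_mono hproj
  have hdimH : dimH F = 1 := le_antisymm hdimH_le hdimH_ge
  refine ⟨?_, ?_, by rw [hdimH]; simp, ?_⟩
  · -- box dimension
    have hlog : Tendsto (fun r : ℝ => -Real.log r) (𝓝[>] 0) atTop :=
      tendsto_neg_atBot_atTop.comp Real.tendsto_log_nhdsGT_zero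
    have hlim : Tendsto (fun r : ℝ => Real.log (K * 2) / (-Real.log r) + 1) (𝓝[>] 0) (𝓝 1) := by
      have := (hlog.const_div_atTop (Real.log (K * 2))).add_const 1
      rwa [zero_add] at this
    unfold IsBoxDim
    rw [NNReal.coe_one]
    have hev : ∀ᶠ r : ℝ in 𝓝[>] 0, r < 1 := mem_nhdsWithin_of_mem_nhds (Iio_mem_nhds one_pos)
    apply tendsto_of_tendsto_of_tendsto_of_le_of_le' tendsto_const_nhds hlim
    · filter_upwards [self_mem_nhdsWithin, hev] with r hr0 hr1
      have hr0' : 0 < r := hr0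
      have h2 : 0 < -Real.log r := by have := Real.log_neg hr0' hr1; linarith
      rw [le_div_iff₀ h2, one_mul]
      have h3 := hφ.push (hasCover_coverNum hFc subset_rfl hr0')
      have h4 := h3.image Prod.fst (L := 1) zero_le_one (by
        intro x y; rw [one_mul, Prod.dist_eq]; exact le_max_left _ _)
      rw [one_mul] at h4
      have h5 := one_le_of_hasCover hr0' h4 hproj
      have h6 : (0 : ℝ) < coverNum r F := by
        exact_mod_cast coverNum_pos hFc subset_rfl hne hr0'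
      have h7 := Real.log_nonneg h5
      rw [Real.log_mul h6.ne' hr0'.ne'] at h7
      linarith
    · filter_upwards [self_mem_nhdsWithin, hev] with r hr0 hr1
      have hr0' : 0 < r := hr0
      have h2 : 0 < -Real.log r := by have := Real.log_neg hr0' hr1; linarith
      have h5 := hφ.pull (hcov (r / 2) (by positivity) (by linarith))
      have h6 : 2 * (r / 2) = r := by ring
      rw [h6] at h5
      have h3 := coverNum_le h5
      have h4 : (0 : ℝ) < coverNum r F := by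
        exact_mod_cast coverNum_pos hFc subset_rfl hne hr0'
      have h7 : K * (r / 2) ^ (-1 : ℝ) = K * 2 * r ^ (-1 : ℝ) := by
        rw [Real.rpow_neg_one, Real.rpow_neg_one]; field_simp
      rw [h7] at h3
      have h8 : Real.log (coverNum r F) ≤ Real.log (K * 2) + 1 * (-Real.log r) := by
        refine (Real.log_le_log h4 h3).trans (le_of_eq ?_)
        rw [Real.log_mul (by positivity) (by positivity), Real.log_rpow hr0']
        ring
      rw [div_le_iff₀ h2, add_mul, div_mul_cancel₀ _ h2.ne']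
      exact h8
  · -- lower dimension
    rw [hdimH]
    have hlo := hfacts'.lo
      (by
        obtain ⟨i, hi, i', hi', hne⟩ := hcol
        exact ⟨i.swap, S.mem_swap_I'.2 (by simpa using hi), i'.swap,
          S.mem_swap_I'.2 (by simpa using hi'), hne⟩)
      (by
        obtain ⟨i, hi, i', hi', hne⟩ := hrow
        exact ⟨i.swap, S.mem_swap_I'.2 (by simpa using hi), i'.swap,
          S.mem_swap_I'.2 (by simpa using hi'), hne⟩)
      (by
        obtain ⟨i, hi, hlt⟩ := hm2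
        exact ⟨i.swap, S.mem_swap_I'.2 (by simpa using hi), hlt⟩)
      b0 hb0 (1 / 2) 0 (by norm_num) le_rfl hd.le h0
    refine hlo.trans_lt ?_
    rw [← ENNReal.ofReal_one, ENNReal.ofReal_lt_ofReal_iff one_pos]
    norm_num
  · -- Assouad dimension
    obtain ⟨s, hs0, hs⟩ := S.swap.exists_s hb1
    have hs' : 1 / 2 < s := by
      by_contra hcon
      push Not at hcon
      have : ∑ i ∈ S.swap.colIdx b1, S.swap.d i.2 ^ (1 / 2 : ℝ) ≤
          ∑ i ∈ S.swap.colIdx b1, S.swap.d i.2 ^ s :=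
        Finset.sum_le_sum fun i _ =>
          Real.rpow_le_rpow_of_exponent_ge (S.swap.hd0 _) (S.swap.hd1 _).le hcon
      rw [hs] at this
      linarith
    have has := hfacts'.as
      (by
        obtain ⟨i, hi, hlt⟩ := hm2
        exact ⟨i.swap, S.mem_swap_I'.2 (by simpa using hi), hlt⟩)
      b1 hb1 (1 / 2) s (by norm_num) hs0 hd hs
    refine lt_of_lt_of_le ?_ has
    rw [ENNReal.coe_one, ← ENNReal.ofReal_one, ENNReal.ofReal_lt_ofReal_iff (by linarith)]
    linarith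

end CarpetM
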